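import Pool.Agent.H75.FixDefs

/-! Basic facts on oracle programs. -/

namespace Pool.Agent.H75.Fix

open Part

theorem OCode.eval_mono {g g' : ℕ →. ℕ} (h : ∀ n m, m ∈ g n → m ∈ g' n) (c : OCode) :
    ∀ n m, m ∈ c.eval g n → m ∈ c.eval g' n := by
  induction c with
  | zero => intro n m hm; exact hm
  | succ => intro n m hm; exact hm
  | left => intro n m hm; exact hm
  | right => intro n m hm; exact hm
  | oracle => exact h
  | pair a b iha ihb =>
    intro n m hm
    simp only [OCode.eval, seq_eq_bind_map, Part.map_eq_map, Part.bind_map, Part.bind_eq_bind,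
      Part.mem_bind_iff, Part.mem_map_iff] at hm ⊢
    obtain ⟨x, hx, y, hy, rfl⟩ := hm
    exact ⟨x, iha _ _ hx, y, ihb _ _ hy, rfl⟩
  | comp a b iha ihb =>
    intro n m hm
    simp only [OCode.eval, Part.bind_eq_bind, Part.mem_bind_iff] at hm ⊢
    obtain ⟨x, hx, hy⟩ := hm
    exact ⟨x, ihb _ _ hx, iha _ _ hy⟩
  | prec a b iha ihb =>
    intro n
    simp only [OCode.eval]
    generalize n.unpair.1 = x
    induction n.unpair.2 with
    | zero => intro m hm; exact iha _ _ hm
    | succ k ih =>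
      intro m hm
      simp only [Part.bind_eq_bind, Part.mem_bind_iff] at hm ⊢
      obtain ⟨y, hy, hz⟩ := hm
      exact ⟨y, ih _ hy, ihb _ _ hz⟩
  | rfind a iha =>
    intro n m hm
    simp only [OCode.eval, Nat.mem_rfind, Part.map_eq_map, Part.mem_map_iff] at hm ⊢
    obtain ⟨⟨x, hx, hx'⟩, h2⟩ := hm
    refine ⟨⟨x, iha _ _ hx, hx'⟩, fun {j} hj => ?_⟩
    obtain ⟨y, hy, hy'⟩ := h2 hj
    exact ⟨y, iha _ _ hy, hy'⟩

theorem OCode.eval_use {G : ℕ → ℕ →. ℕ} (hG : ∀ k n m, m ∈ G k n → m ∈ G (k + 1) n)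
    {g : ℕ →. ℕ} (hg : ∀ n m, m ∈ g n → ∃ k, m ∈ G k n) (c : OCode) :
    ∀ n m, m ∈ c.eval g n → ∃ k, m ∈ c.eval (G k) n := by
  have hG' : ∀ k l, k ≤ l → ∀ n m, m ∈ G k n → m ∈ G l n := by
    intro k l hkl
    induction hkl with
    | refl => intro n m h; exact h
    | step _ ih => intro n m h; exact hG _ _ _ (ih _ _ h)
  have mono : ∀ (c : OCode) k l, k ≤ l → ∀ n m, m ∈ c.eval (G k) n → m ∈ c.eval (G l) n :=
    fun c k l hkl => OCode.eval_mono (hG' k l hkl) c
  induction c with
  | zero => intro n m hm; exact ⟨0, hm⟩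
  | succ => intro n m hm; exact ⟨0, hm⟩
  | left => intro n m hm; exact ⟨0, hm⟩
  | right => intro n m hm; exact ⟨0, hm⟩
  | oracle => exact hg
  | pair a b iha ihb =>
    intro n m hm
    simp only [OCode.eval, seq_eq_bind_map, Part.map_eq_map, Part.bind_map, Part.bind_eq_bind,
      Part.mem_bind_iff, Part.mem_map_iff] at hm ⊢
    obtain ⟨x, hx, y, hy, rfl⟩ := hm
    obtain ⟨k, hk⟩ := iha _ _ hx
    obtain ⟨l, hl⟩ := ihb _ _ hy
    exact ⟨max k l, x, mono a _ _ (le_max_left _ _) _ _ hk, y, mono b _ _ (le_max_right _ _) _ _ hl,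
      rfl⟩
  | comp a b iha ihb =>
    intro n m hm
    simp only [OCode.eval, Part.bind_eq_bind, Part.mem_bind_iff] at hm ⊢
    obtain ⟨x, hx, hy⟩ := hm
    obtain ⟨k, hk⟩ := ihb _ _ hx
    obtain ⟨l, hl⟩ := iha _ _ hy
    exact ⟨max k l, x, mono b _ _ (le_max_left _ _) _ _ hk, mono a _ _ (le_max_right _ _) _ _ hl⟩
  | prec a b iha ihb =>
    intro n
    simp only [OCode.eval]
    generalize n.unpair.1 = x
    induction n.unpair.2 with
    | zero => intro m hm; exact iha _ _ hm
    | succ k ih =>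
      intro m hm
      simp only [Part.bind_eq_bind, Part.mem_bind_iff] at hm ⊢
      obtain ⟨y, hy, hz⟩ := hm
      obtain ⟨k1, hk1⟩ := ih _ hy
      obtain ⟨k2, hk2⟩ := ihb _ _ hz
      refine ⟨max k1 k2, y, ?_, mono b _ _ (le_max_right _ _) _ _ hk2⟩
      have key := mono (.prec a b) k1 (max k1 k2) (le_max_left _ _) (Nat.pair x k) y
      simp only [OCode.eval, Nat.unpair_pair] at key
      exact key hk1
  | rfind a iha =>
    intro n m hm
    simp only [OCode.eval, Nat.mem_rfind, Part.map_eq_map, Part.mem_map_iff] at hm ⊢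
    obtain ⟨⟨x, hx, hx'⟩, h2⟩ := hm
    obtain ⟨k, hk⟩ := iha _ _ hx
    have : ∀ M, M ≤ m → ∃ K, ∀ j < M, ∃ y ∈ a.eval (G K) (Nat.pair n j), decide (y = 0) = false := by
      intro M
      induction M with
      | zero => intro _; exact ⟨0, fun j hj => absurd hj (Nat.not_lt_zero _)⟩
      | succ M ih =>
        intro hM
        obtain ⟨K, hK⟩ := ih (Nat.le_of_succ_le hM)
        obtain ⟨y, hy, hy'⟩ := h2 (Nat.lt_of_succ_le hM)
        obtain ⟨L, hL⟩ := iha _ _ hy
        refine ⟨max K L, fun j hj => ?_⟩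
        rcases Nat.lt_succ_iff_lt_or_eq.1 hj with hj | rfl
        · obtain ⟨z, hz, hz'⟩ := hK j hj
          exact ⟨z, mono a _ _ (le_max_left _ _) _ _ hz, hz'⟩
        · exact ⟨y, mono a _ _ (le_max_right _ _) _ _ hL, hy'⟩
    obtain ⟨K, hK⟩ := this m le_rfl
    refine ⟨max k K, ⟨x, mono a _ _ (le_max_left _ _) _ _ hk, hx'⟩, fun {j} hj => ?_⟩
    obtain ⟨z, hz, hz'⟩ := hK j hj
    exact ⟨z, mono a _ _ (le_max_right _ _) _ _ hz, hz'⟩

theorem OCode.eval_partrec {α : Type*} [Primcodable α] {G : α → ℕ →. ℕ} (hG : Partrec₂ G)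
    (c : OCode) : Partrec₂ fun a n => c.eval (G a) n := by
  induction c with
  | zero => exact (Computable.const 0).partrec
  | succ => exact (Computable.succ.comp Computable.snd).partrec
  | left => exact (Computable.fst.comp (Computable.unpair.comp Computable.snd)).partrec
  | right => exact (Computable.snd.comp (Computable.unpair.comp Computable.snd)).partrec
  | oracle => exact hG
  | pair a b iha ihb =>
    have h1 : Partrec₂ fun (p : α × ℕ) (x : ℕ) =>
        (b.eval (G p.1) p.2).map fun y => Nat.pair x y := by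
      refine Partrec.map (f := fun p : (α × ℕ) × ℕ => b.eval (G p.1.1) p.1.2)
        (g := fun p y => Nat.pair p.2 y) ?_ ?_
      · exact ihb.comp (Computable.fst.comp Computable.fst) (Computable.snd.comp Computable.fst)
      · exact (Primrec₂.natPair.to_comp.comp (Computable.snd.comp Computable.fst) Computable.snd)
    refine (Partrec.bind iha h1).of_eq ?_
    rintro ⟨a, n⟩
    simp only [OCode.eval, seq_eq_bind_map, Part.map_eq_map, Part.bind_map, Part.bind_eq_bind]
  | comp a b iha ihb =>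
    exact Partrec.bind ihb (iha.comp (Computable.fst.comp Computable.fst) Computable.snd)
  | prec a b iha ihb =>
    refine (Partrec.nat_rec (f := fun p : α × ℕ => p.2.unpair.2)
      (g := fun p : α × ℕ => a.eval (G p.1) p.2.unpair.1)
      (h := fun p q => b.eval (G p.1) (Nat.pair p.2.unpair.1 (Nat.pair q.1 q.2)))
      (Computable.snd.comp (Computable.unpair.comp Computable.snd))
      (iha.comp Computable.fst (Computable.fst.comp (Computable.unpair.comp Computable.snd)))
      ?_).of_eq ?_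
    · refine Partrec₂.comp ihb (Computable.fst.comp Computable.fst) ?_
      refine Primrec₂.natPair.to_comp.comp (Computable.fst.comp (Computable.unpair.comp
        (Computable.snd.comp Computable.fst))) ?_
      exact Primrec₂.natPair.to_comp.comp (Computable.fst.comp Computable.snd)
        (Computable.snd.comp Computable.snd)
    · rintro ⟨a, n⟩
      rfl
  | rfind a iha =>
    refine Partrec.rfind (p := fun (p : α × ℕ) m => (fun k => decide (k = 0)) <$>
      a.eval (G p.1) (Nat.pair p.2 m)) ?_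
    refine Partrec.map (f := fun p : (α × ℕ) × ℕ => a.eval (G p.1.1) (Nat.pair p.1.2 p.2))
      (g := fun _ k => decide (k = 0)) ?_ ?_
    · exact iha.comp (Computable.fst.comp Computable.fst) (Primrec₂.natPair.to_comp.comp
        (Computable.snd.comp Computable.fst) Computable.snd)
    · exact (Primrec.eq.decide.comp Primrec.snd (Primrec.const 0)).to_comp

theorem exists_ocode_nat {g f : ℕ →. ℕ} (h : Nat.RecursiveIn {g} f) : ∃ c : OCode, c.eval g = f := by
  induction h with
  | zero => exact ⟨.zero, rfl⟩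
  | succ => exact ⟨.succ, rfl⟩
  | left => exact ⟨.left, rfl⟩
  | right => exact ⟨.right, rfl⟩
  | oracle k hk => exact ⟨.oracle, by rw [Set.mem_singleton_iff.1 hk]; rfl⟩
  | pair _ _ ih1 ih2 =>
    obtain ⟨a, rfl⟩ := ih1
    obtain ⟨b, rfl⟩ := ih2
    exact ⟨.pair a b, rfl⟩
  | comp _ _ ih1 ih2 =>
    obtain ⟨a, rfl⟩ := ih1
    obtain ⟨b, rfl⟩ := ih2
    exact ⟨.comp a b, rfl⟩
  | prec _ _ ih1 ih2 =>
    obtain ⟨a, rfl⟩ := ih1
    obtain ⟨b, rfl⟩ := ih2
    exact ⟨.prec a b, rfl⟩
  | rfind _ ih =>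
    obtain ⟨a, rfl⟩ := ih
    exact ⟨.rfind a, rfl⟩

theorem recursiveIn_eval (g : ℕ →. ℕ) (c : OCode) : Nat.RecursiveIn {g} (c.eval g) := by
  induction c with
  | zero => exact .zero
  | succ => exact .succ
  | left => exact .left
  | right => exact .right
  | oracle => exact .oracle _ rfl
  | pair a b iha ihb => exact .pair iha ihb
  | comp a b iha ihb => exact .comp iha ihb
  | prec a b iha ihb => exact .prec iha ihb
  | rfind a iha => exact .rfind iha

/-- The functions computed by oracle programs with oracle `g` are exactly those which are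
recursive in `g` in the sense of Mathlib. -/
theorem turingReducible_iff {g f : ℕ →. ℕ} : TuringReducible f g ↔ ∃ c : OCode, c.eval g = f := by
  unfold TuringReducible
  rw [RecursiveIn.iff_nat]
  constructor
  · exact exists_ocode_nat
  · rintro ⟨c, rfl⟩
    exact recursiveIn_eval g c

end Pool.Agent.H75.Fix
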