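import Pool.Agent.H75.Sig

/-! Primitive recursive arithmetic of coded rational numbers. -/

namespace Pool.Agent.H75.Fix

/-- value of a triple `(a, b, d)`: the rational `(a - b) / (d + 1)` -/
def val (x : ℕ × ℕ × ℕ) : ℚ := ((x.1 : ℚ) - (x.2.1 : ℚ)) / ((x.2.2 : ℚ) + 1)

def add3 (x y : ℕ × ℕ × ℕ) : ℕ × ℕ × ℕ :=
  (x.1 * (y.2.2 + 1) + y.1 * (x.2.2 + 1), x.2.1 * (y.2.2 + 1) + y.2.1 * (x.2.2 + 1),
    x.2.2 * y.2.2 + x.2.2 + y.2.2)

def neg3 (x : ℕ × ℕ × ℕ) : ℕ × ℕ × ℕ := (x.2.1, x.1, x.2.2)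

def lt3 (x y : ℕ × ℕ × ℕ) : Prop :=
  x.1 * (y.2.2 + 1) + y.2.1 * (x.2.2 + 1) < y.1 * (x.2.2 + 1) + x.2.1 * (y.2.2 + 1)

def half3 (n : ℕ) : ℕ × ℕ × ℕ := (1, 0, 2 ^ n - 1)

def co3 (m i : ℕ) : ℕ × ℕ × ℕ := (i, 2 ^ m, 2 ^ m - 1)

def tri (n : ℕ) : ℕ × ℕ × ℕ := (n.unpair.1.unpair.1, n.unpair.1.unpair.2, n.unpair.2)

/-- coordinate `-1 + i / 2 ^ m` of the dyadic grid of level `m` -/
def co (m i : ℕ) : ℚ := -1 + (i : ℚ) / 2 ^ m

theorem val_add3 (x y : ℕ × ℕ × ℕ) : val (add3 x y) = val x + val y := by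
  have hx : ((x.2.2 : ℚ) + 1) ≠ 0 := by positivity
  have hy : ((y.2.2 : ℚ) + 1) ≠ 0 := by positivity
  have hz : ((x.2.2 : ℚ) * y.2.2 + x.2.2 + y.2.2 + 1) = (x.2.2 + 1) * (y.2.2 + 1) := by ring
  simp only [val, add3]
  push_cast
  rw [hz]
  field_simp
  ring

theorem val_neg3 (x : ℕ × ℕ × ℕ) : val (neg3 x) = - val x := by
  simp only [val, neg3]
  ring

theorem lt3_iff (x y : ℕ × ℕ × ℕ) : lt3 x y ↔ val x < val y := by
  have hx : (0 : ℚ) < ((x.2.2 : ℚ) + 1) := by positivity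
  have hy : (0 : ℚ) < ((y.2.2 : ℚ) + 1) := by positivity
  simp only [val, lt3]
  rw [div_lt_div_iff₀ hx hy, ← Nat.cast_lt (α := ℚ)]
  push_cast
  constructor <;> intro h <;> nlinarith

theorem val_half3 (n : ℕ) : val (half3 n) = (1 / 2) ^ n := by
  simp only [val, half3]
  have : ((2 ^ n - 1 : ℕ) : ℚ) + 1 = 2 ^ n := by
    rw [Nat.cast_sub Nat.one_le_two_pow]
    push_cast
    ring
  rw [this]
  simp

theorem val_co3 (m i : ℕ) : val (co3 m i) = co m i := by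
  simp only [val, co3, co]
  have : ((2 ^ m - 1 : ℕ) : ℚ) + 1 = 2 ^ m := by
    rw [Nat.cast_sub Nat.one_le_two_pow]
    push_cast
    ring
  rw [this]
  field_simp
  push_cast
  ring

theorem val_tri (n : ℕ) : val (tri n) = ratOf n := rfl

open Primrec

theorem primrec_pow : Primrec₂ ((· ^ ·) : ℕ → ℕ → ℕ) := Primrec₂.unpaired'.1 Nat.Primrec.pow

theorem primrec_add3 : Primrec₂ add3 := by
  have a1 : Primrec fun p : (ℕ × ℕ × ℕ) × (ℕ × ℕ × ℕ) => p.1.1 := fst.comp fst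
  have a2 : Primrec fun p : (ℕ × ℕ × ℕ) × (ℕ × ℕ × ℕ) => p.1.2.1 := fst.comp (snd.comp fst)
  have a3 : Primrec fun p : (ℕ × ℕ × ℕ) × (ℕ × ℕ × ℕ) => p.1.2.2 := snd.comp (snd.comp fst)
  have b1 : Primrec fun p : (ℕ × ℕ × ℕ) × (ℕ × ℕ × ℕ) => p.2.1 := fst.comp snd
  have b2 : Primrec fun p : (ℕ × ℕ × ℕ) × (ℕ × ℕ × ℕ) => p.2.2.1 := fst.comp (snd.comp snd)
  have b3 : Primrec fun p : (ℕ × ℕ × ℕ) × (ℕ × ℕ × ℕ) => p.2.2.2 := snd.comp (snd.comp snd)
  have a3' := succ.comp a3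
  have b3' := succ.comp b3
  refine Primrec.pair ?_ (Primrec.pair ?_ ?_)
  · exact nat_add.comp (nat_mul.comp a1 b3') (nat_mul.comp b1 a3')
  · exact nat_add.comp (nat_mul.comp a2 b3') (nat_mul.comp b2 a3')
  · exact nat_add.comp (nat_add.comp (nat_mul.comp a3 b3) a3) b3

theorem primrec_neg3 : Primrec neg3 :=
  Primrec.pair (fst.comp snd) (Primrec.pair fst (snd.comp snd))

theorem primrec_lt3 : PrimrecRel lt3 := by
  have a1 : Primrec fun p : (ℕ × ℕ × ℕ) × (ℕ × ℕ × ℕ) => p.1.1 := fst.comp fst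
  have a2 : Primrec fun p : (ℕ × ℕ × ℕ) × (ℕ × ℕ × ℕ) => p.1.2.1 := fst.comp (snd.comp fst)
  have a3 : Primrec fun p : (ℕ × ℕ × ℕ) × (ℕ × ℕ × ℕ) => p.1.2.2 := snd.comp (snd.comp fst)
  have b1 : Primrec fun p : (ℕ × ℕ × ℕ) × (ℕ × ℕ × ℕ) => p.2.1 := fst.comp snd
  have b2 : Primrec fun p : (ℕ × ℕ × ℕ) × (ℕ × ℕ × ℕ) => p.2.2.1 := fst.comp (snd.comp snd)
  have b3 : Primrec fun p : (ℕ × ℕ × ℕ) × (ℕ × ℕ × ℕ) => p.2.2.2 := snd.comp (snd.comp snd)
  have a3' := succ.comp a3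
  have b3' := succ.comp b3
  exact nat_lt.comp (nat_add.comp (nat_mul.comp a1 b3') (nat_mul.comp b2 a3'))
    (nat_add.comp (nat_mul.comp b1 a3') (nat_mul.comp a2 b3'))

theorem primrec_half3 : Primrec half3 :=
  Primrec.pair (Primrec.const 1) (Primrec.pair (Primrec.const 0)
    (nat_sub.comp (primrec_pow.comp (Primrec.const 2) Primrec.id) (Primrec.const 1)))

theorem primrec_co3 : Primrec₂ co3 :=
  Primrec.pair snd (Primrec.pair (primrec_pow.comp (Primrec.const 2) fst)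
    (nat_sub.comp (primrec_pow.comp (Primrec.const 2) fst) (Primrec.const 1)))

theorem primrec_tri : Primrec tri :=
  Primrec.pair (fst.comp (unpair.comp (fst.comp unpair)))
    (Primrec.pair (snd.comp (unpair.comp (fst.comp unpair))) (snd.comp unpair))

variable {α : Type*} [Primcodable α]

theorem prim_lt {f g : α → ℕ × ℕ × ℕ} (hf : Primrec f) (hg : Primrec g) :
    PrimrecPred fun a => val (f a) < val (g a) :=
  (primrec_lt3.comp hf hg).of_eq fun _ => lt3_iff _ _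

theorem prim_le {f g : α → ℕ × ℕ × ℕ} (hf : Primrec f) (hg : Primrec g) :
    PrimrecPred fun a => val (f a) ≤ val (g a) :=
  (prim_lt hg hf).not.of_eq fun _ => not_lt

/-- A function to the rationals is `PR` if it is given by a primitive recursive function to
triples. -/
def PR (f : α → ℚ) : Prop := ∃ g : α → ℕ × ℕ × ℕ, Primrec g ∧ ∀ a, val (g a) = f a

theorem PR.add {f g : α → ℚ} (hf : PR f) (hg : PR g) : PR fun a => f a + g a := by
  obtain ⟨f', hf', h⟩ := hf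
  obtain ⟨g', hg', h'⟩ := hg
  exact ⟨fun a => add3 (f' a) (g' a), primrec_add3.comp hf' hg', fun a => by
    rw [val_add3, h, h']⟩

theorem PR.neg {f : α → ℚ} (hf : PR f) : PR fun a => - f a := by
  obtain ⟨f', hf', h⟩ := hf
  exact ⟨fun a => neg3 (f' a), primrec_neg3.comp hf', fun a => by rw [val_neg3, h]⟩

theorem PR.sub {f g : α → ℚ} (hf : PR f) (hg : PR g) : PR fun a => f a - g a := by
  simpa only [sub_eq_add_neg] using hf.add hg.neg

theorem PR.co {f g : α → ℕ} (hf : Primrec f) (hg : Primrec g) : PR fun a => co (f a) (g a) :=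
  ⟨fun a => co3 (f a) (g a), primrec_co3.comp hf hg, fun _ => val_co3 _ _⟩

theorem PR.half {f : α → ℕ} (hf : Primrec f) : PR fun a => ((1 : ℚ) / 2) ^ (f a) :=
  ⟨fun a => half3 (f a), primrec_half3.comp hf, fun _ => val_half3 _⟩

theorem PR.ratOf {f : α → ℕ} (hf : Primrec f) : PR fun a => ratOf (f a) :=
  ⟨fun a => tri (f a), primrec_tri.comp hf, fun _ => val_tri _⟩

theorem PR.const (q : ℚ) : PR fun _ : α => q := by
  refine ⟨fun _ => (q.num.toNat, (-q.num).toNat, q.den - 1), Primrec.const _, fun _ => ?_⟩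
  simp only [val]
  have hd : ((q.den - 1 : ℕ) : ℚ) + 1 = q.den := by
    rw [Nat.cast_sub q.den_pos]
    push_cast
    ring
  have hn : ((q.num.toNat : ℕ) : ℚ) - (((-q.num).toNat : ℕ) : ℚ) = q.num := by
    have := Int.toNat_sub_toNat_neg q.num
    exact_mod_cast this
  rw [hd, hn]
  exact Rat.num_div_den q

theorem PR.lt {f g : α → ℚ} (hf : PR f) (hg : PR g) : PrimrecPred fun a => f a < g a := by
  obtain ⟨f', hf', h⟩ := hf
  obtain ⟨g', hg', h'⟩ := hg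
  exact (prim_lt hf' hg').of_eq fun a => by rw [h, h']

theorem PR.le {f g : α → ℚ} (hf : PR f) (hg : PR g) : PrimrecPred fun a => f a ≤ g a :=
  (hg.lt hf).not.of_eq fun _ => not_lt

/-- every rational number has a code -/
theorem exists_ratOf (q : ℚ) : ∃ n, ratOf n = q := by
  obtain ⟨g, _, h⟩ := PR.const (α := ℕ) q
  refine ⟨Nat.pair (Nat.pair (g 0).1 (g 0).2.1) (g 0).2.2, ?_⟩
  have h0 : val (g 0) = q := h 0
  rw [← h0]
  simp [Fix.ratOf, val]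

end Pool.Agent.H75.Fix
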