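import Pool.Agent.H75.Tree
import Pool.Agent.H75.RatPrim
import Pool.Agent.H75.Oracle

/-! Intervals attached to binary strings, the information given by a string about the cut of a
real in its interval, and the requirements of the construction. -/

namespace Pool.Agent.H75.Fix

open Primrec Encodable

theorem prel_exists_lt {β : Type*} [Primcodable β] {R : ℕ → β → Prop} (hf : PrimrecRel R) :
    PrimrecRel fun (n : ℕ) (y : β) => ∃ x < n, R x y := by
  refine PrimrecPred.of_eq (hf.exists_mem_list.comp (list_range.comp fst) snd) fun x => ?_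
  simp

theorem prel_forall_lt {β : Type*} [Primcodable β] {R : ℕ → β → Prop} (hf : PrimrecRel R) :
    PrimrecRel fun (n : ℕ) (y : β) => ∀ x < n, R x y := by
  refine PrimrecPred.of_eq (hf.forall_mem_list.comp (list_range.comp fst) snd) fun x => ?_
  simp

/-- numerator of the left end -/
def num (s : List Bool) : ℕ := s.foldl (fun n b => 3 * n + cond b 2 0) 0

theorem num_append (s : List Bool) (b : Bool) : num (s ++ [b]) = 3 * num s + cond b 2 0 := by
  simp [num]

/-- left end of the interval of `s` -/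
def lo (s : List Bool) : ℚ := (num s : ℚ) / 3 ^ s.length

/-- right end of the interval of `s` -/
def hi (s : List Bool) : ℚ := ((num s : ℚ) + 1) / 3 ^ s.length

theorem hi_eq (s : List Bool) : hi s = lo s + 1 / 3 ^ s.length := by
  unfold hi lo
  ring

theorem lo_lt_hi (s : List Bool) : lo s < hi s := by
  rw [hi_eq]
  have : (0 : ℚ) < 1 / 3 ^ s.length := by positivity
  linarith

theorem lo_append (s : List Bool) (b : Bool) :
    lo (s ++ [b]) = lo s + (cond b 2 0 : ℕ) / 3 ^ (s.length + 1) := by
  unfold lo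
  rw [num_append, List.length_append, List.length_singleton]
  push_cast
  field_simp
  ring

theorem lo_le_append (s : List Bool) (b : Bool) : lo s ≤ lo (s ++ [b]) := by
  rw [lo_append]
  have : (0 : ℚ) ≤ (cond b 2 0 : ℕ) / 3 ^ (s.length + 1) := by positivity
  linarith

theorem hi_append_le (s : List Bool) (b : Bool) : hi (s ++ [b]) ≤ hi s := by
  rw [hi_eq, hi_eq, lo_append, List.length_append, List.length_singleton]
  have h : (0 : ℚ) < 3 ^ s.length := by positivity
  have : (1 : ℚ) / 3 ^ s.length = 3 / 3 ^ (s.length + 1) := by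
    rw [pow_succ]
    field_simp
  rw [this]
  have h2 : ((cond b 2 0 : ℕ) : ℚ) / 3 ^ (s.length + 1) ≤ 2 / 3 ^ (s.length + 1) := by
    gcongr
    cases b <;> norm_num
  have h3 : (2 : ℚ) / 3 ^ (s.length + 1) + 1 / 3 ^ (s.length + 1) = 3 / 3 ^ (s.length + 1) := by
    ring
  linarith

theorem lo_le {s s' : List Bool} (h : s <+: s') : lo s ≤ lo s' := by
  obtain ⟨u, rfl⟩ := h
  induction u using List.reverseRecOn with
  | nil => simp
  | append_singleton u i ih =>
    rw [← List.append_assoc]
    exact ih.trans (lo_le_append _ _)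

theorem hi_le {s s' : List Bool} (h : s <+: s') : hi s' ≤ hi s := by
  obtain ⟨u, rfl⟩ := h
  induction u using List.reverseRecOn with
  | nil => simp
  | append_singleton u i ih =>
    rw [← List.append_assoc]
    exact (hi_append_le _ _).trans ih

theorem hi_lt_lo (s : List Bool) : hi (s ++ [false]) < lo (s ++ [true]) := by
  rw [hi_eq, lo_append, lo_append, List.length_append, List.length_singleton]
  have h : (0 : ℚ) < 1 / 3 ^ (s.length + 1) := by positivity
  have h2 : ((cond true 2 0 : ℕ) : ℚ) / 3 ^ (s.length + 1) = 1 / 3 ^ (s.length + 1) +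
      1 / 3 ^ (s.length + 1) := by
    simp only [cond_true]
    push_cast
    ring
  have h3 : ((cond false 2 0 : ℕ) : ℚ) / 3 ^ (s.length + 1) = 0 := by simp
  rw [h2, h3]
  linarith

/-- the interval of `s` -/
def II (s : List Bool) : Set ℝ := Set.Icc (lo s : ℝ) (hi s : ℝ)

theorem II_anti {s s' : List Bool} (h : s <+: s') : II s' ⊆ II s := by
  intro x hx
  have h1 : (lo s : ℝ) ≤ lo s' := by exact_mod_cast lo_le h
  have h2 : (hi s' : ℝ) ≤ hi s := by exact_mod_cast hi_le h
  exact ⟨h1.trans hx.1, hx.2.trans h2⟩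

theorem lo_nil : lo [] = 0 := by simp [lo, num]

theorem hi_nil : hi [] = 1 := by simp [hi, num]

theorem II_subset (s : List Bool) : II s ⊆ Set.Icc 0 1 := by
  have := II_anti (List.nil_prefix (l := s))
  unfold II at this ⊢
  rw [lo_nil, hi_nil] at this
  simpa using this

theorem II_nonempty (s : List Bool) : (II s).Nonempty :=
  ⟨lo s, le_rfl, by exact_mod_cast (lo_lt_hi s).le⟩

theorem II_disj {s s' : List Bool} {r : List Bool} {i : Bool} (h : r ++ [i] <+: s)
    (h' : r ++ [!i] <+: s') {x : ℝ} (hx : x ∈ II s) (hx' : x ∈ II s') : False := by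
  have h1 := II_anti h hx
  have h2 := II_anti h' hx'
  have h3 : (hi (r ++ [false]) : ℝ) < lo (r ++ [true]) := by exact_mod_cast hi_lt_lo r
  cases i
  · exact absurd (h2.1.trans h1.2) (not_le.2 h3)
  · exact absurd (h1.1.trans h2.2) (not_le.2 h3)

theorem IsTree.eq_of_mem {T : List Bool → List Bool} (hT : IsTree T) {s s' : List Bool}
    (hl : s.length = s'.length) {x : ℝ} (hx : x ∈ II (T s)) (hx' : x ∈ II (T s')) : s = s' := by
  by_contra hne
  obtain ⟨r, i, h1, h2⟩ := hT.split hl hne
  exact II_disj h1 h2 hx hx'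

/-- the information given by the string `s` about the cut of `(x, 0)` for `x` in its interval -/
def infoO (s : List Bool) (n : ℕ) : Option ℕ :=
  if n.unpair.1 = 0 then
    if ratOf n.unpair.2 < lo s then some 1 else if hi s ≤ ratOf n.unpair.2 then some 0 else none
  else some (if ratOf n.unpair.2 < 0 then 1 else 0)

theorem infoO_mono {s s' : List Bool} (h : s <+: s') {n m : ℕ} (hm : infoO s n = some m) :
    infoO s' n = some m := by
  unfold infoO at hm ⊢
  have h1 := lo_le h
  have h2 := hi_le h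
  have h3 := lo_lt_hi s'
  by_cases h0 : n.unpair.1 = 0
  · rw [if_pos h0] at hm ⊢
    by_cases h4 : ratOf n.unpair.2 < lo s
    · rw [if_pos h4] at hm
      rw [if_pos (h4.trans_le h1)]
      exact hm
    · rw [if_neg h4] at hm
      by_cases h5 : hi s ≤ ratOf n.unpair.2
      · rw [if_pos h5] at hm
        rw [if_neg (not_lt.2 (h3.le.trans (h2.trans h5))), if_pos (h2.trans h5)]
        exact hm
      · rw [if_neg h5] at hm
        exact absurd hm (by simp)
  · rw [if_neg h0] at hm ⊢
    exact hm

theorem infoO_sound {s : List Bool} {x : ℝ} (hx : x ∈ II s) {n m : ℕ} (hm : infoO s n = some m) :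
    m = cutFn (x, 0) n := by
  classical
  unfold infoO at hm
  unfold cutFn
  have h3 := lo_lt_hi s
  by_cases h0 : n.unpair.1 = 0
  · rw [if_pos h0] at hm
    rw [if_pos h0]
    by_cases h4 : ratOf n.unpair.2 < lo s
    · rw [if_pos h4] at hm
      have : (ratOf n.unpair.2 : ℝ) < x := lt_of_lt_of_le (by exact_mod_cast h4) hx.1
      simp only [this, if_true]
      simpa using hm.symm
    · rw [if_neg h4] at hm
      by_cases h5 : hi s ≤ ratOf n.unpair.2
      · rw [if_pos h5] at hm
        have : ¬ (ratOf n.unpair.2 : ℝ) < x := not_lt.2 (hx.2.trans (by exact_mod_cast h5))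
        simp only [this, if_false]
        simpa using hm.symm
      · rw [if_neg h5] at hm
        exact absurd hm (by simp)
  · rw [if_neg h0] at hm
    rw [if_neg h0]
    have h6 : ((ratOf n.unpair.2 : ℝ) < 0) ↔ ratOf n.unpair.2 < 0 := by
      exact_mod_cast Iff.rfl
    simp only [h6]
    simpa using hm.symm

/-- the partial oracle given by a string -/
def info (s : List Bool) : ℕ →. ℕ := fun n => (infoO s n : Part ℕ)

theorem mem_info {s : List Bool} {n m : ℕ} : m ∈ info s n ↔ infoO s n = some m := by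
  simp [info]

theorem info_mono {s s' : List Bool} (h : s <+: s') (n m : ℕ) (hm : m ∈ info s n) :
    m ∈ info s' n := by
  rw [mem_info] at hm ⊢
  exact infoO_mono h hm

theorem info_sound {s : List Bool} {x : ℝ} (hx : x ∈ II s) (n m : ℕ) (hm : m ∈ info s n) :
    m ∈ Part.some (cutFn (x, 0) n) := by
  rw [mem_info] at hm
  rw [Part.mem_some_iff]
  exact infoO_sound hx hm

/-- longer and longer strings exhaust the cut of an irrational point -/
theorem info_exhaust {x : ℝ} (hirr : ∀ q : ℚ, (q : ℝ) ≠ x) {S : ℕ → List Bool}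
    (hS : ∀ k, k ≤ (S k).length) (hx : ∀ k, x ∈ II (S k)) (n : ℕ) :
    ∃ k, cutFn (x, 0) n ∈ info (S k) n := by
  suffices h : ∃ k, infoO (S k) n ≠ none by
    obtain ⟨k, hk⟩ := h
    obtain ⟨m, hm⟩ := Option.ne_none_iff_exists'.1 hk
    refine ⟨k, ?_⟩
    rw [mem_info, hm, infoO_sound (hx k) hm]
  unfold infoO
  by_cases h0 : n.unpair.1 = 0
  · simp only [h0, if_true]
    have hd : 0 < |(ratOf n.unpair.2 : ℝ) - x| := abs_pos.2 (sub_ne_zero.2 (hirr _))
    obtain ⟨k, hk⟩ := exists_pow_lt_of_lt_one hd (show (1 / 3 : ℝ) < 1 by norm_num)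
    refine ⟨k, ?_⟩
    have h1 := (hx k).1
    have h2 := (hx k).2
    have h3 : (hi (S k) : ℝ) = lo (S k) + 1 / 3 ^ (S k).length := by
      rw [hi_eq]
      push_cast
      ring
    have h4 : (1 : ℝ) / 3 ^ (S k).length ≤ (1 / 3) ^ k := by
      rw [← one_div_pow]
      exact pow_le_pow_of_le_one (by norm_num) (by norm_num) (hS k)
    rcases lt_or_gt_of_ne (hirr (ratOf n.unpair.2)) with h5 | h5
    · rw [abs_of_neg (by linarith)] at hk
      have h6 : ratOf n.unpair.2 < lo (S k) := by
        have : (ratOf n.unpair.2 : ℝ) < lo (S k) := by linarith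
        exact_mod_cast this
      simp [h6]
    · rw [abs_of_pos (by linarith)] at hk
      have h6 : hi (S k) ≤ ratOf n.unpair.2 := by
        have : (hi (S k) : ℝ) ≤ ratOf n.unpair.2 := by linarith
        exact_mod_cast this
      by_cases h7 : ratOf n.unpair.2 < lo (S k)
      · simp [h7]
      · simp [h7, h6]
  · simp only [h0, if_false]
    exact ⟨0, by simp⟩

theorem primrec_num : Primrec num := by
  refine Primrec.list_foldl (f := fun s : List Bool => s) (g := fun _ => 0)
    (h := fun _ y => 3 * y.1 + cond y.2 2 0) Primrec.id (Primrec.const 0) ?_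
  exact nat_add.comp (nat_mul.comp (Primrec.const 3) (fst.comp snd))
    (Primrec.cond (snd.comp snd) (Primrec.const 2) (Primrec.const 0))

theorem PR.lo {α : Type*} [Primcodable α] {f : α → List Bool} (hf : Primrec f) :
    PR fun a => lo (f a) := by
  refine ⟨fun a => (num (f a), 0, 3 ^ (f a).length - 1), ?_, fun a => ?_⟩
  · exact (primrec_num.comp hf).pair ((Primrec.const 0).pair (nat_sub.comp
      (primrec_pow.comp (Primrec.const 3) (list_length.comp hf)) (Primrec.const 1)))
  · unfold val Fix.lo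
    have : 1 ≤ 3 ^ (f a).length := Nat.one_le_pow _ _ (by norm_num)
    push_cast [Nat.cast_sub this]
    simp

theorem PR.hi {α : Type*} [Primcodable α] {f : α → List Bool} (hf : Primrec f) :
    PR fun a => hi (f a) := by
  refine ⟨fun a => (num (f a) + 1, 0, 3 ^ (f a).length - 1), ?_, fun a => ?_⟩
  · exact (Primrec.succ.comp (primrec_num.comp hf)).pair ((Primrec.const 0).pair (nat_sub.comp
      (primrec_pow.comp (Primrec.const 3) (list_length.comp hf)) (Primrec.const 1)))
  · unfold val Fix.hi
    have : 1 ≤ 3 ^ (f a).length := Nat.one_le_pow _ _ (by norm_num)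
    push_cast [Nat.cast_sub this]
    simp

theorem primrec_infoO : Primrec₂ infoO := by
  have hs : Primrec fun x : List Bool × ℕ => x.1 := fst
  have hn : Primrec fun x : List Bool × ℕ => x.2.unpair.2 := snd.comp (unpair.comp snd)
  have h0 : PrimrecPred fun x : List Bool × ℕ => x.2.unpair.1 = 0 :=
    Primrec.eq.comp (fst.comp (unpair.comp snd)) (Primrec.const 0)
  refine Primrec.ite h0 (Primrec.ite ((PR.ratOf hn).lt (PR.lo hs)) (Primrec.const _)
    (Primrec.ite ((PR.hi hs).le (PR.ratOf hn)) (Primrec.const _) (Primrec.const _))) ?_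
  exact Primrec.option_some.comp (Primrec.ite ((PR.ratOf hn).lt (PR.const 0)) (Primrec.const 1)
    (Primrec.const 0))

theorem partrec_info : Partrec₂ info :=
  (Computable.ofOption primrec_infoO.to_comp)

/-- the program `c` disagrees with the information given by the string `s` -/
def AN (c : Nat.Partrec.Code) (s : List Bool) (t : ℕ) : Prop :=
  ∃ n < t, c.evaln t n ≠ none ∧ infoO s n ≠ none ∧ c.evaln t n ≠ infoO s n

/-- code of the query `j / 4 ^ l` -/
def qc (l j : ℕ) : ℕ := Nat.pair (Nat.pair j 0) (4 ^ l - 1)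

theorem ratOf_qc (l j : ℕ) : ratOf (qc l j) = (j : ℚ) / 4 ^ l := by
  unfold ratOf qc
  have : 1 ≤ 4 ^ l := Nat.one_le_pow _ _ (by norm_num)
  simp only [Nat.unpair_pair]
  push_cast [Nat.cast_sub this]
  simp

/-- all the queries `j / 4 ^ l` have been answered, using only initial segments of `s` -/
def AR (l : ℕ) (c : Nat.Partrec.Code) (s : List Bool) (t : ℕ) : Prop :=
  ∀ j < 4 ^ l + 1, ∃ k < s.length + 1, c.evaln t (encode (s.take k, qc l j)) ≠ none

open Classical in
/-- the requirements -/
noncomputable def AA (l e : ℕ) (s : List Bool) (t : ℕ) : Prop :=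
  if e.unpair.1 = 0 then AN (Denumerable.ofNat Nat.Partrec.Code e.unpair.2) s t
  else AR l (Denumerable.ofNat Nat.Partrec.Code e.unpair.2) s t

theorem evaln_ne_none_mono {t t' : ℕ} (h : t ≤ t') {c : Nat.Partrec.Code} {n : ℕ}
    (hn : c.evaln t n ≠ none) : c.evaln t' n = c.evaln t n ∧ c.evaln t' n ≠ none := by
  obtain ⟨m, hm⟩ := Option.ne_none_iff_exists'.1 hn
  have := Nat.Partrec.Code.evaln_mono h (show m ∈ c.evaln t n from hm)
  rw [hm, Option.mem_def.1 this]
  simp

theorem req_AA : Req AA := by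
  classical
  refine ⟨?_, ?_, ?_⟩
  · have he : PrimrecPred fun x : (ℕ × ℕ) × (List Bool × ℕ) => x.1.2.unpair.1 = 0 :=
      Primrec.eq.comp (fst.comp (unpair.comp (snd.comp fst))) (Primrec.const 0)
    have hcode : Primrec fun x : (ℕ × ℕ) × (List Bool × ℕ) =>
        Denumerable.ofNat Nat.Partrec.Code x.1.2.unpair.2 :=
      (Primrec.ofNat Nat.Partrec.Code).comp (snd.comp (unpair.comp (snd.comp fst)))
    have hAN : PrimrecPred fun x : (ℕ × ℕ) × (List Bool × ℕ) =>
        AN (Denumerable.ofNat Nat.Partrec.Code x.1.2.unpair.2) x.2.1 x.2.2 := by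
      have h1 : PrimrecRel fun (n : ℕ) (x : (ℕ × ℕ) × (List Bool × ℕ)) =>
          (Denumerable.ofNat Nat.Partrec.Code x.1.2.unpair.2).evaln x.2.2 n ≠ none ∧
          infoO x.2.1 n ≠ none ∧
          (Denumerable.ofNat Nat.Partrec.Code x.1.2.unpair.2).evaln x.2.2 n ≠
            infoO x.2.1 n := by
        have hev : Primrec fun y : ℕ × ((ℕ × ℕ) × (List Bool × ℕ)) =>
            (Denumerable.ofNat Nat.Partrec.Code y.2.1.2.unpair.2).evaln y.2.2.2 y.1 :=
          Nat.Partrec.Code.primrec_evaln.comp
            (((snd.comp (snd.comp snd)).pair (hcode.comp snd)).pair fst)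
        have hin : Primrec fun y : ℕ × ((ℕ × ℕ) × (List Bool × ℕ)) => infoO y.2.2.1 y.1 :=
          primrec_infoO.comp (fst.comp (snd.comp snd)) fst
        exact (Primrec.eq.comp hev (Primrec.const none)).not.and
          ((Primrec.eq.comp hin (Primrec.const none)).not.and (Primrec.eq.comp hev hin).not)
      exact PrimrecRel.comp (f := fun x : (ℕ × ℕ) × (List Bool × ℕ) => x.2.2)
        (g := fun x : (ℕ × ℕ) × (List Bool × ℕ) => x) (prel_exists_lt h1) (snd.comp snd) Primrec.id
    have hAR : PrimrecPred fun x : (ℕ × ℕ) × (List Bool × ℕ) =>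
        AR x.1.1 (Denumerable.ofNat Nat.Partrec.Code x.1.2.unpair.2) x.2.1 x.2.2 := by
      have h1 : PrimrecRel fun (k : ℕ) (y : ℕ × ((ℕ × ℕ) × (List Bool × ℕ))) =>
          (Denumerable.ofNat Nat.Partrec.Code y.2.1.2.unpair.2).evaln y.2.2.2
            (encode (y.2.2.1.take k, qc y.2.1.1 y.1)) ≠ none := by
        have hqc : Primrec₂ qc :=
          Primrec₂.natPair.comp (Primrec₂.natPair.comp snd (Primrec.const 0))
            (nat_sub.comp (primrec_pow.comp (Primrec.const 4) fst) (Primrec.const 1))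
        have hs : Primrec fun z : ℕ × (ℕ × ((ℕ × ℕ) × (List Bool × ℕ))) => z.2.2.2.1 :=
          fst.comp (snd.comp (snd.comp snd))
        have ht : Primrec fun z : ℕ × (ℕ × ((ℕ × ℕ) × (List Bool × ℕ))) => z.2.2.2.2 :=
          snd.comp (snd.comp (snd.comp snd))
        have hl : Primrec fun z : ℕ × (ℕ × ((ℕ × ℕ) × (List Bool × ℕ))) => z.2.2.1.1 :=
          fst.comp (fst.comp (snd.comp snd))
        have harg : Primrec fun z : ℕ × (ℕ × ((ℕ × ℕ) × (List Bool × ℕ))) =>
            encode (z.2.2.2.1.take z.1, qc z.2.2.1.1 z.2.1) :=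
          Primrec.encode.comp ((list_take.comp fst hs).pair (hqc.comp hl (fst.comp snd)))
        exact (Primrec.eq.comp (Nat.Partrec.Code.primrec_evaln.comp
          ((ht.pair (hcode.comp (snd.comp snd))).pair harg)) (Primrec.const none)).not
      have h2 : PrimrecRel fun (j : ℕ) (x : (ℕ × ℕ) × (List Bool × ℕ)) =>
          ∃ k < x.2.1.length + 1, (Denumerable.ofNat Nat.Partrec.Code x.1.2.unpair.2).evaln x.2.2
            (encode (x.2.1.take k, qc x.1.1 j)) ≠ none := by
        exact PrimrecRel.comp (f := fun y : ℕ × ((ℕ × ℕ) × (List Bool × ℕ)) =>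
          y.2.2.1.length + 1) (g := fun y : ℕ × ((ℕ × ℕ) × (List Bool × ℕ)) => y) (prel_exists_lt h1)
          (Primrec.succ.comp (list_length.comp (fst.comp (snd.comp snd)))) Primrec.id
      exact PrimrecRel.comp (f := fun x : (ℕ × ℕ) × (List Bool × ℕ) => 4 ^ x.1.1 + 1)
        (g := fun x : (ℕ × ℕ) × (List Bool × ℕ) => x) (prel_forall_lt h2)
        (Primrec.succ.comp (primrec_pow.comp (Primrec.const 4) (fst.comp fst))) Primrec.id
    have h : PrimrecPred fun x : (ℕ × ℕ) × (List Bool × ℕ) =>
        (x.1.2.unpair.1 = 0 ∧ AN (Denumerable.ofNat Nat.Partrec.Code x.1.2.unpair.2) x.2.1 x.2.2) ∨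
        (¬ x.1.2.unpair.1 = 0 ∧
          AR x.1.1 (Denumerable.ofNat Nat.Partrec.Code x.1.2.unpair.2) x.2.1 x.2.2) :=
      (he.and hAN).or (he.not.and hAR)
    refine h.of_eq fun x => ?_
    unfold AA
    by_cases h0 : x.1.2.unpair.1 = 0 <;> simp [h0]
  · intro l e s t t' htt'
    unfold AA
    by_cases h0 : e.unpair.1 = 0
    · rw [if_pos h0, if_pos h0]
      rintro ⟨n, hn, h1, h2, h3⟩
      have := evaln_ne_none_mono htt' h1
      exact ⟨n, hn.trans_le htt', this.2, h2, this.1 ▸ h3⟩
    · rw [if_neg h0, if_neg h0]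
      intro h j hj
      obtain ⟨k, hk, h1⟩ := h j hj
      exact ⟨k, hk, (evaln_ne_none_mono htt' h1).2⟩
  · intro l e s s' t hss'
    unfold AA
    by_cases h0 : e.unpair.1 = 0
    · rw [if_pos h0, if_pos h0]
      rintro ⟨n, hn, h1, h2, h3⟩
      obtain ⟨m, hm⟩ := Option.ne_none_iff_exists'.1 h2
      have := infoO_mono hss' hm
      refine ⟨n, hn, h1, ?_, ?_⟩
      · rw [this]; simp
      · rw [this, ← hm]; exact h3
    · rw [if_neg h0, if_neg h0]
      intro h j hj
      obtain ⟨k, hk, h1⟩ := h j hj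
      obtain ⟨u, rfl⟩ := hss'
      refine ⟨k, ?_, ?_⟩
      · rw [List.length_append]; omega
      · rw [List.take_append_of_le_length (by omega)]
        exact h1

end Pool.Agent.H75.Fix
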