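import Pool.Agent.H75.EncCont

/-! The certified regions of odd index form a recursively enumerable set. -/

namespace Pool.Agent.H75.Fix

open Primrec

section enc

variable (c : OCode)

theorem condLo_prim {α : Type*} [Primcodable α] {r h y : α → ℚ} (hr : PR r) (hh : PR h)
    (hy : PR y) : PrimrecPred fun a => condLo (r a) (h a) (y a) := by
  unfold condLo
  exact ((hr.sub hh).le (PR.const 0)).or (((hr.sub hh).le (PR.const 1)).and ((hr.sub hh).le hy))

theorem condHi_prim {α : Type*} [Primcodable α] {r h y : α → ℚ} (hr : PR r) (hh : PR h)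
    (hy : PR y) : PrimrecPred fun a => condHi (r a) (h a) (y a) := by
  unfold condHi
  exact ((PR.const 0).le (hr.add hh)).and (((PR.const 1).le (hr.add hh)).or (hy.le (hr.add hh)))

theorem condB_prim {α : Type*} [Primcodable α] {b : α → Bx} {s j : α → ℕ} (hb : Primrec b)
    (hs : Primrec s) (hj : Primrec j) : PrimrecPred fun a => condB (b a) (s a) (j a) := by
  have h0 : Primrec fun a => (b a).1 := fst.comp hb
  have h1 : Primrec fun a => (b a).2.1 := fst.comp (snd.comp hb)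
  have h2 : Primrec fun a => (b a).2.2.1 := fst.comp (snd.comp (snd.comp hb))
  have h3 : Primrec fun a => (b a).2.2.2.1 := fst.comp (snd.comp (snd.comp (snd.comp hb)))
  have h4 : Primrec fun a => (b a).2.2.2.2 := snd.comp (snd.comp (snd.comp (snd.comp hb)))
  have hs1 : Primrec fun a => (s a).unpair.1 := fst.comp (unpair.comp hs)
  have hs2 : Primrec fun a => (s a).unpair.2 := snd.comp (unpair.comp hs)
  have hh : PR fun a => ((1 : ℚ) / 2) ^ (j a + 1) := PR.half (succ.comp hj)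
  unfold condB
  exact (condLo_prim (PR.ratOf hs1) hh (PR.co h0 h1)).and
    ((condHi_prim (PR.ratOf hs1) hh (PR.co h0 h2)).and
    ((condLo_prim (PR.ratOf hs2) hh (PR.co h0 h3)).and
    (condHi_prim (PR.ratOf hs2) hh (PR.co h0 h4))))

theorem enc_sig : Sig fun x : Bx × ℕ × ℕ => Enc c x.1 x.2.1 x.2.2 := by
  unfold Enc
  refine Sig.ex (p := fun (x : Bx × ℕ × ℕ) (σ : List ℕ) =>
    (∀ j ∈ List.range σ.length, condB x.1 (σ.getD j 0) j) ∧ x.2.1 ∈ c.eval (preO σ) x.2.2) ?_
  refine Sig.and ?_ ?_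
  · refine Sig.of_prim ?_
    have h1 : PrimrecRel fun (j : ℕ) (y : (Bx × ℕ × ℕ) × List ℕ) =>
        condB y.1.1 (y.2.getD j 0) j :=
      condB_prim (fst.comp (fst.comp snd)) ((Primrec.list_getD 0).comp (snd.comp snd) fst) fst
    exact h1.forall_mem_list.comp (list_range.comp (list_length.comp snd)) Primrec.id
  · have h2 : Sig fun x : (List ℕ × ℕ) × ℕ => x.2 ∈ c.eval (preO x.1.1) x.1.2 :=
      Sig.of_partrec (f := fun x : List ℕ × ℕ => c.eval (preO x.1) x.2)
        (OCode.eval_partrec preO_partrec c)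
    exact h2.comp (f := fun y : (Bx × ℕ × ℕ) × List ℕ => ((y.2, y.1.2.2), y.1.2.1))
      (Primrec.pair (Primrec.pair snd (snd.comp (snd.comp fst))) (fst.comp (snd.comp fst)))

theorem nn_sig (k : ℕ) (hk : k < 3) : Sig fun b : Bx => NN c k b := by
  unfold NN
  refine Sig.ex (p := fun (b : Bx) (w : ℕ) => ∃ n, Enc c b w n ∧ ncond k b w n) ?_
  refine Sig.ex (p := fun (x : Bx × ℕ) (n : ℕ) => Enc c x.1 x.2 n ∧ ncond k x.1 x.2 n) ?_
  refine Sig.and ((enc_sig c).comp (f := fun y : (Bx × ℕ) × ℕ => (y.1.1, y.1.2, y.2))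
    (Primrec.pair (fst.comp fst) (Primrec.pair (snd.comp fst) snd))) (Sig.of_prim ?_)
  have hb : Primrec fun y : (Bx × ℕ) × ℕ => y.1.1 := fst.comp fst
  have h0 : Primrec fun y : (Bx × ℕ) × ℕ => y.1.1.1 := fst.comp hb
  have h1 : Primrec fun y : (Bx × ℕ) × ℕ => y.1.1.2.1 := fst.comp (snd.comp hb)
  have h2 : Primrec fun y : (Bx × ℕ) × ℕ => y.1.1.2.2.1 := fst.comp (snd.comp (snd.comp hb))
  have h3 : Primrec fun y : (Bx × ℕ) × ℕ => y.1.1.2.2.2.1 :=
    fst.comp (snd.comp (snd.comp (snd.comp hb)))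
  have h4 : Primrec fun y : (Bx × ℕ) × ℕ => y.1.1.2.2.2.2 :=
    snd.comp (snd.comp (snd.comp (snd.comp hb)))
  have hw1 : Primrec fun y : (Bx × ℕ) × ℕ => y.1.2.unpair.1 :=
    fst.comp (unpair.comp (snd.comp fst))
  have hw2 : Primrec fun y : (Bx × ℕ) × ℕ => y.1.2.unpair.2 :=
    snd.comp (unpair.comp (snd.comp fst))
  have hh : PR fun y : (Bx × ℕ) × ℕ => ((1 : ℚ) / 2) ^ y.2 := PR.half snd
  interval_cases k
  · exact ((PR.ratOf hw1).add hh).lt (PR.co h0 h1)
  · exact ((PR.ratOf hw2).add hh).lt (PR.co h0 h3)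
  · exact ((PR.co h0 h2).add (PR.co h0 h4)).lt
      (((PR.ratOf hw1).add (PR.ratOf hw2)).sub (hh.add hh))

theorem pp_sig (k : ℕ) (hk : k < 3) : Sig fun b : Bx => PP c k b := by
  unfold PP
  refine Sig.ex (p := fun (b : Bx) (w : ℕ) => ∃ n, Enc c b w n ∧ pcond k b w n) ?_
  refine Sig.ex (p := fun (x : Bx × ℕ) (n : ℕ) => Enc c x.1 x.2 n ∧ pcond k x.1 x.2 n) ?_
  refine Sig.and ((enc_sig c).comp (f := fun y : (Bx × ℕ) × ℕ => (y.1.1, y.1.2, y.2))
    (Primrec.pair (fst.comp fst) (Primrec.pair (snd.comp fst) snd))) (Sig.of_prim ?_)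
  have hb : Primrec fun y : (Bx × ℕ) × ℕ => y.1.1 := fst.comp fst
  have h0 : Primrec fun y : (Bx × ℕ) × ℕ => y.1.1.1 := fst.comp hb
  have h1 : Primrec fun y : (Bx × ℕ) × ℕ => y.1.1.2.1 := fst.comp (snd.comp hb)
  have h2 : Primrec fun y : (Bx × ℕ) × ℕ => y.1.1.2.2.1 := fst.comp (snd.comp (snd.comp hb))
  have h3 : Primrec fun y : (Bx × ℕ) × ℕ => y.1.1.2.2.2.1 :=
    fst.comp (snd.comp (snd.comp (snd.comp hb)))
  have h4 : Primrec fun y : (Bx × ℕ) × ℕ => y.1.1.2.2.2.2 :=
    snd.comp (snd.comp (snd.comp (snd.comp hb)))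
  have hw1 : Primrec fun y : (Bx × ℕ) × ℕ => y.1.2.unpair.1 :=
    fst.comp (unpair.comp (snd.comp fst))
  have hw2 : Primrec fun y : (Bx × ℕ) × ℕ => y.1.2.unpair.2 :=
    snd.comp (unpair.comp (snd.comp fst))
  have hh : PR fun y : (Bx × ℕ) × ℕ => ((1 : ℚ) / 2) ^ y.2 := PR.half snd
  interval_cases k
  · exact (PR.co h0 h2).lt ((PR.ratOf hw1).sub hh)
  · exact (PR.co h0 h4).lt ((PR.ratOf hw2).sub hh)
  · exact (((PR.ratOf hw1).add (PR.ratOf hw2)).add (hh.add hh)).lt
      ((PR.co h0 h1).add (PR.co h0 h3))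

end enc

/-- states of the search: level, cells, vertices coloured `0`, vertices coloured `1`, centre -/
abbrev St := ℕ × List (ℕ × ℕ) × List (ℕ × ℕ) × List (ℕ × ℕ) × (ℕ × ℕ)

def St.m (a : St) : ℕ := a.1
def St.S (a : St) : List (ℕ × ℕ) := a.2.1
def St.C0 (a : St) : List (ℕ × ℕ) := a.2.2.1
def St.C1 (a : St) : List (ℕ × ℕ) := a.2.2.2.1
def St.ctr (a : St) : ℕ × ℕ := a.2.2.2.2

theorem St.prim_m : Primrec St.m := fst
theorem St.prim_S : Primrec St.S := fst.comp snd
theorem St.prim_C0 : Primrec St.C0 := fst.comp (snd.comp snd)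
theorem St.prim_C1 : Primrec St.C1 := fst.comp (snd.comp (snd.comp snd))
theorem St.prim_ctr : Primrec St.ctr := snd.comp (snd.comp (snd.comp snd))

/-- colour of a vertex -/
def colL (a : St) (p : ℕ × ℕ) : ℕ := if p ∈ a.C0 then 0 else if p ∈ a.C1 then 1 else 2

theorem mem_prim : PrimrecRel fun (L : List (ℕ × ℕ)) (p : ℕ × ℕ) => p ∈ L := by
  have h := (Primrec.eq (α := ℕ × ℕ)).exists_mem_list
  refine h.of_eq fun L p => ?_
  simp

theorem colL_prim {α : Type*} [Primcodable α] {a : α → St} {p : α → ℕ × ℕ} (ha : Primrec a)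
    (hp : Primrec p) : Primrec fun x => colL (a x) (p x) := by
  unfold colL
  exact Primrec.ite (mem_prim.comp (St.prim_C0.comp ha) hp) (Primrec.const 0)
    (Primrec.ite (mem_prim.comp (St.prim_C1.comp ha) hp) (Primrec.const 1) (Primrec.const 2))

theorem colL_lt (a : St) (p : ℕ × ℕ) : colL a p < 3 := by
  unfold colL
  split_ifs <;> norm_num

theorem val_sig (c : OCode) {α : Type*} [Primcodable α] {a : α → St} {p : α → ℕ × ℕ}
    (ha : Primrec a) (hp : Primrec p) :
    Sig fun x => Val (PP c) (a x).m (colL (a x)) (p x) := by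
  have hv : Primrec fun x => vx (a x).m (p x).1 (p x).2 :=
    Primrec.pair (St.prim_m.comp ha) (Primrec.pair (fst.comp hp) (Primrec.pair (fst.comp hp)
      (Primrec.pair (snd.comp hp) (snd.comp hp))))
  have hcol := colL_prim ha hp
  have h : Sig fun x => (colL (a x) (p x) = 0 ∧ PP c 0 (vx (a x).m (p x).1 (p x).2)) ∨
      ((colL (a x) (p x) = 1 ∧ PP c 1 (vx (a x).m (p x).1 (p x).2)) ∨
      (colL (a x) (p x) = 2 ∧ PP c 2 (vx (a x).m (p x).1 (p x).2))) := by
    refine Sig.or ?_ (Sig.or ?_ ?_)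
    · exact Sig.and (Sig.of_prim (Primrec.eq.comp hcol (Primrec.const 0)))
        ((pp_sig c 0 (by norm_num)).comp hv)
    · exact Sig.and (Sig.of_prim (Primrec.eq.comp hcol (Primrec.const 1)))
        ((pp_sig c 1 (by norm_num)).comp hv)
    · exact Sig.and (Sig.of_prim (Primrec.eq.comp hcol (Primrec.const 2)))
        ((pp_sig c 2 (by norm_num)).comp hv)
  refine h.of_eq fun x => ?_
  have hlt := colL_lt (a x) (p x)
  unfold Val
  constructor
  · rintro (⟨e, hP⟩ | ⟨e, hP⟩ | ⟨e, hP⟩) <;> rw [e] <;> exact ⟨by norm_num, hP⟩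
  · rintro ⟨-, hP⟩
    have : colL (a x) (p x) = 0 ∨ colL (a x) (p x) = 1 ∨ colL (a x) (p x) = 2 := by omega
    rcases this with e | e | e <;> rw [e] at hP <;> simp [e, hP]

theorem eg_sig (c : OCode) {α : Type*} [Primcodable α] {a : α → St} {e : α → Bx}
    {p q : α → ℕ × ℕ} (ha : Primrec a) (he : Primrec e) (hp : Primrec p) (hq : Primrec q) :
    Sig fun x => EG (NN c) (PP c) (a x).m (colL (a x)) (e x) (p x) (q x) := by
  unfold EG
  refine Sig.and ?_ (Sig.and (val_sig c ha hp) (val_sig c ha hq))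
  have h : Sig fun x => NN c 0 (e x) ∨ (NN c 1 (e x) ∨ NN c 2 (e x)) :=
    Sig.or ((nn_sig c 0 (by norm_num)).comp he) (Sig.or ((nn_sig c 1 (by norm_num)).comp he)
      ((nn_sig c 2 (by norm_num)).comp he))
  refine h.of_eq fun x => ?_
  constructor
  · rintro (h | h | h)
    · exact ⟨0, by norm_num, h⟩
    · exact ⟨1, by norm_num, h⟩
    · exact ⟨2, by norm_num, h⟩
  · rintro ⟨k, hk, h⟩
    interval_cases k
    · exact Or.inl h
    · exact Or.inr (Or.inl h)
    · exact Or.inr (Or.inr h)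

theorem nodup_prim : PrimrecPred fun L : List (ℕ × ℕ) => L.Nodup := by
  have h1 : PrimrecRel fun (i : ℕ) (x : ℕ × List (ℕ × ℕ)) => ¬ (x.2[i]? = x.2[x.1]?) :=
    (Primrec.eq.comp (list_getElem?.comp (snd.comp snd) fst)
      (list_getElem?.comp (snd.comp snd) (fst.comp snd))).not
  have h2 : PrimrecRel fun (j : ℕ) (L : List (ℕ × ℕ)) => ∀ i ∈ List.range j, ¬ (L[i]? = L[j]?) :=
    h1.forall_mem_list.comp (f := fun x : ℕ × List (ℕ × ℕ) => List.range x.1)
      (g := fun x : ℕ × List (ℕ × ℕ) => x) (list_range.comp fst) Primrec.id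
  have h3 := h2.forall_mem_list.comp (f := fun L : List (ℕ × ℕ) => List.range L.length)
    (g := fun L : List (ℕ × ℕ) => L) (list_range.comp list_length) Primrec.id
  refine h3.of_eq fun L => ?_
  rw [List.nodup_iff_getElem?_ne_getElem?]
  simp only [List.mem_range]
  constructor
  · intro h i j hij hj
    exact h j hj i hij
  · intro h j hj i hij
    exact h i j hij hj

def chiN (a b : ℕ) : ℕ := if (a = 0 ∧ b = 1) ∨ (a = 1 ∧ b = 0) then 1 else 0

theorem chiN_cast (a b : ℕ) : ((chiN a b : ℕ) : ZMod 2) = chi a b := by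
  unfold chiN chi
  split_ifs <;> simp

theorem chiN_prim {α : Type*} [Primcodable α] {a b : α → ℕ} (ha : Primrec a) (hb : Primrec b) :
    Primrec fun x => chiN (a x) (b x) := by
  unfold chiN
  exact Primrec.ite (((Primrec.eq.comp ha (Primrec.const 0)).and
    (Primrec.eq.comp hb (Primrec.const 1))).or ((Primrec.eq.comp ha (Primrec.const 1)).and
    (Primrec.eq.comp hb (Primrec.const 0)))) (Primrec.const 1) (Primrec.const 0)

/-- contribution of a cell -/
def cellN (a : St) (p : ℕ × ℕ) : ℕ :=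
  chiN (colL a (p.1, p.2)) (colL a (p.1 + 1, p.2)) +
    chiN (colL a (p.1, p.2 + 1)) (colL a (p.1 + 1, p.2 + 1)) +
    chiN (colL a (p.1, p.2)) (colL a (p.1, p.2 + 1)) +
    chiN (colL a (p.1 + 1, p.2)) (colL a (p.1 + 1, p.2 + 1))

theorem cellN_prim : Primrec₂ cellN := by
  unfold cellN
  have ha : Primrec fun x : St × (ℕ × ℕ) => x.1 := fst
  have h1 : Primrec fun x : St × (ℕ × ℕ) => x.2.1 := fst.comp snd
  have h2 : Primrec fun x : St × (ℕ × ℕ) => x.2.2 := snd.comp snd
  have h1' := succ.comp h1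
  have h2' := succ.comp h2
  have c00 := colL_prim ha (Primrec.pair h1 h2)
  have c10 := colL_prim ha (Primrec.pair h1' h2)
  have c01 := colL_prim ha (Primrec.pair h1 h2')
  have c11 := colL_prim ha (Primrec.pair h1' h2')
  exact nat_add.comp (nat_add.comp (nat_add.comp (chiN_prim c00 c10) (chiN_prim c01 c11))
    (chiN_prim c00 c01)) (chiN_prim c10 c11)

def parN (a : St) : ℕ := a.S.foldl (fun s p => s + cellN a p) 0

theorem parN_prim : Primrec parN := by
  unfold parN
  exact Primrec.list_foldl St.prim_S (Primrec.const 0)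
    (h := fun a (x : ℕ × (ℕ × ℕ)) => x.1 + cellN a x.2)
    (nat_add.comp (fst.comp snd) (cellN_prim.comp fst (snd.comp snd)))

theorem parN_cast (a : St) (hnd : a.S.Nodup) :
    ((parN a : ℕ) : ZMod 2) = par a.S.toFinset (Hc (colL a)) (Vc (colL a)) := by
  have h1 : ∀ (L : List (ℕ × ℕ)) (s : ℕ),
      L.foldl (fun s p => s + cellN a p) s = s + (L.map (cellN a)).sum := by
    intro L
    induction L with
    | nil => intro s; simp
    | cons p L ih => intro s; simp [ih, add_assoc]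
  unfold parN par
  rw [h1, zero_add, ← List.sum_toFinset _ hnd]
  push_cast
  refine Finset.sum_congr rfl fun p _ => ?_
  unfold cellN
  push_cast [chiN_cast]
  rfl

/-- certified state -/
def CertS (c : OCode) (a : St) : Prop :=
  a.S.Nodup ∧ Cert (NN c) (PP c) a.m a.S.toFinset (colL a) ∧
    par a.S.toFinset (Hc (colL a)) (Vc (colL a)) = 1

/-- the certificate condition at a cell -/
def certAt (c : OCode) (a : St) (q : ℕ × ℕ) : Prop :=
  ((q.1, q.2.succ) ∈ a.S ∨ EG (NN c) (PP c) a.m (colL a)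
    (a.m, q.1, q.1.succ, q.2.succ, q.2.succ) (q.1, q.2.succ) (q.1.succ, q.2.succ)) ∧
  (((¬ q.2 = 0) ∧ (q.1, q.2.pred) ∈ a.S) ∨ EG (NN c) (PP c) a.m (colL a)
    (a.m, q.1, q.1.succ, q.2, q.2) (q.1, q.2) (q.1.succ, q.2)) ∧
  ((q.1.succ, q.2) ∈ a.S ∨ EG (NN c) (PP c) a.m (colL a)
    (a.m, q.1.succ, q.1.succ, q.2, q.2.succ) (q.1.succ, q.2) (q.1.succ, q.2.succ)) ∧
  (((¬ q.1 = 0) ∧ (q.1.pred, q.2) ∈ a.S) ∨ EG (NN c) (PP c) a.m (colL a)
    (a.m, q.1, q.1, q.2, q.2.succ) (q.1, q.2) (q.1, q.2.succ))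

theorem certS_sig (c : OCode) : Sig (CertS c) := by
  have hodd : PrimrecPred fun a : St => parN a % 2 = 1 :=
    Primrec.eq.comp (nat_mod.comp parN_prim (Primrec.const 2)) (Primrec.const 1)
  have hm : Primrec fun x : St × (ℕ × ℕ) => x.1.m := St.prim_m.comp fst
  have ha : Primrec fun x : St × (ℕ × ℕ) => x.1 := fst
  have h1 : Primrec fun x : St × (ℕ × ℕ) => x.2.1 := fst.comp snd
  have h2 : Primrec fun x : St × (ℕ × ℕ) => x.2.2 := snd.comp snd
  have h1' := succ.comp h1
  have h2' := succ.comp h2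
  have h1'' := pred.comp h1
  have h2'' := pred.comp h2
  have hS : Primrec fun x : St × (ℕ × ℕ) => x.1.S := St.prim_S.comp fst
  have hcert : Sig fun x : St × (ℕ × ℕ) => certAt c x.1 x.2 := by
    unfold certAt
    refine Sig.and (Sig.or (Sig.of_prim ?_) (eg_sig c ha ?_ ?_ ?_)) (Sig.and
      (Sig.or (Sig.of_prim (PrimrecPred.and ?_ ?_)) (eg_sig c ha ?_ ?_ ?_)) (Sig.and
      (Sig.or (Sig.of_prim ?_) (eg_sig c ha ?_ ?_ ?_))
      (Sig.or (Sig.of_prim (PrimrecPred.and ?_ ?_)) (eg_sig c ha ?_ ?_ ?_))))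
    · exact mem_prim.comp hS (Primrec.pair h1 h2')
    · exact Primrec.pair hm (Primrec.pair h1 (Primrec.pair h1' (Primrec.pair h2' h2')))
    · exact Primrec.pair h1 h2'
    · exact Primrec.pair h1' h2'
    · exact (Primrec.eq.comp h2 (Primrec.const 0)).not
    · exact mem_prim.comp hS (Primrec.pair h1 h2'')
    · exact Primrec.pair hm (Primrec.pair h1 (Primrec.pair h1' (Primrec.pair h2 h2)))
    · exact Primrec.pair h1 h2
    · exact Primrec.pair h1' h2
    · exact mem_prim.comp hS (Primrec.pair h1' h2)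
    · exact Primrec.pair hm (Primrec.pair h1' (Primrec.pair h1' (Primrec.pair h2 h2')))
    · exact Primrec.pair h1' h2
    · exact Primrec.pair h1' h2'
    · exact (Primrec.eq.comp h1 (Primrec.const 0)).not
    · exact mem_prim.comp hS (Primrec.pair h1'' h2)
    · exact Primrec.pair hm (Primrec.pair h1 (Primrec.pair h1 (Primrec.pair h2 h2')))
    · exact Primrec.pair h1 h2
    · exact Primrec.pair h1 h2'
  have hall := Sig.all hcert St.prim_S
  refine ((Sig.of_prim (nodup_prim.comp St.prim_S)).and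
    (hall.and (Sig.of_prim hodd))).of_eq fun a => ?_
  unfold CertS
  refine and_congr_right fun hnd => and_congr ?_ ?_
  · unfold Cert Bd
    constructor
    · intro H p hp
      rw [List.mem_toFinset] at hp
      obtain ⟨g1, g2, g3, g4⟩ := H p hp
      refine ⟨fun hn => ?_, fun hn => ?_, fun hn => ?_, fun hn => ?_⟩
      · rw [List.mem_toFinset] at hn
        exact g1.resolve_left hn
      · refine g2.resolve_left fun hh => hn (p.2.pred) ?_ ?_
        · have := hh.1
          simp only [Nat.pred_eq_sub_one]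
          omega
        · rw [List.mem_toFinset]
          exact hh.2
      · rw [List.mem_toFinset] at hn
        exact g3.resolve_left hn
      · refine g4.resolve_left fun hh => hn (p.1.pred) ?_ ?_
        · have := hh.1
          simp only [Nat.pred_eq_sub_one]
          omega
        · rw [List.mem_toFinset]
          exact hh.2
    · intro H p hp
      obtain ⟨g1, g2, g3, g4⟩ := H p (List.mem_toFinset.2 hp)
      simp only [List.mem_toFinset] at g1 g2 g3 g4
      refine ⟨?_, ?_, ?_, ?_⟩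
      · by_cases hc : (p.1, p.2 + 1) ∈ a.S
        · exact Or.inl hc
        · exact Or.inr (g1 hc)
      · by_cases hc : (¬ p.2 = 0) ∧ (p.1, p.2.pred) ∈ a.S
        · exact Or.inl hc
        · refine Or.inr (g2 fun j hj hmem => hc ⟨by omega, ?_⟩)
          rw [hj]
          exact hmem
      · by_cases hc : (p.1 + 1, p.2) ∈ a.S
        · exact Or.inl hc
        · exact Or.inr (g3 hc)
      · by_cases hc : (¬ p.1 = 0) ∧ (p.1.pred, p.2) ∈ a.S
        · exact Or.inl hc
        · refine Or.inr (g4 fun j hj hmem => hc ⟨by omega, ?_⟩)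
          rw [hj]
          exact hmem
  · rw [← parN_cast a hnd]
    have : ((parN a : ℕ) : ZMod 2) = 1 ↔ parN a % 2 = 1 := by
      have h1 : ((1 : ℕ) : ZMod 2) = 1 := by norm_num
      rw [← h1, ZMod.natCast_eq_natCast_iff']
    exact this.symm

end Pool.Agent.H75.Fix
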