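import Pool.Agent.H75.CertSig

/-! A computable self-map of the square whose set of fixed points is totally disconnected has a
computable fixed point. -/

namespace Pool.Agent.H75.Fix

open Primrec

/-- vertices of the cells of `S` -/
def verts (S : Finset (ℕ × ℕ)) : Finset (ℕ × ℕ) :=
  S.biUnion fun p => {(p.1, p.2), (p.1 + 1, p.2), (p.1, p.2 + 1), (p.1 + 1, p.2 + 1)}

theorem exists_state (c : OCode) {m : ℕ} {S : Finset (ℕ × ℕ)} {c' : ℕ × ℕ → ℕ}
    (hc : Cert (NN c) (PP c) m S c') (hodd : par S (Hc c') (Vc c') = 1) (ctr : ℕ × ℕ) :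
    ∃ a : St, a.m = m ∧ a.S.toFinset = S ∧ a.ctr = ctr ∧ CertS c a := by
  classical
  set a : St := (m, S.toList, ((verts S).filter fun p => c' p = 0).toList,
    ((verts S).filter fun p => c' p = 1).toList, ctr) with ha
  have hS : a.S.toFinset = S := by
    simp [ha, St.S]
  have hcol : ∀ p ∈ verts S, colL a p = if c' p = 0 then 0 else if c' p = 1 then 1 else 2 := by
    intro p hp
    unfold colL
    simp [ha, St.C0, St.C1, hp]
  have hval : ∀ p ∈ verts S, Val (PP c) m c' p → Val (PP c) m (colL a) p := by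
    rintro p hp ⟨h1, h2⟩
    have e : colL a p = c' p := by
      rw [hcol p hp]
      split_ifs <;> omega
    unfold Val
    rw [e]
    exact ⟨h1, h2⟩
  have hchi : ∀ p ∈ verts S, ∀ q ∈ verts S, chi (colL a p) (colL a q) = chi (c' p) (c' q) := by
    intro p hp q hq
    rw [hcol p hp, hcol q hq]
    unfold chi
    by_cases h0 : c' p = 0 <;> by_cases h1 : c' q = 0 <;> by_cases h2 : c' p = 1 <;>
      by_cases h3 : c' q = 1 <;> simp [h0, h1, h2, h3]
  have hv : ∀ p ∈ S, (p.1, p.2) ∈ verts S ∧ (p.1 + 1, p.2) ∈ verts S ∧ (p.1, p.2 + 1) ∈ verts S ∧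
      (p.1 + 1, p.2 + 1) ∈ verts S := by
    intro p hp
    simp only [verts, Finset.mem_biUnion]
    exact ⟨⟨p, hp, by simp⟩, ⟨p, hp, by simp⟩, ⟨p, hp, by simp⟩, ⟨p, hp, by simp⟩⟩
  refine ⟨a, rfl, hS, rfl, ?_, ?_, ?_⟩
  · exact Finset.nodup_toList _
  · rw [hS]
    intro p hp
    obtain ⟨v1, v2, v3, v4⟩ := hv p hp
    obtain ⟨g1, g2, g3, g4⟩ := hc p hp
    refine ⟨fun hn => ?_, fun hn => ?_, fun hn => ?_, fun hn => ?_⟩
    · obtain ⟨e1, e2, e3⟩ := g1 hn
      exact ⟨e1, hval _ v3 e2, hval _ v4 e3⟩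
    · obtain ⟨e1, e2, e3⟩ := g2 hn
      exact ⟨e1, hval _ v1 e2, hval _ v2 e3⟩
    · obtain ⟨e1, e2, e3⟩ := g3 hn
      exact ⟨e1, hval _ v2 e2, hval _ v4 e3⟩
    · obtain ⟨e1, e2, e3⟩ := g4 hn
      exact ⟨e1, hval _ v1 e2, hval _ v3 e3⟩
  · rw [hS, ← hodd]
    unfold par
    refine Finset.sum_congr rfl fun p hp => ?_
    obtain ⟨v1, v2, v3, v4⟩ := hv p hp
    unfold Hc Vc
    rw [hchi _ v1 _ v2, hchi _ v3 _ v4, hchi _ v1 _ v3, hchi _ v2 _ v4]

/-- closeness of a point to the centre -/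
def Small (a : St) (k : ℕ) (p : ℕ × ℕ) : Prop :=
  co a.m p.1 - co a.m a.ctr.1 ≤ (1 / 2) ^ k ∧ co a.m a.ctr.1 - co a.m p.1 ≤ (1 / 2) ^ k ∧
  co a.m p.2 - co a.m a.ctr.2 ≤ (1 / 2) ^ k ∧ co a.m a.ctr.2 - co a.m p.2 ≤ (1 / 2) ^ k

theorem small_iff (a : St) (k : ℕ) (p : ℕ × ℕ) :
    Small a k p ↔ dist (pt a.m p.1 p.2) (pt a.m a.ctr.1 a.ctr.2) ≤ (1 / 2) ^ k := by
  unfold Small
  rw [pt, pt, Prod.dist_eq, max_le_iff, Real.dist_eq, Real.dist_eq, abs_le, abs_le]
  simp only [← co_cast]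
  rw [← Rat.cast_le (K := ℝ), ← Rat.cast_le (K := ℝ), ← Rat.cast_le (K := ℝ),
    ← Rat.cast_le (K := ℝ)]
  push_cast
  constructor
  · rintro ⟨h1, h2, h3, h4⟩
    exact ⟨⟨by linarith, h1⟩, by linarith, h3⟩
  · rintro ⟨⟨h1, h2⟩, h3, h4⟩
    exact ⟨h2, by linarith, h4, by linarith⟩

/-- closeness of consecutive centres -/
def Close (a b : St) (k : ℕ) : Prop :=
  co b.m b.ctr.1 - co a.m a.ctr.1 ≤ (1 / 2) ^ k + (1 / 2) ^ k ∧
  co a.m a.ctr.1 - co b.m b.ctr.1 ≤ (1 / 2) ^ k + (1 / 2) ^ k ∧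
  co b.m b.ctr.2 - co a.m a.ctr.2 ≤ (1 / 2) ^ k + (1 / 2) ^ k ∧
  co a.m a.ctr.2 - co b.m b.ctr.2 ≤ (1 / 2) ^ k + (1 / 2) ^ k

theorem close_iff (a b : St) (k : ℕ) :
    Close a b k ↔ dist (pt a.m a.ctr.1 a.ctr.2) (pt b.m b.ctr.1 b.ctr.2) ≤ 2 * (1 / 2) ^ k := by
  unfold Close
  rw [pt, pt, Prod.dist_eq, max_le_iff, Real.dist_eq, Real.dist_eq, abs_le, abs_le]
  simp only [← co_cast]
  rw [← Rat.cast_le (K := ℝ), ← Rat.cast_le (K := ℝ), ← Rat.cast_le (K := ℝ),
    ← Rat.cast_le (K := ℝ)]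
  push_cast
  constructor
  · rintro ⟨h1, h2, h3, h4⟩
    exact ⟨⟨by linarith, by linarith⟩, by linarith, by linarith⟩
  · rintro ⟨⟨h1, h2⟩, h3, h4⟩
    exact ⟨by linarith, by linarith, by linarith, by linarith⟩

/-- the step relation -/
def StepR (c : OCode) (k : ℕ) (a b : St) : Prop :=
  CertS c b ∧ (∀ p ∈ b.S, Small b (k + 1) p) ∧ k + 1 ≤ b.m ∧ Close a b k

theorem stepR_sig (c : OCode) : Sig fun x : (ℕ × St) × St => StepR c x.1.1 x.1.2 x.2 := by
  have hb : Primrec fun x : (ℕ × St) × St => x.2 := snd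
  have ha : Primrec fun x : (ℕ × St) × St => x.1.2 := snd.comp fst
  have hk : Primrec fun x : (ℕ × St) × St => x.1.1 := fst.comp fst
  have hsmall : PrimrecRel fun (p : ℕ × ℕ) (x : (ℕ × St) × St) => Small x.2 (x.1.1 + 1) p := by
    have hb' : Primrec fun y : (ℕ × ℕ) × ((ℕ × St) × St) => y.2.2 := hb.comp snd
    have hk' : Primrec fun y : (ℕ × ℕ) × ((ℕ × St) × St) => y.2.1.1 + 1 := succ.comp (hk.comp snd)
    have hm : Primrec fun y : (ℕ × ℕ) × ((ℕ × St) × St) => y.2.2.m := St.prim_m.comp hb'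
    have hc1 : Primrec fun y : (ℕ × ℕ) × ((ℕ × St) × St) => y.2.2.ctr.1 :=
      fst.comp (St.prim_ctr.comp hb')
    have hc2 : Primrec fun y : (ℕ × ℕ) × ((ℕ × St) × St) => y.2.2.ctr.2 :=
      snd.comp (St.prim_ctr.comp hb')
    have hp1 : Primrec fun y : (ℕ × ℕ) × ((ℕ × St) × St) => y.1.1 := fst.comp fst
    have hp2 : Primrec fun y : (ℕ × ℕ) × ((ℕ × St) × St) => y.1.2 := snd.comp fst
    have hh := PR.half hk'
    exact (((PR.co hm hp1).sub (PR.co hm hc1)).le hh).and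
      ((((PR.co hm hc1).sub (PR.co hm hp1)).le hh).and
      ((((PR.co hm hp2).sub (PR.co hm hc2)).le hh).and
      (((PR.co hm hc2).sub (PR.co hm hp2)).le hh)))
  have hsmall' : PrimrecPred fun x : (ℕ × St) × St => ∀ p ∈ x.2.S, Small x.2 (x.1.1 + 1) p :=
    hsmall.forall_mem_list.comp (St.prim_S.comp hb) Primrec.id
  have hclose : PrimrecPred fun x : (ℕ × St) × St => Close x.1.2 x.2 x.1.1 := by
    have ma := St.prim_m.comp ha
    have mb := St.prim_m.comp hb
    have a1 := fst.comp (St.prim_ctr.comp ha)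
    have a2 := snd.comp (St.prim_ctr.comp ha)
    have b1 := fst.comp (St.prim_ctr.comp hb)
    have b2 := snd.comp (St.prim_ctr.comp hb)
    have hh := (PR.half hk).add (PR.half hk)
    exact (((PR.co mb b1).sub (PR.co ma a1)).le hh).and
      ((((PR.co ma a1).sub (PR.co mb b1)).le hh).and
      ((((PR.co mb b2).sub (PR.co ma a2)).le hh).and
      (((PR.co ma a2).sub (PR.co mb b2)).le hh)))
  unfold StepR
  exact ((certS_sig c).comp hb).and ((Sig.of_prim hsmall').and
    ((Sig.of_prim (nat_le.comp (succ.comp hk) (St.prim_m.comp hb))).and (Sig.of_prim hclose)))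

theorem par_ne_nonempty {S : Finset (ℕ × ℕ)} {H V : ℕ → ℕ → ZMod 2} (h : par S H V = 1) :
    S.Nonempty := by
  rw [Finset.nonempty_iff_ne_empty]
  rintro rfl
  simp [par] at h

theorem exists_comp_seq {f : ℝ × ℝ → ℝ × ℝ} (hf : CompCont f)
    (htd : IsTotallyDisconnected (FixSet f)) :
    ∃ x ∈ FixSet f, ∃ s : ℕ → ℕ × (ℕ × ℕ), Computable s ∧
      ∀ k, dist (pt (s k).1 (s k).2.1 (s k).2.2) x ≤ 4 * (1 / 2) ^ k := by
  have hcomp := isCompact_fixSet hf
  obtain ⟨hmaps, c, hc⟩ := hf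
  have hsys := sys_of_computes hc hmaps
  have hset : {x | Zr (ll f) x} = FixSet f := by
    ext x
    exact zr_iff hmaps x
  have hK : IsCompact {x | Zr (ll f) x} := by rw [hset]; exact hcomp
  have htd' : IsTotallyDisconnected {x | Zr (ll f) x} := by rw [hset]; exact htd
  have hpow : ∀ m k : ℕ, k ≤ m → (1 : ℝ) / 2 ^ m ≤ (1 / 2) ^ k := by
    intro m k hkm
    rw [← one_div_pow]
    exact pow_le_pow_of_le_one (by norm_num) (by norm_num) hkm
  -- initial state
  obtain ⟨m₀, S₀, c₀, h1, h2⟩ := hsys.init fun x hx => ((zr_iff hmaps x).1 hx).1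
  obtain ⟨m₁, S₁, c₁, -, h3, h4, -, h5⟩ := hsys.step hK htd' h1 h2 (ε := 1) one_pos 0
  obtain ⟨p₀, hp₀⟩ := par_ne_nonempty h4
  obtain ⟨a₀, am, aS, actr, aC⟩ := exists_state c h3 h4 p₀
  let I : ℕ → St → Prop := fun k a => CertS c a ∧ (∀ p ∈ a.S, Small a k p) ∧ k ≤ a.m
  have hI0 : I 0 a₀ := by
    refine ⟨aC, fun p hp => ?_, Nat.zero_le _⟩
    rw [small_iff, am, actr]
    have hp' : p ∈ S₁ := by
      rw [← aS]
      exact List.mem_toFinset.2 hp
    simpa using (h5 p hp' p₀ hp₀).le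
  have hstep : ∀ k a, I k a → ∃ b, StepR c k a b := by
    rintro k a ⟨⟨hnd, hcert, hodd⟩, hsm, hkm⟩
    obtain ⟨m', S', c', g1, g2, g3, g4, g5⟩ := hsys.step hK htd' hcert hodd
      (ε := (1 / 2) ^ (k + 1)) (by positivity) (k + 1)
    obtain ⟨p₁, hp₁⟩ := par_ne_nonempty g3
    obtain ⟨b, bm, bS, bctr, bC⟩ := exists_state c g2 g3 p₁
    refine ⟨b, bC, fun p hp => ?_, by omega, ?_⟩
    · rw [small_iff, bm, bctr]
      have hp' : p ∈ S' := by
        rw [← bS]
        exact List.mem_toFinset.2 hp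
      exact (g5 p hp' p₁ hp₁).le
    · rw [close_iff, bm, bctr]
      obtain ⟨q, hq, hd⟩ := g4 p₁ hp₁
      have hs := (small_iff a k q).1 (hsm q (List.mem_toFinset.1 hq))
      have h6 := hpow _ _ hkm
      have t := dist_triangle (pt a.m a.ctr.1 a.ctr.2) (pt a.m q.1 q.2) (pt m' p₁.1 p₁.2)
      have e1 := dist_comm (pt a.m a.ctr.1 a.ctr.2) (pt a.m q.1 q.2)
      have e2 := dist_comm (pt a.m q.1 q.2) (pt m' p₁.1 p₁.2)
      linarith
  have hpres : ∀ k a b, I k a → StepR c k a b → I (k + 1) b :=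
    fun k a b _ hR => ⟨hR.1, hR.2.1, hR.2.2.1⟩
  obtain ⟨s, hs, -, hsI, hsR⟩ := Sig.choose_seq (stepR_sig c) hI0 hstep hpres
  set u : ℕ → ℝ × ℝ := fun k => pt (s k).m (s k).ctr.1 (s k).ctr.2 with hu
  have hcl : ∀ k, dist (u k) (u (k + 1)) ≤ 2 * (1 / 2) ^ k := fun k =>
    (close_iff _ _ _).1 (hsR k).2.2.2
  have hcau : CauchySeq u := cauchySeq_of_le_geometric (1 / 2) 2 (by norm_num) hcl
  obtain ⟨x, hx⟩ := cauchySeq_tendsto_of_complete hcau
  have hux : ∀ k, dist (u k) x ≤ 4 * (1 / 2) ^ k := by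
    intro k
    have := dist_le_of_le_geometric_of_tendsto (1 / 2) 2 (by norm_num) hcl hx k
    refine this.trans (le_of_eq ?_)
    ring
  refine ⟨x, ?_, fun k => ((s k).m, (s k).ctr), ?_, hux⟩
  · -- `x` is a limit of fixed points
    have hz : ∀ k, ∃ z ∈ FixSet f, dist z x ≤ 7 * (1 / 2) ^ k := by
      intro k
      obtain ⟨⟨hnd, hcert, hodd⟩, hsm, hkm⟩ := hsI k
      obtain ⟨z, hz, q, hq, hd⟩ := hsys.exists_zero hcert hodd (η := (1 / 2) ^ k) (by positivity)
      refine ⟨z, (zr_iff hmaps z).1 hz, ?_⟩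
      have h6 := hpow _ _ hkm
      have h7 := (small_iff (s k) k q).1 (hsm q (List.mem_toFinset.1 hq))
      have t1 := dist_triangle z (pt (s k).m q.1 q.2) x
      have t2 := dist_triangle (pt (s k).m q.1 q.2) (u k) x
      have h8 := hux k
      simp only [hu] at t2 h8
      linarith
    choose z hz1 hz2 using hz
    refine hcomp.isClosed.mem_of_tendsto (f := z) (b := Filter.atTop) ?_
      (Filter.Eventually.of_forall hz1)
    rw [tendsto_iff_dist_tendsto_zero]
    refine squeeze_zero (fun _ => dist_nonneg) hz2 ?_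
    have := (tendsto_pow_atTop_nhds_zero_of_lt_one (r := (1 / 2 : ℝ)) (by norm_num)
      (by norm_num)).const_mul 7
    simpa using this
  · exact (Computable.pair (St.prim_m.to_comp.comp hs) (St.prim_ctr.to_comp.comp hs))

/-- A real number with a computable sequence of dyadic approximations has a computable cut. -/
theorem comp_cut {x : ℝ} {m i : ℕ → ℕ} (hm : Computable m) (hi : Computable i)
    (h : ∀ k, |cor (m k) (i k) - x| ≤ 4 * (1 / 2) ^ k) :
    ComputablePred fun q : ℕ => ((ratOf q : ℚ) : ℝ) < x := by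
  by_cases hrat : ∃ r : ℚ, (r : ℝ) = x
  · obtain ⟨r, rfl⟩ := hrat
    refine (((PR.ratOf Primrec.id).lt (PR.const r)).computablePred).of_eq fun q => ?_
    simp
  · push Not at hrat
    have h4 : PR fun y : ℕ × ℕ × ℕ × ℕ => (1 : ℚ) / 2 ^ y.2.1 := by
      have := PR.half (α := ℕ × ℕ × ℕ × ℕ) (f := fun y => y.2.1) (fst.comp snd)
      simpa only [one_div_pow] using this
    have hfour : PR fun y : ℕ × ℕ × ℕ × ℕ =>
        (1 : ℚ) / 2 ^ y.2.1 + 1 / 2 ^ y.2.1 + (1 / 2 ^ y.2.1 + 1 / 2 ^ y.2.1) :=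
      (h4.add h4).add (h4.add h4)
    have hco : PR fun y : ℕ × ℕ × ℕ × ℕ => co y.2.2.1 y.2.2.2 :=
      PR.co (fst.comp (snd.comp snd)) (snd.comp (snd.comp snd))
    have hq : PR fun y : ℕ × ℕ × ℕ × ℕ => ratOf y.1 := PR.ratOf fst
    have hA : PrimrecPred fun y : ℕ × ℕ × ℕ × ℕ => ratOf y.1 + ((1 : ℚ) / 2 ^ y.2.1 +
        1 / 2 ^ y.2.1 + (1 / 2 ^ y.2.1 + 1 / 2 ^ y.2.1)) < co y.2.2.1 y.2.2.2 :=
      (hq.add hfour).lt hco
    have hB : PrimrecPred fun y : ℕ × ℕ × ℕ × ℕ => co y.2.2.1 y.2.2.2 + ((1 : ℚ) / 2 ^ y.2.1 +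
        1 / 2 ^ y.2.1 + (1 / 2 ^ y.2.1 + 1 / 2 ^ y.2.1)) < ratOf y.1 :=
      (hco.add hfour).lt hq
    set A : ℕ → ℕ → Prop := fun q k => ratOf q + ((1 : ℚ) / 2 ^ k +
        1 / 2 ^ k + (1 / 2 ^ k + 1 / 2 ^ k)) < co (m k) (i k) with hAdef
    set B : ℕ → ℕ → Prop := fun q k => co (m k) (i k) + ((1 : ℚ) / 2 ^ k +
        1 / 2 ^ k + (1 / 2 ^ k + 1 / 2 ^ k)) < ratOf q with hBdef
    have hin : Computable fun x : ℕ × ℕ => (x.1, x.2, m x.2, i x.2) :=
      Computable.fst.pair (Computable.snd.pair ((hm.comp Computable.snd).pair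
        (hi.comp Computable.snd)))
    classical
    have hAc : Computable fun x : ℕ × ℕ => decide (A x.1 x.2) :=
      (hA.decide.to_comp.comp hin).of_eq fun x => rfl
    have hBc : Computable fun x : ℕ × ℕ => decide (B x.1 x.2) :=
      (hB.decide.to_comp.comp hin).of_eq fun x => rfl
    have hABc : ComputablePred fun x : ℕ × ℕ => A x.1 x.2 ∨ B x.1 x.2 := by
      refine Computable.computablePred ?_
      refine (Primrec.or.to_comp.comp hAc hBc).of_eq fun x => ?_
      simp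
    have hcast : ∀ k : ℕ, (((1 : ℚ) / 2 ^ k + 1 / 2 ^ k + (1 / 2 ^ k + 1 / 2 ^ k) : ℚ) : ℝ)
        = 4 * (1 / 2) ^ k := by
      intro k
      push_cast
      rw [one_div_pow]
      ring
    have hAs : ∀ q k, A q k → ((ratOf q : ℚ) : ℝ) < x := by
      intro q k hqk
      simp only [hAdef] at hqk
      rw [← Rat.cast_lt (K := ℝ), Rat.cast_add, hcast, co_cast] at hqk
      have := (abs_le.1 (h k)).2
      linarith
    have hBs : ∀ q k, B q k → x < ((ratOf q : ℚ) : ℝ) := by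
      intro q k hqk
      simp only [hBdef] at hqk
      rw [← Rat.cast_lt (K := ℝ), Rat.cast_add, hcast, co_cast] at hqk
      have := (abs_le.1 (h k)).1
      linarith
    have hex : ∀ q, ∃ k, A q k ∨ B q k := by
      intro q
      have hne : ((ratOf q : ℚ) : ℝ) ≠ x := hrat _
      obtain ⟨k, hk⟩ := exists_half_lt (show 0 < |((ratOf q : ℚ) : ℝ) - x| / 8 by
        have := abs_pos.2 (sub_ne_zero.2 hne)
        linarith)
      refine ⟨k, ?_⟩
      have h5 := abs_le.1 (h k)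
      rcases lt_or_gt_of_ne hne with hlt | hgt
      · left
        simp only [hAdef]
        rw [← Rat.cast_lt (K := ℝ), Rat.cast_add, hcast, co_cast]
        rw [abs_of_neg (by linarith)] at hk
        linarith
      · right
        simp only [hBdef]
        rw [← Rat.cast_lt (K := ℝ), Rat.cast_add, hcast, co_cast]
        rw [abs_of_pos (by linarith)] at hk
        linarith
    have hfind := Computable.find hABc hex
    refine Computable.computablePred (p := fun q : ℕ => ((ratOf q : ℚ) : ℝ) < x) ?_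
    refine (hAc.comp (Computable.id.pair hfind)).of_eq fun q => ?_
    have hspec := Nat.find_spec (hex q)
    simp only [id]
    rw [decide_eq_decide]
    constructor
    · exact hAs _ _
    · intro hlt
      rcases hspec with h6 | h6
      · exact h6
      · exact absurd (hBs _ _ h6) (not_lt.2 hlt.le)

/-- A computable self-map of the square whose fixed points form a totally disconnected set has a
fixed point with computable cuts. -/
theorem exists_comp_fix {f : ℝ × ℝ → ℝ × ℝ} (hf : CompCont f)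
    (htd : IsTotallyDisconnected (FixSet f)) : ∃ x ∈ FixSet f, Computable (cutFn x) := by
  obtain ⟨x, hx, s, hs, h⟩ := exists_comp_seq hf htd
  refine ⟨x, hx, ?_⟩
  have hm : Computable fun k => (s k).1 := Computable.fst.comp hs
  have h1 := comp_cut (x := x.1) hm (Computable.fst.comp (Computable.snd.comp hs)) fun k => by
    have := h k
    rw [pt, Prod.dist_eq, max_le_iff, Real.dist_eq, Real.dist_eq] at this
    exact this.1
  have h2 := comp_cut (x := x.2) hm (Computable.snd.comp (Computable.snd.comp hs)) fun k => by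
    have := h k
    rw [pt, Prod.dist_eq, max_le_iff, Real.dist_eq, Real.dist_eq] at this
    exact this.2
  classical
  have g1 : Computable fun n : ℕ => if ((ratOf n.unpair.2 : ℚ) : ℝ) < x.1 then 1 else 0 := by
    have := (h1.decide).comp (Computable.snd.comp Computable.unpair)
    exact (Computable.cond this (Computable.const 1) (Computable.const 0)).of_eq fun n => by
      simp [Bool.cond_decide]
  have g2 : Computable fun n : ℕ => if ((ratOf n.unpair.2 : ℚ) : ℝ) < x.2 then 1 else 0 := by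
    have := (h2.decide).comp (Computable.snd.comp Computable.unpair)
    exact (Computable.cond this (Computable.const 1) (Computable.const 0)).of_eq fun n => by
      simp [Bool.cond_decide]
  have g0 : Computable fun n : ℕ => decide (n.unpair.1 = 0) :=
    (Primrec.eq.decide.comp (fst.comp unpair) (Primrec.const 0)).to_comp
  refine (Computable.cond g0 g1 g2).of_eq fun n => ?_
  unfold cutFn
  by_cases hn : n.unpair.1 = 0
  · simp [hn]
  · simp [hn]

end Pool.Agent.H75.Fix
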