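import Pool.Agent.H75.GridSplit

/-! The step of the search for a zero: shrinking a certified region of odd index. -/

namespace Pool.Agent.H75.Fix

open Finset

theorem exists_partition {K : Set (ℝ × ℝ)} (hK : IsCompact K) (htd : IsTotallyDisconnected K)
    {ε : ℝ} (hε : 0 < ε) :
    ∃ (n : ℕ) (ρ : ℝ × ℝ → Fin n → Bool) (η : ℝ), 0 < η ∧
      (∀ x ∈ K, ∀ y ∈ K, dist x y < η → ρ x = ρ y) ∧
      ∀ x ∈ K, ∀ y ∈ K, ρ x = ρ y → dist x y < ε := by
  classical
  have : CompactSpace K := isCompact_iff_compactSpace.1 hK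
  have : TotallyDisconnectedSpace K := totallyDisconnectedSpace_subtype_iff.2 htd
  have h1 : ∀ x : K, ∃ V : Set K, IsClopen V ∧ x ∈ V ∧ V ⊆ Metric.ball x (ε / 2) := fun x =>
    compact_exists_isClopen_in_isOpen Metric.isOpen_ball (Metric.mem_ball_self (by positivity))
  choose V hV hxV hVb using h1
  obtain ⟨t, ht⟩ := CompactSpace.elim_nhds_subcover V fun x => (hV x).isOpen.mem_nhds (hxV x)
  let g : K → (t → ℝ) := fun x i => (V i).indicator (fun _ => (1 : ℝ)) x
  have hg : Continuous g := by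
    refine continuous_pi fun i => ?_
    exact continuous_const.indicator (by simp [(hV i).frontier_eq])
  have hgu := CompactSpace.uniformContinuous_of_continuous hg
  rw [Metric.uniformContinuous_iff] at hgu
  obtain ⟨η, hη, H⟩ := hgu (1 / 2) (by norm_num)
  let e : t ≃ Fin (Fintype.card t) := Fintype.equivFin t
  refine ⟨Fintype.card t, fun x i => decide (∃ hx : x ∈ K, (⟨x, hx⟩ : K) ∈ V (e.symm i)), η, hη,
    fun x hx y hy hxy => ?_, fun x hx y hy hxy => ?_⟩
  · funext i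
    have h2 := H (a := ⟨x, hx⟩) (b := ⟨y, hy⟩) hxy
    have h3 := lt_of_le_of_lt (dist_le_pi_dist _ _ (e.symm i)) h2
    by_cases c1 : (⟨x, hx⟩ : K) ∈ V (e.symm i) <;> by_cases c2 : (⟨y, hy⟩ : K) ∈ V (e.symm i)
    · simp [hx, hy, c1, c2]
    · exfalso
      simp only [g, Set.indicator_of_mem c1, Set.indicator_of_notMem c2] at h3
      norm_num at h3
    · exfalso
      simp only [g, Set.indicator_of_mem c2, Set.indicator_of_notMem c1] at h3
      norm_num at h3
    · simp [hx, hy, c1, c2]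
  · have h2 : (⟨x, hx⟩ : K) ∈ ⋃ x ∈ t, V x := by rw [ht]; trivial
    simp only [Set.mem_iUnion] at h2
    obtain ⟨z, hz, hxz⟩ := h2
    have h3 := congrFun hxy (e ⟨z, hz⟩)
    simp only [Equiv.symm_apply_apply, hx, hy, exists_true_left, decide_eq_decide] at h3
    have hyz := h3.1 hxz
    have d1 := hVb z hxz
    have d2 := hVb z hyz
    rw [Metric.mem_ball] at d1 d2
    have : dist (⟨x, hx⟩ : K) ⟨y, hy⟩ < ε := by
      calc dist (⟨x, hx⟩ : K) ⟨y, hy⟩ ≤ dist (⟨x, hx⟩ : K) z + dist z ⟨y, hy⟩ := dist_triangle _ _ _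
        _ < ε / 2 + ε / 2 := by
            rw [dist_comm z]
            exact add_lt_add d1 d2
        _ = ε := by ring
    exact this

variable {N P : ℕ → Bx → Prop} {l : ℕ → ℝ × ℝ → ℝ}

theorem cor_div (m r i : ℕ) : cor m (i / 2 ^ r) ≤ cor (m + r) i ∧
    cor (m + r) i ≤ cor m (i / 2 ^ r) + 1 / 2 ^ m := by
  have h2 : (0 : ℝ) < 2 ^ r := by positivity
  have h3 : (0 : ℝ) < 2 ^ m := by positivity
  have e : (i : ℝ) = 2 ^ r * ((i / 2 ^ r : ℕ) : ℝ) + ((i % 2 ^ r : ℕ) : ℝ) := by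
    have := Nat.div_add_mod i (2 ^ r)
    exact_mod_cast this.symm
  have e2 : ((i % 2 ^ r : ℕ) : ℝ) ≤ 2 ^ r := by
    have := (Nat.mod_lt i (by positivity : 0 < 2 ^ r)).le
    exact_mod_cast this
  have e3 : (0 : ℝ) ≤ ((i % 2 ^ r : ℕ) : ℝ) := by positivity
  have e4 : (i : ℝ) / 2 ^ (m + r) = ((i / 2 ^ r : ℕ) : ℝ) / 2 ^ m +
      ((i % 2 ^ r : ℕ) : ℝ) / 2 ^ r / 2 ^ m := by
    rw [e, pow_add]
    field_simp
  have e5 : ((i % 2 ^ r : ℕ) : ℝ) / 2 ^ r ≤ 1 := by
    rw [div_le_one h2]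
    exact e2
  unfold cor
  rw [e4]
  constructor
  · have : (0 : ℝ) ≤ ((i % 2 ^ r : ℕ) : ℝ) / 2 ^ r / 2 ^ m := by positivity
    linarith
  · have : ((i % 2 ^ r : ℕ) : ℝ) / 2 ^ r / 2 ^ m ≤ 1 / 2 ^ m := by gcongr
    linarith

theorem dist_pt_div (m r : ℕ) (p : ℕ × ℕ) :
    dist (pt (m + r) p.1 p.2) (pt m (p.1 / 2 ^ r) (p.2 / 2 ^ r)) ≤ 1 / 2 ^ m := by
  have h1 := cor_div m r p.1
  have h2 := cor_div m r p.2
  rw [pt, pt, Prod.dist_eq, Real.dist_eq, Real.dist_eq, max_le_iff]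
  constructor
  · rw [abs_le]
    have : (0 : ℝ) < 1 / 2 ^ m := by positivity
    constructor <;> linarith [h1.1, h1.2]
  · rw [abs_le]
    have : (0 : ℝ) < 1 / 2 ^ m := by positivity
    constructor <;> linarith [h2.1, h2.2]

/-- every finite set of cells is bounded -/
theorem exists_bound (m : ℕ) (S : Finset (ℕ × ℕ)) :
    ∃ M : ℝ, ∀ p ∈ S, cor m p.1 ≤ M ∧ cor m p.2 ≤ M := by
  refine ⟨∑ p ∈ S, (|cor m p.1| + |cor m p.2|), fun p hp => ?_⟩
  have := Finset.single_le_sum (f := fun p : ℕ × ℕ => |cor m p.1| + |cor m p.2|)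
    (fun i _ => by positivity) hp
  constructor
  · linarith [le_abs_self (cor m p.1), abs_nonneg (cor m p.2)]
  · linarith [le_abs_self (cor m p.2), abs_nonneg (cor m p.1)]

/-- refinement to a level where the cells away from the zeros are certified -/
theorem Sys.refine_fine (h : Sys N P l) {m : ℕ} {S : Finset (ℕ × ℕ)} {c : ℕ × ℕ → ℕ}
    (hc : Cert N P m S c) (hodd : par S (Hc c) (Vc c) = 1) {η : ℝ} (hη : 0 < η) (m₁ : ℕ) :
    ∃ m' S' c', m₁ ≤ m' ∧ m ≤ m' ∧ Cert N P m' S' c' ∧ par S' (Hc c') (Vc c') = 1 ∧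
      (∀ p ∈ S', ∃ q ∈ S, dist (pt m' p.1 p.2) (pt m q.1 q.2) ≤ 1 / 2 ^ m) ∧
      (∀ p ∈ S', (∀ z, Zr l z → η ≤ dist z (pt m' p.1 p.2)) → ∃ k < 3, N k (cellB m' p.1 p.2)) := by
  obtain ⟨M, hM⟩ := exists_bound m S
  obtain ⟨m₀, hm₀⟩ := h.fine (M + 1 / 2 ^ m) η hη
  obtain ⟨S', c', h1, h2, h3⟩ := h.refineN hc hodd (m₀ + m₁)
  refine ⟨m + (m₀ + m₁), S', c', by omega, by omega, h1, h2, fun p hp => ⟨_, h3 p hp, ?_⟩,
    fun p hp hz => ?_⟩
  · exact dist_pt_div _ _ _
  · refine hm₀ _ (by omega) _ _ ?_ ?_ hz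
    · have := (cor_div m (m₀ + m₁) p.1).2
      have h4 := (hM _ (h3 p hp)).1
      simp only at h4
      linarith
    · have := (cor_div m (m₀ + m₁) p.2).2
      have h4 := (hM _ (h3 p hp)).2
      simp only at h4
      linarith

/-- A certified region of odd index has a zero nearby. -/
theorem Sys.exists_zero (h : Sys N P l) {m : ℕ} {S : Finset (ℕ × ℕ)} {c : ℕ × ℕ → ℕ}
    (hc : Cert N P m S c) (hodd : par S (Hc c) (Vc c) = 1) {η : ℝ} (hη : 0 < η) :
    ∃ z, Zr l z ∧ ∃ q ∈ S, dist z (pt m q.1 q.2) < η + 1 / 2 ^ m := by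
  obtain ⟨m', S', c', -, -, h1, h2, h3, h4⟩ := h.refine_fine hc hodd hη 0
  by_contra hcon
  push Not at hcon
  have hall : ∀ p ∈ S', ∃ k < 3, N k (cellB m' p.1 p.2) := by
    intro p hp
    refine h4 p hp fun z hz => ?_
    obtain ⟨q, hq, hd⟩ := h3 p hp
    have h5 := hcon z hz q hq
    have h6 := dist_triangle z (pt m' p.1 p.2) (pt m q.1 q.2)
    linarith
  obtain ⟨v, -⟩ := h.split h1 h2 (ι := Empty) (fun _ => none) (fun p hp _ => hall p hp)
    (fun _ _ _ _ _ v => v.elim)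
  exact v.elim

/-- The step: a certified region of odd index contains one of small diameter, when the set of
zeros is compact and totally disconnected. -/
theorem Sys.step (h : Sys N P l) (hK : IsCompact {x | Zr l x})
    (htd : IsTotallyDisconnected {x | Zr l x}) {m : ℕ} {S : Finset (ℕ × ℕ)} {c : ℕ × ℕ → ℕ}
    (hc : Cert N P m S c) (hodd : par S (Hc c) (Vc c) = 1) {ε : ℝ} (hε : 0 < ε) (m₁ : ℕ) :
    ∃ m' S' c', m₁ ≤ m' ∧ Cert N P m' S' c' ∧ par S' (Hc c') (Vc c') = 1 ∧
      (∀ p ∈ S', ∃ q ∈ S, dist (pt m' p.1 p.2) (pt m q.1 q.2) ≤ 1 / 2 ^ m) ∧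
      ∀ p ∈ S', ∀ q ∈ S', dist (pt m' p.1 p.2) (pt m' q.1 q.2) < ε := by
  classical
  obtain ⟨n, ρ, η₀, hη₀, hρ1, hρ2⟩ := exists_partition hK htd (half_pos hε)
  set η := min (η₀ / 4) (ε / 4) with hη
  have hηpos : 0 < η := lt_min (by positivity) (by positivity)
  obtain ⟨m₂, hm₂⟩ := exists_pow_lt_of_lt_one hηpos (by norm_num : (1 / 2 : ℝ) < 1)
  obtain ⟨m', S', c', hm1, -, h1, h2, h3, h4⟩ := h.refine_fine hc hodd hηpos (max m₁ m₂)
  have hside : (1 : ℝ) / 2 ^ m' < η := by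
    have : (1 / 2 : ℝ) ^ m' ≤ (1 / 2) ^ m₂ :=
      pow_le_pow_of_le_one (by norm_num) (by norm_num) (le_trans (le_max_right _ _) hm1)
    rw [one_div_pow] at this
    exact lt_of_le_of_lt this hm₂
  let cl : ℕ × ℕ → Option (Fin n → Bool) := fun p =>
    if hz : ∃ z, Zr l z ∧ dist z (pt m' p.1 p.2) < η then some (ρ hz.choose) else none
  have hcl : ∀ p v, cl p = some v → ∃ z, Zr l z ∧ dist z (pt m' p.1 p.2) < η ∧ ρ z = v := by
    intro p v hp
    simp only [cl] at hp
    split_ifs at hp with hz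
    · exact ⟨_, hz.choose_spec.1, hz.choose_spec.2, by simpa using hp⟩
  have hgood : ∀ p ∈ S', cl p = none → ∃ k < 3, N k (cellB m' p.1 p.2) := by
    intro p hp hn
    refine h4 p hp fun z hz => ?_
    by_contra hlt
    push Not at hlt
    have : ∃ z, Zr l z ∧ dist z (pt m' p.1 p.2) < η := ⟨z, hz, hlt⟩
    simp only [cl, dif_pos this] at hn
    exact Option.some_ne_none _ hn
  have hadj : ∀ p ∈ S', ∀ q ∈ S', (q = (p.1, p.2 + 1) ∨ q = (p.1 + 1, p.2)) →
      ∀ v w, cl p = some v → cl q = some w → v = w := by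
    intro p _ q _ hpq v w hv hw
    obtain ⟨z, hz, hzd, rfl⟩ := hcl p v hv
    obtain ⟨z', hz', hzd', rfl⟩ := hcl q w hw
    refine hρ1 z hz z' hz' ?_
    have hpq' : dist (pt m' p.1 p.2) (pt m' q.1 q.2) < η := by
      rcases hpq with rfl | rfl
      · simp only [pt, Prod.dist_eq, dist_self, cor_succ, Real.dist_eq]
        rw [sub_add_cancel_left, abs_neg, abs_of_pos (by positivity : (0 : ℝ) < 1 / 2 ^ m')]
        exact max_lt hηpos hside
      · simp only [pt, Prod.dist_eq, dist_self, cor_succ, Real.dist_eq]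
        rw [sub_add_cancel_left, abs_neg, abs_of_pos (by positivity : (0 : ℝ) < 1 / 2 ^ m')]
        exact max_lt hside hηpos
    have t1 := dist_triangle z (pt m' p.1 p.2) z'
    have t2 := dist_triangle (pt m' p.1 p.2) (pt m' q.1 q.2) z'
    rw [dist_comm (pt m' q.1 q.2) z'] at t2
    have : η ≤ η₀ / 4 := min_le_left _ _
    linarith
  obtain ⟨v, c'', h5, h6⟩ := h.split h1 h2 cl hgood hadj
  refine ⟨m', _, c'', le_trans (le_max_left _ _) hm1, h5, h6, fun p hp => ?_, fun p hp q hq => ?_⟩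
  · exact h3 p (Finset.mem_filter.1 hp).1
  · obtain ⟨z, hz, hzd, hzv⟩ := hcl p v (Finset.mem_filter.1 hp).2
    obtain ⟨z', hz', hzd', hzv'⟩ := hcl q v (Finset.mem_filter.1 hq).2
    have h7 := hρ2 z hz z' hz' (hzv.trans hzv'.symm)
    have t1 := dist_triangle (pt m' p.1 p.2) z (pt m' q.1 q.2)
    have t2 := dist_triangle z z' (pt m' q.1 q.2)
    rw [dist_comm (pt m' p.1 p.2) z] at t1
    have : η ≤ ε / 4 := min_le_right _ _
    linarith

/-- the colouring used on the boundary of the big square -/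
def c0 (n : ℕ) (p : ℕ × ℕ) : ℕ := if p.1 = n ∨ p.2 = n then 2 else if p.1 = 0 then 0 else 1

theorem par_c0 {n : ℕ} (hn : 2 ≤ n) :
    par (Finset.range n ×ˢ Finset.range n) (Hc (c0 n)) (Vc (c0 n)) = 1 := by
  unfold par
  rw [Finset.sum_eq_single (0, n - 1)]
  · have e1 : n - 1 + 1 = n := by omega
    have e2 : n - 1 ≠ n := by omega
    have e3 : (0 : ℕ) ≠ n := by omega
    have e4 : 1 ≠ n := by omega
    simp [Hc, Vc, c0, chi, e1, e2, e3, e4]
  · rintro ⟨i, j⟩ hp hne
    simp only [Finset.mem_product, Finset.mem_range] at hp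
    have hi : i ≠ n := by omega
    have hj : j ≠ n := by omega
    rcases Nat.eq_zero_or_pos i with rfl | hi0
    · have hj' : j + 1 ≠ n := by
        intro hjn
        apply hne
        ext
        · rfl
        · simp only
          omega
      have e4 : (1 : ℕ) ≠ n := by omega
      simp [Hc, Vc, c0, chi, hi, hj, hj', e4]
      decide
    · have hi0' : i ≠ 0 := by omega
      by_cases h1 : i + 1 = n <;> by_cases h2 : j + 1 = n <;>
        simp [Hc, Vc, c0, chi, hi, hj, h1, h2, hi0']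
  · intro hcon
    exfalso
    apply hcon
    simp only [Finset.mem_product, Finset.mem_range]
    omega

/-- The initial certified region. -/
theorem Sys.init (h : Sys N P l) (hK : ∀ x, Zr l x → x ∈ Set.Icc (0 : ℝ) 1 ×ˢ Set.Icc (0 : ℝ) 1) :
    ∃ m S c, Cert N P m S c ∧ par S (Hc c) (Vc c) = 1 := by
  obtain ⟨m, hm⟩ := h.fine 7 (1 / 2) (by norm_num)
  set n := 8 * 2 ^ (m + 1) with hn
  have hn2 : 2 ≤ n := by
    have : 1 ≤ 2 ^ (m + 1) := Nat.one_le_two_pow
    omega
  have hcn : cor (m + 1) n = 7 := by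
    unfold cor
    rw [hn]
    push_cast
    field_simp
    norm_num
  have hc0 : cor (m + 1) 0 = -1 := by
    unfold cor
    simp
  have hge : ∀ i : ℕ, -1 ≤ cor (m + 1) i := by
    intro i
    rw [← hc0]
    exact cor_mono (Nat.zero_le _)
  have hle : ∀ i : ℕ, i ≤ n → cor (m + 1) i ≤ 7 := by
    intro i hi
    rw [← hcn]
    exact cor_mono hi
  -- the cells along the boundary are certified
  have hs : (1 : ℝ) / 2 ^ (m + 1) ≤ 1 / 2 := by
    have : (1 / 2 : ℝ) ^ (m + 1) ≤ (1 / 2) ^ 1 :=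
      pow_le_pow_of_le_one (by norm_num) (by norm_num) (by omega)
    rw [one_div_pow, pow_one] at this
    exact this
  have hcell : ∀ i j : ℕ, i < n → j < n →
      (i = 0 ∨ j = 0 ∨ i + 1 = n ∨ j + 1 = n) → ∃ k < 3, N k (cellB (m + 1) i j) := by
    intro i j hi hj hb
    refine hm (m + 1) (by omega) i j (hle _ hi.le) (hle _ hj.le) fun z hz => ?_
    have hzK := hK z hz
    simp only [Set.mem_prod, Set.mem_Icc] at hzK
    obtain ⟨⟨z1, z2⟩, z3, z4⟩ := hzK
    rw [pt, Prod.dist_eq, Real.dist_eq, Real.dist_eq]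
    rcases hb with rfl | rfl | hb | hb
    · refine le_trans ?_ (le_max_left _ _)
      rw [hc0]
      simp only
      refine le_trans ?_ (le_abs_self _)
      linarith
    · refine le_trans ?_ (le_max_right _ _)
      rw [hc0]
      simp only
      refine le_trans ?_ (le_abs_self _)
      linarith
    · refine le_trans ?_ (le_max_left _ _)
      have := cor_succ (m + 1) i
      rw [hb, hcn] at this
      simp only
      rw [abs_sub_comm]
      refine le_trans ?_ (le_abs_self _)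
      linarith
    · refine le_trans ?_ (le_max_right _ _)
      have := cor_succ (m + 1) j
      rw [hb, hcn] at this
      simp only
      rw [abs_sub_comm]
      refine le_trans ?_ (le_abs_self _)
      linarith
  -- the colours of the boundary vertices are certified
  have hP : ∀ k < 3, ∀ i j : ℕ, 0 < l k (pt (m + 1) i j) → P k (vx (m + 1) i j) := by
    intro k hk i j hpos
    obtain ⟨ε, hε, H⟩ := h.c2 k hk _ hpos
    exact H _ (near_vx _ _ _ hε)
  have hval : ∀ i j : ℕ, i ≤ n → j ≤ n → (i = 0 ∨ j = 0 ∨ i = n ∨ j = n) →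
      Val P (m + 1) (c0 n) (i, j) := by
    intro i j hi hj hb
    by_cases h1 : i = n ∨ j = n
    · have e : c0 n (i, j) = 2 := by simp [c0, h1]
      unfold Val
      rw [e]
      refine ⟨by norm_num, hP 2 (by norm_num) i j (h.bd2 _ (hge _) (hge _) ?_)⟩
      simp only [pt]
      rcases h1 with rfl | rfl
      · exact Or.inl hcn
      · exact Or.inr hcn
    · by_cases h2 : i = 0
      · have e : c0 n (i, j) = 0 := by
          unfold c0
          rw [if_neg h1, if_pos h2]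
        unfold Val
        rw [e]
        refine ⟨by norm_num, hP 0 (by norm_num) i j (h.bd0 _ ?_)⟩
        simp only [pt, h2]
        exact hc0
      · have e : c0 n (i, j) = 1 := by simp [c0, h1, h2]
        unfold Val
        rw [e]
        have h3 : j = 0 := by
          push Not at h1
          omega
        refine ⟨by norm_num, hP 1 (by norm_num) i j (h.bd1 _ ?_)⟩
        simp only [pt, h3]
        exact hc0
  refine ⟨m + 1, Finset.range n ×ˢ Finset.range n, c0 n, ?_, par_c0 hn2⟩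
  rintro ⟨i, j⟩ hp
  simp only [Finset.mem_product, Finset.mem_range] at hp
  simp only [Finset.mem_product, Finset.mem_range]
  refine ⟨fun hb => ?_, fun hb => ?_, fun hb => ?_, fun hb => ?_⟩
  · have hj : j + 1 = n := by omega
    obtain ⟨k, hk, hN⟩ := hcell i j hp.1 hp.2 (by omega)
    exact ⟨⟨k, hk, h.mN k hk _ _ (hE_sub_cell' _ _ _) hN⟩, hval _ _ (by omega) (by omega) (by omega),
      hval _ _ (by omega) (by omega) (by omega)⟩
  · have hj : j = 0 := by
      by_contra hj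
      exact hb (j - 1) (by omega) ⟨hp.1, by omega⟩
    obtain ⟨k, hk, hN⟩ := hcell i j hp.1 hp.2 (by omega)
    exact ⟨⟨k, hk, h.mN k hk _ _ (hE_sub_cell _ _ _) hN⟩, hval _ _ (by omega) (by omega) (by omega),
      hval _ _ (by omega) (by omega) (by omega)⟩
  · have hi : i + 1 = n := by omega
    obtain ⟨k, hk, hN⟩ := hcell i j hp.1 hp.2 (by omega)
    exact ⟨⟨k, hk, h.mN k hk _ _ (vE_sub_cell' _ _ _) hN⟩, hval _ _ (by omega) (by omega) (by omega),
      hval _ _ (by omega) (by omega) (by omega)⟩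
  · have hi : i = 0 := by
      by_contra hi
      exact hb (i - 1) (by omega) ⟨by omega, hp.2⟩
    obtain ⟨k, hk, hN⟩ := hcell i j hp.1 hp.2 (by omega)
    exact ⟨⟨k, hk, h.mN k hk _ _ (vE_sub_cell _ _ _) hN⟩, hval _ _ (by omega) (by omega) (by omega),
      hval _ _ (by omega) (by omega) (by omega)⟩

end Pool.Agent.H75.Fix
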