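import Pool.Agent.H75.RatPrim
import Pool.Agent.H75.GridStep

/-! Certificates for the sign of the displacement of a computable map. -/

namespace Pool.Agent.H75.Fix

open Encodable

theorem co_cast (m i : ℕ) : ((co m i : ℚ) : ℝ) = cor m i := by
  unfold co cor
  push_cast
  ring

theorem abs_fst_le_eDist (x y : ℝ × ℝ) : |x.1 - y.1| ≤ eDist x y := by
  unfold eDist
  exact Real.abs_le_sqrt (by nlinarith [sq_nonneg (x.2 - y.2)])

theorem abs_snd_le_eDist (x y : ℝ × ℝ) : |x.2 - y.2| ≤ eDist x y := by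
  unfold eDist
  exact Real.abs_le_sqrt (by nlinarith [sq_nonneg (x.1 - y.1)])

theorem eDist_le_add (x y : ℝ × ℝ) : eDist x y ≤ |x.1 - y.1| + |x.2 - y.2| := by
  unfold eDist
  rw [Real.sqrt_le_left (by positivity)]
  have h1 := abs_nonneg (x.1 - y.1)
  have h2 := abs_nonneg (x.2 - y.2)
  have h3 := sq_abs (x.1 - y.1)
  have h4 := sq_abs (x.2 - y.2)
  nlinarith [mul_nonneg h1 h2]

theorem exists_ptOf (y : ℝ × ℝ) {ε : ℝ} (hε : 0 < ε) :
    ∃ s, |(ptOf s).1 - y.1| ≤ ε ∧ |(ptOf s).2 - y.2| ≤ ε := by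
  obtain ⟨q1, h1, h1'⟩ := exists_rat_btwn (show y.1 < y.1 + ε by linarith)
  obtain ⟨q2, h2, h2'⟩ := exists_rat_btwn (show y.2 < y.2 + ε by linarith)
  obtain ⟨a, ha⟩ := exists_ratOf q1
  obtain ⟨b, hb⟩ := exists_ratOf q2
  refine ⟨Nat.pair a b, ?_, ?_⟩
  · simp only [ptOf, Nat.unpair_pair, ha]
    rw [abs_le]
    constructor <;> linarith
  · simp only [ptOf, Nat.unpair_pair, hb]
    rw [abs_le]
    constructor <;> linarith

/-- a name with small errors -/
theorem exists_name (y : ℝ × ℝ) : ∃ p : ℕ → ℕ, IsName p y ∧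
    ∀ k, |(ptOf (p k)).1 - y.1| ≤ (1 / 2) ^ (k + 2) ∧ |(ptOf (p k)).2 - y.2| ≤ (1 / 2) ^ (k + 2) := by
  have h : ∀ k : ℕ, ∃ s, |(ptOf s).1 - y.1| ≤ (1 / 2 : ℝ) ^ (k + 2) ∧
      |(ptOf s).2 - y.2| ≤ (1 / 2 : ℝ) ^ (k + 2) := fun k => exists_ptOf y (by positivity)
  choose p hp using h
  refine ⟨p, fun k => (eDist_le_add _ _).trans ?_, hp⟩
  have h1 := (hp k).1
  have h2 := (hp k).2
  have h3 : (1 / 2 : ℝ) ^ (k + 2) = (1 / 2) ^ k / 4 := by ring
  have h4 : (0 : ℝ) < (1 / 2) ^ k := by positivity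
  rw [h3] at h1 h2
  linarith

/-- finite part of an oracle -/
def preO (σ : List ℕ) : ℕ →. ℕ := fun i => ((σ[i]? : Option ℕ) : Part ℕ)

theorem mem_preO_map {p : ℕ → ℕ} {k i m : ℕ} :
    m ∈ preO ((List.range k).map p) i ↔ i < k ∧ m = p i := by
  unfold preO
  rw [Part.mem_coe, List.getElem?_map]
  by_cases hi : i < k
  · rw [List.getElem?_range hi]
    simp [hi, eq_comm]
  · rw [List.getElem?_eq_none (by simpa using hi)]
    simp [hi]

theorem preO_partrec : Partrec₂ preO := by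
  unfold preO
  exact (Primrec.list_getElem?.comp Primrec.fst Primrec.snd).to_comp.ofOption

/-- rational clamp -/
def clq (x : ℚ) : ℚ := max 0 (min 1 x)

def condLo (r h y : ℚ) : Prop := r - h ≤ 0 ∨ (r - h ≤ 1 ∧ r - h ≤ y)

def condHi (r h y : ℚ) : Prop := 0 ≤ r + h ∧ (1 ≤ r + h ∨ y ≤ r + h)

theorem condLo_iff (r h y : ℚ) : condLo r h y ↔ r - h ≤ clq y := by
  unfold condLo clq
  rw [le_max_iff, le_min_iff]

theorem condHi_iff (r h y : ℚ) : condHi r h y ↔ clq y ≤ r + h := by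
  unfold condHi clq
  rw [max_le_iff, min_le_iff]

/-- `s` may be the `j`-th term of a name of the clamped image of any point of the box `b` -/
def condB (b : Bx) (s j : ℕ) : Prop :=
  condLo (ratOf s.unpair.1) ((1 / 2) ^ (j + 1)) (co b.1 b.2.1) ∧
  condHi (ratOf s.unpair.1) ((1 / 2) ^ (j + 1)) (co b.1 b.2.2.1) ∧
  condLo (ratOf s.unpair.2) ((1 / 2) ^ (j + 1)) (co b.1 b.2.2.2.1) ∧
  condHi (ratOf s.unpair.2) ((1 / 2) ^ (j + 1)) (co b.1 b.2.2.2.2)

def Enc (c : OCode) (b : Bx) (w n : ℕ) : Prop :=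
  ∃ σ : List ℕ, (∀ j ∈ List.range σ.length, condB b (σ.getD j 0) j) ∧ w ∈ c.eval (preO σ) n

/-- real clamp of the plane to the square -/
noncomputable def clR (x : ℝ × ℝ) : ℝ × ℝ := (max 0 (min 1 x.1), max 0 (min 1 x.2))

theorem clR_mem (x : ℝ × ℝ) : clR x ∈ Square := by
  unfold clR Square
  refine ⟨⟨le_max_left _ _, max_le zero_le_one (min_le_left _ _)⟩,
    ⟨le_max_left _ _, max_le zero_le_one (min_le_left _ _)⟩⟩

theorem clR_of_mem {x : ℝ × ℝ} (hx : x ∈ Square) : clR x = x := by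
  unfold Square at hx
  obtain ⟨⟨h1, h2⟩, h3, h4⟩ := hx
  unfold clR
  rw [min_eq_right h2, max_eq_right h1, min_eq_right h4, max_eq_right h3]

theorem clq_cast (y : ℚ) : ((clq y : ℚ) : ℝ) = max 0 (min 1 (y : ℝ)) := by
  unfold clq
  push_cast
  rfl

theorem cl1_mono {x y : ℝ} (h : x ≤ y) : max 0 (min 1 x) ≤ max 0 (min 1 y) :=
  max_le_max le_rfl (min_le_min le_rfl h)

theorem cl1_lip (x y : ℝ) : |max 0 (min 1 x) - max 0 (min 1 y)| ≤ |x - y| := by
  have h1 := abs_max_sub_max_le_abs (min 1 x) (min 1 y) 0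
  have h2 := abs_min_sub_min_le_max 1 x 1 y
  rw [max_comm 0, max_comm 0]
  refine h1.trans (h2.trans ?_)
  simp

theorem clq_mono {x y : ℚ} (h : x ≤ y) : clq x ≤ clq y :=
  max_le_max le_rfl (min_le_min le_rfl h)

theorem enc_sound {c : OCode} {f : ℝ × ℝ → ℝ × ℝ} (hf : Computes c f Square) {b : Bx} {w n : ℕ}
    (h : Enc c b w n) {x : ℝ × ℝ} (hx : x ∈ bset b) :
    |(ptOf w).1 - (f (clR x)).1| ≤ (1 / 2) ^ n ∧ |(ptOf w).2 - (f (clR x)).2| ≤ (1 / 2) ^ n := by
  obtain ⟨σ, hσ, hw⟩ := h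
  obtain ⟨p', hp', -⟩ := exists_name (clR x)
  set p : ℕ → ℕ := fun k => if k < σ.length then σ.getD k 0 else p' k with hp
  have hname : IsName p (clR x) := by
    intro k
    by_cases hk : k < σ.length
    · have e : p k = σ.getD k 0 := by simp only [hp, hk, if_true]
      rw [e]
      obtain ⟨c1, c2, c3, c4⟩ := hσ k (List.mem_range.2 hk)
      rw [condLo_iff, ← Rat.cast_le (K := ℝ)] at c1 c3
      rw [condHi_iff, ← Rat.cast_le (K := ℝ)] at c2 c4
      push_cast [clq_cast, co_cast] at c1 c2 c3 c4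
      obtain ⟨⟨x1, x2⟩, x3, x4⟩ := hx
      have m1 := cl1_mono x1
      have m2 := cl1_mono x2
      have m3 := cl1_mono x3
      have m4 := cl1_mono x4
      refine (eDist_le_add _ _).trans ?_
      have a1 : |(ptOf (σ.getD k 0)).1 - (clR x).1| ≤ (1 / 2) ^ (k + 1) := by
        simp only [ptOf, clR]
        rw [abs_le]
        constructor <;> linarith
      have a2 : |(ptOf (σ.getD k 0)).2 - (clR x).2| ≤ (1 / 2) ^ (k + 1) := by
        simp only [ptOf, clR]
        rw [abs_le]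
        constructor <;> linarith
      have h3 : (1 / 2 : ℝ) ^ (k + 1) = (1 / 2) ^ k / 2 := by ring
      rw [h3] at a1 a2
      linarith
    · have e : p k = p' k := by simp only [hp, hk, if_false]
      rw [e]
      exact hp' k
  obtain ⟨m, hm, hd⟩ := hf _ (clR_mem x) p hname n
  have hw' : w ∈ c.eval (fun k => Part.some (p k)) n := by
    refine OCode.eval_mono (fun i v hv => ?_) c n w hw
    unfold preO at hv
    rw [Part.mem_coe, Option.mem_def, List.getElem?_eq_some_iff] at hv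
    obtain ⟨hi, hv⟩ := hv
    rw [Part.mem_some_iff, ← hv]
    simp only [hp, hi, if_true, List.getD_eq_getElem _ _ hi]
  have hmw : m = w := Part.mem_unique hm hw'
  rw [hmw] at hd
  exact ⟨(abs_fst_le_eDist _ _).trans hd, (abs_snd_le_eDist _ _).trans hd⟩

theorem enc_complete {c : OCode} {f : ℝ × ℝ → ℝ × ℝ} (hf : Computes c f Square) (x : ℝ × ℝ)
    (n : ℕ) : ∃ w, ∃ ε > 0, (|(ptOf w).1 - (f (clR x)).1| ≤ (1 / 2) ^ n ∧
      |(ptOf w).2 - (f (clR x)).2| ≤ (1 / 2) ^ n) ∧ ∀ b, Near b x ε → Enc c b w n := by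
  obtain ⟨p, hp, hp2⟩ := exists_name (clR x)
  obtain ⟨w, hw, hd⟩ := hf _ (clR_mem x) p hp n
  obtain ⟨k, hk⟩ := OCode.eval_use (G := fun k => preO ((List.range k).map p))
    (fun k i m hm => by
      rw [mem_preO_map] at hm ⊢
      exact ⟨by omega, hm.2⟩)
    (g := fun k => Part.some (p k))
    (fun i m hm => ⟨i + 1, by
      rw [mem_preO_map]
      exact ⟨by omega, Part.mem_some_iff.1 hm⟩⟩) c n w hw
  refine ⟨w, (1 / 2) ^ (k + 2), by positivity, ⟨(abs_fst_le_eDist _ _).trans hd,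
    (abs_snd_le_eDist _ _).trans hd⟩, fun b hb => ⟨_, fun j hj => ?_, hk⟩⟩
  rw [List.length_map, List.length_range, List.mem_range] at hj
  have e : ((List.range k).map p).getD j 0 = p j := by
    rw [List.getD_eq_getElem _ _ (by simpa using hj)]
    simp
  rw [e]
  obtain ⟨b1, b2, b3, b4⟩ := hb
  have l1 := (cl1_lip (cor b.1 b.2.1) x.1).trans b1.le
  have l2 := (cl1_lip (cor b.1 b.2.2.1) x.1).trans b2.le
  have l3 := (cl1_lip (cor b.1 b.2.2.2.1) x.2).trans b3.le
  have l4 := (cl1_lip (cor b.1 b.2.2.2.2) x.2).trans b4.le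
  have q1 := (hp2 j).1
  have q2 := (hp2 j).2
  have hjk : (1 / 2 : ℝ) ^ (k + 2) ≤ (1 / 2) ^ (j + 2) :=
    pow_le_pow_of_le_one (by norm_num) (by norm_num) (by omega)
  have h2 : (1 / 2 : ℝ) ^ (j + 1) = 2 * (1 / 2) ^ (j + 2) := by ring
  simp only [ptOf, clR] at q1 q2
  rw [abs_le] at l1 l2 l3 l4 q1 q2
  refine ⟨?_, ?_, ?_, ?_⟩
  · rw [condLo_iff, ← Rat.cast_le (K := ℝ)]
    push_cast [clq_cast, co_cast]
    rw [h2]
    linarith
  · rw [condHi_iff, ← Rat.cast_le (K := ℝ)]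
    push_cast [clq_cast, co_cast]
    rw [h2]
    linarith
  · rw [condLo_iff, ← Rat.cast_le (K := ℝ)]
    push_cast [clq_cast, co_cast]
    rw [h2]
    linarith
  · rw [condHi_iff, ← Rat.cast_le (K := ℝ)]
    push_cast [clq_cast, co_cast]
    rw [h2]
    linarith

theorem condB_mono {b b' : Bx} (h : SubB b' b) {s j : ℕ} (hc : condB b s j) : condB b' s j := by
  obtain ⟨h1, h2, h3, h4⟩ := h
  rw [← co_cast, ← co_cast, Rat.cast_le] at h1 h2 h3 h4
  obtain ⟨c1, c2, c3, c4⟩ := hc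
  rw [condLo_iff] at c1 c3
  rw [condHi_iff] at c2 c4
  refine ⟨?_, ?_, ?_, ?_⟩
  · rw [condLo_iff]
    exact c1.trans (clq_mono h1)
  · rw [condHi_iff]
    exact (clq_mono h2).trans c2
  · rw [condLo_iff]
    exact c3.trans (clq_mono h3)
  · rw [condHi_iff]
    exact (clq_mono h4).trans c4

theorem enc_mono {c : OCode} {b b' : Bx} (h : SubB b' b) {w n : ℕ} (he : Enc c b w n) :
    Enc c b' w n := by
  obtain ⟨σ, h1, h2⟩ := he
  exact ⟨σ, fun j hj => condB_mono h (h1 j hj), h2⟩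

def ncond (k : ℕ) (b : Bx) (w n : ℕ) : Prop :=
  match k with
  | 0 => ratOf w.unpair.1 + (1 / 2) ^ n < co b.1 b.2.1
  | 1 => ratOf w.unpair.2 + (1 / 2) ^ n < co b.1 b.2.2.2.1
  | _ => co b.1 b.2.2.1 + co b.1 b.2.2.2.2 <
      ratOf w.unpair.1 + ratOf w.unpair.2 - ((1 / 2) ^ n + (1 / 2) ^ n)

def pcond (k : ℕ) (b : Bx) (w n : ℕ) : Prop :=
  match k with
  | 0 => co b.1 b.2.2.1 < ratOf w.unpair.1 - (1 / 2) ^ n
  | 1 => co b.1 b.2.2.2.2 < ratOf w.unpair.2 - (1 / 2) ^ n
  | _ => ratOf w.unpair.1 + ratOf w.unpair.2 + ((1 / 2) ^ n + (1 / 2) ^ n) <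
      co b.1 b.2.1 + co b.1 b.2.2.2.1

def NN (c : OCode) (k : ℕ) (b : Bx) : Prop := ∃ w n, Enc c b w n ∧ ncond k b w n

def PP (c : OCode) (k : ℕ) (b : Bx) : Prop := ∃ w n, Enc c b w n ∧ pcond k b w n

/-- the three linear functions of the displacement -/
noncomputable def ll (f : ℝ × ℝ → ℝ × ℝ) (k : ℕ) (x : ℝ × ℝ) : ℝ :=
  match k with
  | 0 => (f (clR x)).1 - x.1
  | 1 => (f (clR x)).2 - x.2
  | _ => - ((f (clR x)).1 - x.1) - ((f (clR x)).2 - x.2)

theorem exists_half_lt {a : ℝ} (ha : 0 < a) : ∃ n : ℕ, (1 / 2 : ℝ) ^ n < a :=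
  exists_pow_lt_of_lt_one ha (by norm_num)

theorem sys_of_computes {c : OCode} {f : ℝ × ℝ → ℝ × ℝ} (hf : Computes c f Square)
    (hmaps : Set.MapsTo f Square Square) : Sys (NN c) (PP c) (ll f) where
  sumz x := by simp only [ll]; ring
  s1 := by
    rintro k hk b ⟨w, n, he, hn⟩ x hx
    obtain ⟨e1, e2⟩ := enc_sound hf he hx
    obtain ⟨⟨x1, x2⟩, x3, x4⟩ := hx
    rw [abs_le] at e1 e2
    simp only [ptOf] at e1 e2
    interval_cases k
    · simp only [ncond] at hn
      rw [← Rat.cast_lt (K := ℝ)] at hn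
      push_cast [co_cast] at hn
      simp only [ll]
      linarith
    · simp only [ncond] at hn
      rw [← Rat.cast_lt (K := ℝ)] at hn
      push_cast [co_cast] at hn
      simp only [ll]
      linarith
    · simp only [ncond] at hn
      rw [← Rat.cast_lt (K := ℝ)] at hn
      push_cast [co_cast] at hn
      simp only [ll]
      linarith
  s2 := by
    rintro k hk b ⟨w, n, he, hn⟩ x hx
    obtain ⟨e1, e2⟩ := enc_sound hf he hx
    obtain ⟨⟨x1, x2⟩, x3, x4⟩ := hx
    rw [abs_le] at e1 e2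
    simp only [ptOf] at e1 e2
    interval_cases k
    · simp only [pcond] at hn
      rw [← Rat.cast_lt (K := ℝ)] at hn
      push_cast [co_cast] at hn
      simp only [ll]
      linarith
    · simp only [pcond] at hn
      rw [← Rat.cast_lt (K := ℝ)] at hn
      push_cast [co_cast] at hn
      simp only [ll]
      linarith
    · simp only [pcond] at hn
      rw [← Rat.cast_lt (K := ℝ)] at hn
      push_cast [co_cast] at hn
      simp only [ll]
      linarith
  c1 := by
    rintro k hk x hx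
    obtain ⟨n, hn⟩ := exists_half_lt (show 0 < - ll f k x / 8 by linarith)
    obtain ⟨w, ε, hε, ⟨e1, e2⟩, H⟩ := enc_complete hf x n
    refine ⟨min ε (- ll f k x / 8), lt_min hε (by linarith), fun b hb => ⟨w, n, H b ?_, ?_⟩⟩
    · obtain ⟨b1, b2, b3, b4⟩ := hb
      exact ⟨b1.trans_le (min_le_left _ _), b2.trans_le (min_le_left _ _),
        b3.trans_le (min_le_left _ _), b4.trans_le (min_le_left _ _)⟩
    · obtain ⟨b1, b2, b3, b4⟩ := hb
      have b1 := b1.trans_le (min_le_right _ _)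
      have b2 := b2.trans_le (min_le_right _ _)
      have b3 := b3.trans_le (min_le_right _ _)
      have b4 := b4.trans_le (min_le_right _ _)
      rw [abs_lt] at b1 b2 b3 b4
      rw [abs_le] at e1 e2
      simp only [ptOf] at e1 e2
      interval_cases k
      · simp only [ncond]
        rw [← Rat.cast_lt (K := ℝ)]
        push_cast [co_cast]
        simp only [ll] at hx hn b1
        linarith
      · simp only [ncond]
        rw [← Rat.cast_lt (K := ℝ)]
        push_cast [co_cast]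
        simp only [ll] at hx hn b3
        linarith
      · simp only [ncond]
        rw [← Rat.cast_lt (K := ℝ)]
        push_cast [co_cast]
        simp only [ll] at hx hn b2 b4
        linarith
  c2 := by
    rintro k hk x hx
    obtain ⟨n, hn⟩ := exists_half_lt (show 0 < ll f k x / 8 by linarith)
    obtain ⟨w, ε, hε, ⟨e1, e2⟩, H⟩ := enc_complete hf x n
    refine ⟨min ε (ll f k x / 8), lt_min hε (by linarith), fun b hb => ⟨w, n, H b ?_, ?_⟩⟩
    · obtain ⟨b1, b2, b3, b4⟩ := hb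
      exact ⟨b1.trans_le (min_le_left _ _), b2.trans_le (min_le_left _ _),
        b3.trans_le (min_le_left _ _), b4.trans_le (min_le_left _ _)⟩
    · obtain ⟨b1, b2, b3, b4⟩ := hb
      have b1 := b1.trans_le (min_le_right _ _)
      have b2 := b2.trans_le (min_le_right _ _)
      have b3 := b3.trans_le (min_le_right _ _)
      have b4 := b4.trans_le (min_le_right _ _)
      rw [abs_lt] at b1 b2 b3 b4
      rw [abs_le] at e1 e2
      simp only [ptOf] at e1 e2
      interval_cases k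
      · simp only [pcond]
        rw [← Rat.cast_lt (K := ℝ)]
        push_cast [co_cast]
        simp only [ll] at hx hn b2
        linarith
      · simp only [pcond]
        rw [← Rat.cast_lt (K := ℝ)]
        push_cast [co_cast]
        simp only [ll] at hx hn b4
        linarith
      · simp only [pcond]
        rw [← Rat.cast_lt (K := ℝ)]
        push_cast [co_cast]
        simp only [ll] at hx hn b1 b3
        linarith
  mN := by
    rintro k hk b b' hs ⟨w, n, he, hn⟩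
    refine ⟨w, n, enc_mono hs he, ?_⟩
    obtain ⟨h1, h2, h3, h4⟩ := hs
    rw [← co_cast, ← co_cast, Rat.cast_le] at h1 h2 h3 h4
    interval_cases k
    · simp only [ncond] at hn ⊢
      linarith
    · simp only [ncond] at hn ⊢
      linarith
    · simp only [ncond] at hn ⊢
      linarith
  mP := by
    rintro k hk b b' hs ⟨w, n, he, hn⟩
    refine ⟨w, n, enc_mono hs he, ?_⟩
    obtain ⟨h1, h2, h3, h4⟩ := hs
    rw [← co_cast, ← co_cast, Rat.cast_le] at h1 h2 h3 h4
    interval_cases k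
    · simp only [pcond] at hn ⊢
      linarith
    · simp only [pcond] at hn ⊢
      linarith
    · simp only [pcond] at hn ⊢
      linarith
  bd0 := by
    intro x hx
    have h1 := hmaps (clR_mem x)
    obtain ⟨⟨y1, y2⟩, y3, y4⟩ := h1
    simp only [ll, hx]
    linarith
  bd1 := by
    intro x hx
    have h1 := hmaps (clR_mem x)
    obtain ⟨⟨y1, y2⟩, y3, y4⟩ := h1
    simp only [ll, hx]
    linarith
  bd2 := by
    intro x hx1 hx2 hx
    have h1 := hmaps (clR_mem x)
    obtain ⟨⟨y1, y2⟩, y3, y4⟩ := h1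
    simp only [ll]
    rcases hx with hx | hx <;> rw [hx] <;> linarith

end Pool.Agent.H75.Fix
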