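import Pool.Agent.H75.Enc

/-! Continuity of computable maps. -/

namespace Pool.Agent.H75.Fix

theorem pref_sound {c : OCode} {f : ℝ × ℝ → ℝ × ℝ} {A : Set (ℝ × ℝ)} (hf : Computes c f A)
    {σ : List ℕ} {w n : ℕ} (hw : w ∈ c.eval (preO σ) n) {y : ℝ × ℝ} (hy : y ∈ A)
    (hσ : ∀ j < σ.length, |(ptOf (σ.getD j 0)).1 - y.1| ≤ (1 / 2) ^ (j + 1) ∧
      |(ptOf (σ.getD j 0)).2 - y.2| ≤ (1 / 2) ^ (j + 1)) :
    |(ptOf w).1 - (f y).1| ≤ (1 / 2) ^ n ∧ |(ptOf w).2 - (f y).2| ≤ (1 / 2) ^ n := by
  obtain ⟨p', hp', -⟩ := exists_name y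
  set p : ℕ → ℕ := fun k => if k < σ.length then σ.getD k 0 else p' k with hp
  have hname : IsName p y := by
    intro k
    by_cases hk : k < σ.length
    · have e : p k = σ.getD k 0 := by simp only [hp, hk, if_true]
      rw [e]
      obtain ⟨a1, a2⟩ := hσ k hk
      refine (eDist_le_add _ _).trans ?_
      have h3 : (1 / 2 : ℝ) ^ (k + 1) = (1 / 2) ^ k / 2 := by ring
      rw [h3] at a1 a2
      linarith
    · have e : p k = p' k := by simp only [hp, hk, if_false]
      rw [e]
      exact hp' k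
  obtain ⟨m, hm, hd⟩ := hf _ hy p hname n
  have hw' : w ∈ c.eval (fun k => Part.some (p k)) n := by
    refine OCode.eval_mono (fun i v hv => ?_) c n w hw
    unfold preO at hv
    rw [Part.mem_coe, Option.mem_def, List.getElem?_eq_some_iff] at hv
    obtain ⟨hi, hv⟩ := hv
    rw [Part.mem_some_iff, ← hv]
    simp only [hp, hi, if_true, List.getD_eq_getElem _ _ hi]
  have hmw : m = w := Part.mem_unique hm hw'
  rw [hmw] at hd
  exact ⟨(abs_fst_le_eDist _ _).trans hd, (abs_snd_le_eDist _ _).trans hd⟩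

theorem continuousOn_of_computes {c : OCode} {f : ℝ × ℝ → ℝ × ℝ} {A : Set (ℝ × ℝ)}
    (hf : Computes c f A) : ContinuousOn f A := by
  rw [Metric.continuousOn_iff]
  intro x hx ε hε
  obtain ⟨n, hn⟩ := exists_half_lt (show 0 < ε / 2 by linarith)
  obtain ⟨p, hp, hp2⟩ := exists_name x
  obtain ⟨w, hw, -⟩ := hf _ hx p hp n
  obtain ⟨k, hk⟩ := OCode.eval_use (G := fun k => preO ((List.range k).map p))
    (fun k i m hm => by
      rw [mem_preO_map] at hm ⊢
      exact ⟨by omega, hm.2⟩)
    (g := fun k => Part.some (p k))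
    (fun i m hm => ⟨i + 1, by
      rw [mem_preO_map]
      exact ⟨by omega, Part.mem_some_iff.1 hm⟩⟩) c n w hw
  have key : ∀ y ∈ A, dist y x ≤ (1 / 2) ^ (k + 2) →
      |(ptOf w).1 - (f y).1| ≤ (1 / 2) ^ n ∧ |(ptOf w).2 - (f y).2| ≤ (1 / 2) ^ n := by
    intro y hy hyx
    refine pref_sound hf hk hy fun j hj => ?_
    rw [List.length_map, List.length_range] at hj
    have e : ((List.range k).map p).getD j 0 = p j := by
      rw [List.getD_eq_getElem _ _ (by simpa using hj)]
      simp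
    rw [e]
    rw [Prod.dist_eq, max_le_iff, Real.dist_eq, Real.dist_eq] at hyx
    have hjk : (1 / 2 : ℝ) ^ (k + 2) ≤ (1 / 2) ^ (j + 2) :=
      pow_le_pow_of_le_one (by norm_num) (by norm_num) (by omega)
    have h2 : (1 / 2 : ℝ) ^ (j + 1) = 2 * (1 / 2) ^ (j + 2) := by ring
    have q1 := (hp2 j).1
    have q2 := (hp2 j).2
    obtain ⟨d1, d2⟩ := hyx
    rw [h2]
    rw [abs_le] at d1 d2 q1 q2
    constructor
    · rw [abs_le]
      constructor <;> linarith
    · rw [abs_le]
      constructor <;> linarith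
  refine ⟨(1 / 2) ^ (k + 2), by positivity, fun y hy hyx => ?_⟩
  obtain ⟨a1, a2⟩ := key y hy hyx.le
  obtain ⟨b1, b2⟩ := key x hx (by rw [dist_self]; positivity)
  rw [Prod.dist_eq, max_lt_iff, Real.dist_eq, Real.dist_eq]
  rw [abs_le] at a1 a2 b1 b2
  constructor
  · rw [abs_lt]
    constructor <;> linarith
  · rw [abs_lt]
    constructor <;> linarith

theorem isCompact_square : IsCompact Square := isCompact_Icc.prod isCompact_Icc

theorem isCompact_fixSet {f : ℝ × ℝ → ℝ × ℝ} (hf : CompCont f) : IsCompact (FixSet f) := by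
  obtain ⟨-, c, hc⟩ := hf
  have hcont := continuousOn_of_computes hc
  have hcl : IsClosed (FixSet f) := by
    have h1 : IsClosed {x : Square | f x = x} :=
      isClosed_eq (continuousOn_iff_continuous_domRestrict.1 hcont) continuous_subtype_val
    have h2 : FixSet f = Subtype.val '' {x : Square | f x = x} := by
      ext x
      simp only [FixSet, Set.mem_ofPred_eq, Set.mem_image, Subtype.exists, exists_and_left,
        exists_prop]
      constructor
      · rintro ⟨h, h'⟩
        exact ⟨x, h', h, rfl⟩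
      · rintro ⟨y, h, h', rfl⟩
        exact ⟨h', h⟩
    rw [h2]
    exact (isCompact_square.isClosed.isClosedEmbedding_subtypeVal).isClosedMap _ h1
  exact isCompact_square.of_isClosed_subset hcl fun x hx => hx.1

theorem zr_iff {f : ℝ × ℝ → ℝ × ℝ} (hmaps : Set.MapsTo f Square Square) (x : ℝ × ℝ) :
    Zr (ll f) x ↔ x ∈ FixSet f := by
  unfold Zr FixSet
  simp only [ll, Set.mem_ofPred_eq]
  constructor
  · rintro ⟨h1, h2⟩
    have e : f (clR x) = x := by
      ext
      · linarith
      · linarith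
    have hx : x ∈ Square := by
      have := hmaps (clR_mem x)
      rwa [e] at this
    rw [clR_of_mem hx] at e
    exact ⟨hx, e⟩
  · rintro ⟨hx, e⟩
    rw [clR_of_mem hx, e]
    simp

end Pool.Agent.H75.Fix
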