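import Mathlib

/-!
Definitions for problem MP_254d34: effectively closed subsets of the unit square, computably
continuous self-maps of the square, Turing degrees of points, representation of one set by
another.
-/

namespace Pool.Agent.H75.Fix

/-- Programs of oracle machines: the programs for the functions that are partial recursive in an
oracle.  The constructors are those of `Nat.RecursiveIn`. -/
inductive OCode : Type
  | zero : OCode
  | succ : OCode
  | left : OCode
  | right : OCode
  | oracle : OCode
  | pair : OCode → OCode → OCode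
  | comp : OCode → OCode → OCode
  | prec : OCode → OCode → OCode
  | rfind : OCode → OCode

/-- The partial function computed by a program with oracle `g`. -/
def OCode.eval (g : ℕ →. ℕ) : OCode → ℕ →. ℕ
  | .zero => fun _ => Part.some 0
  | .succ => fun n => Part.some (n + 1)
  | .left => fun n => Part.some n.unpair.1
  | .right => fun n => Part.some n.unpair.2
  | .oracle => g
  | .pair a b => fun n => Nat.pair <$> a.eval g n <*> b.eval g n
  | .comp a b => fun n => b.eval g n >>= a.eval g
  | .prec a b => fun p =>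
      Nat.rec (a.eval g p.unpair.1)
        (fun y IH => IH >>= fun i => b.eval g (Nat.pair p.unpair.1 (Nat.pair y i))) p.unpair.2
  | .rfind a => fun n => Nat.rfind fun m => (fun k => decide (k = 0)) <$> a.eval g (Nat.pair n m)

/-- The rational number coded by a natural number: `⟨⟨a, b⟩, d⟩` codes `(a - b) / (d + 1)`. -/
def ratOf (n : ℕ) : ℚ :=
  ((n.unpair.1.unpair.1 : ℚ) - (n.unpair.1.unpair.2 : ℚ)) / ((n.unpair.2 : ℚ) + 1)

/-- The rational point of the plane coded by a natural number. -/
def ptOf (n : ℕ) : ℝ × ℝ := ((ratOf n.unpair.1 : ℝ), (ratOf n.unpair.2 : ℝ))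

/-- Euclidean distance in the plane. -/
noncomputable def eDist (x y : ℝ × ℝ) : ℝ := Real.sqrt ((x.1 - y.1) ^ 2 + (x.2 - y.2) ^ 2)

/-- `p` is (the sequence of codes of) a Cauchy name of the point `x`: the rational point with code
`p n` is within `2⁻ⁿ` of `x`. -/
def IsName (p : ℕ → ℕ) (x : ℝ × ℝ) : Prop := ∀ n : ℕ, eDist (ptOf (p n)) x ≤ (1 / 2) ^ n

/-- The program `c` computes the map `f` on the set `A`: with any Cauchy name of any point `x` of
`A` as oracle, on input `n` it outputs a rational point within `2⁻ⁿ` of `f x`. -/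
def Computes (c : OCode) (f : ℝ × ℝ → ℝ × ℝ) (A : Set (ℝ × ℝ)) : Prop :=
  ∀ x ∈ A, ∀ p : ℕ → ℕ, IsName p x → ∀ n : ℕ,
    ∃ m ∈ c.eval (fun k => Part.some (p k)) n, eDist (ptOf m) (f x) ≤ (1 / 2) ^ n

/-- The unit square. -/
def Square : Set (ℝ × ℝ) := Set.Icc 0 1 ×ˢ Set.Icc 0 1

/-- `f` is a computably continuous map of the unit square to itself (its values outside the square
play no role). -/
def CompCont (f : ℝ × ℝ → ℝ × ℝ) : Prop :=
  Set.MapsTo f Square Square ∧ ∃ c : OCode, Computes c f Square

/-- The set of fixed points of a self-map of the square. -/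
def FixSet (f : ℝ × ℝ → ℝ × ℝ) : Set (ℝ × ℝ) := {x | x ∈ Square ∧ f x = x}

open Classical in
/-- The characteristic function of the join of the two (strict, lower) Dedekind cuts of the
coordinates of a point. -/
noncomputable def cutFn (x : ℝ × ℝ) (n : ℕ) : ℕ :=
  if (ratOf n.unpair.2 : ℝ) < (if n.unpair.1 = 0 then x.1 else x.2) then 1 else 0

/-- Two points of the plane have the same Turing degree. -/
def SameDegree (x y : ℝ × ℝ) : Prop :=
  TuringEquivalent (fun n => Part.some (cutFn x n)) (fun n => Part.some (cutFn y n))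

/-- The open rational box `(a, b) × (c, d)` coded by `⟨⟨a, b⟩, ⟨c, d⟩⟩`. -/
def box (n : ℕ) : Set (ℝ × ℝ) :=
  Set.Ioo (ratOf n.unpair.1.unpair.1 : ℝ) (ratOf n.unpair.1.unpair.2 : ℝ) ×ˢ
    Set.Ioo (ratOf n.unpair.2.unpair.1 : ℝ) (ratOf n.unpair.2.unpair.2 : ℝ)

/-- `P` is an effectively closed subset of the square (a `Π⁰₁` class): its complement in the
square is the union of a computable sequence of open rational boxes. -/
def IsPi01 (P : Set (ℝ × ℝ)) : Prop :=
  P ⊆ Square ∧ ∃ b : ℕ → ℕ, Computable b ∧ Square \ P = ⋃ n, Square ∩ box (b n)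

/-- `A` represents `B`: there is an effective one-to-one degree-preserving correspondence between
`A` and `B`. -/
def Represents (A B : Set (ℝ × ℝ)) : Prop :=
  ∃ F G : ℝ × ℝ → ℝ × ℝ, Set.BijOn F A B ∧ Set.InvOn G F A B ∧ (∀ x ∈ A, SameDegree x (F x)) ∧
    (∃ c : OCode, Computes c F A) ∧ (∃ c : OCode, Computes c G B)

end Pool.Agent.H75.Fix
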