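import Pool.Agent.H75.Klass
import Pool.Agent.H75.CompFix

/-! The members of the class compute only few reals, and the main theorem. -/

namespace Pool.Agent.H75.Fix

open Primrec Encodable MeasureTheory

/-- a numbering of programs -/
def OCode.nm : OCode → ℕ
  | .zero => Nat.pair 0 0
  | .succ => Nat.pair 1 0
  | .left => Nat.pair 2 0
  | .right => Nat.pair 3 0
  | .oracle => Nat.pair 4 0
  | .pair a b => Nat.pair 5 (Nat.pair a.nm b.nm)
  | .comp a b => Nat.pair 6 (Nat.pair a.nm b.nm)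
  | .prec a b => Nat.pair 7 (Nat.pair a.nm b.nm)
  | .rfind a => Nat.pair 8 a.nm

theorem OCode.nm_injective : Function.Injective OCode.nm := by
  intro c
  induction c with
  | pair a b iha ihb =>
    intro d h
    cases d <;> simp [OCode.nm, Nat.pair_eq_pair] at h ⊢
    exact ⟨iha h.1, ihb h.2⟩
  | comp a b iha ihb =>
    intro d h
    cases d <;> simp [OCode.nm, Nat.pair_eq_pair] at h ⊢
    exact ⟨iha h.1, ihb h.2⟩
  | prec a b iha ihb =>
    intro d h
    cases d <;> simp [OCode.nm, Nat.pair_eq_pair] at h ⊢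
    exact ⟨iha h.1, ihb h.2⟩
  | rfind a iha =>
    intro d h
    cases d <;> simp [OCode.nm, Nat.pair_eq_pair] at h ⊢
    exact iha h
  | _ =>
    intro d h
    cases d <;> simp [OCode.nm, Nat.pair_eq_pair] at h ⊢

instance : Countable OCode := OCode.nm_injective.countable

open Classical in
/-- the cut of a real -/
noncomputable def cut (r : ℝ) (n : ℕ) : ℕ := if (ratOf n : ℝ) < r then 1 else 0

theorem close_of_cut {l : ℕ} {r r' : ℝ} (hr : r ∈ Set.Icc (0 : ℝ) 1)
    (h : ∀ j < 4 ^ l + 1, cut r (qc l j) = cut r' (qc l j)) : r' ≤ r + 1 / 4 ^ l := by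
  by_contra hcon
  push Not at hcon
  have hp : (0 : ℝ) < 4 ^ l := by positivity
  set j := ⌈r * 4 ^ l⌉₊ with hj
  have hj1 : r * 4 ^ l ≤ j := Nat.le_ceil _
  have hj2 : (j : ℝ) < r * 4 ^ l + 1 := Nat.ceil_lt_add_one (mul_nonneg hr.1 hp.le)
  have hj3 : j ≤ 4 ^ l := by
    rw [hj, Nat.ceil_le]
    push_cast
    have := hr.2
    nlinarith
  have h1 : r ≤ j / 4 ^ l := by
    rw [le_div_iff₀ hp]
    exact hj1
  have h2 : (j : ℝ) / 4 ^ l < r' := by
    refine lt_of_lt_of_le ?_ hcon.le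
    rw [div_lt_iff₀ hp, add_mul, one_div, inv_mul_cancel₀ hp.ne']
    exact hj2
  have h3 := h j (Nat.lt_succ_of_le hj3)
  have h4 : ((ratOf (qc l j) : ℚ) : ℝ) = (j : ℝ) / 4 ^ l := by
    rw [ratOf_qc]
    push_cast
    ring
  unfold cut at h3
  rw [h4, if_neg (not_lt.2 h1), if_pos h2] at h3
  exact absurd h3 (by norm_num)

/-- the reals in the unit interval whose cut is computed by `e`, with first argument `i`, from a
member of the class -/
def CE (e : OCode) (i : ℕ) : Set ℝ :=
  {r | r ∈ Set.Icc (0 : ℝ) 1 ∧ ∃ x ∈ KK AA, ∀ n, cut r n ∈ e.eval (orc (x, 0)) (Nat.pair i n)}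

theorem volume_CE (e : OCode) (i : ℕ) : volume (CE e i) = 0 := by
  classical
  obtain ⟨T, b, h, h'⟩ := exists_limit req_AA
  obtain ⟨l₀, hl₀⟩ := answers h h' e i
  have key : ∀ l, l₀ ≤ l → volume (CE e i) ≤ ENNReal.ofReal ((1 / 2) ^ l) := by
    intro l hl
    set D : List Bool → Set ℝ := fun s => {r | r ∈ Set.Icc (0 : ℝ) 1 ∧ ∃ x ∈ KK AA, x ∈ II (T s) ∧
      ∀ n, cut r n ∈ e.eval (orc (x, 0)) (Nat.pair i n)} with hD
    have hsub : CE e i ⊆ ⋃ s ∈ (strs l).toFinset, D s := by
      rintro r ⟨hr, x, hx, hn⟩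
      obtain ⟨s, hs, hxs⟩ := KK_limit h hx l
      simp only [Set.mem_iUnion]
      exact ⟨s, List.mem_toFinset.2 (mem_strs.2 hs), hr, x, hx, hxs, hn⟩
    have hvol : ∀ s ∈ (strs l).toFinset, volume (D s) ≤ ENNReal.ofReal ((1 / 4) ^ l) := by
      intro s hs
      have hs' : s.length = l := mem_strs.1 (List.mem_toFinset.1 hs)
      refine (Real.volume_le_diam _).trans (Metric.ediam_le ?_)
      have haux : ∀ r ∈ D s, ∀ r' ∈ D s, r' ≤ r + 1 / 4 ^ l := by
        rintro r ⟨hr, x, hx, hxs, hn⟩ r' ⟨hr', x', hx', hxs', hn'⟩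
        refine close_of_cut hr fun j hj => ?_
        have h1 := hl₀ x hx (cut r) hn s (by omega) hxs j (by rw [hs']; exact hj)
        have h2 := hl₀ x' hx' (cut r') hn' s (by omega) hxs' j (by rw [hs']; exact hj)
        have := Part.mem_unique h1 h2
        rwa [hs'] at this
      intro r hr r' hr'
      rw [edist_dist, Real.dist_eq]
      refine ENNReal.ofReal_le_ofReal ?_
      rw [one_div_pow, abs_le]
      have h1 := haux r hr r' hr'
      have h2 := haux r' hr' r hr
      constructor <;> linarith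
    calc volume (CE e i) ≤ volume (⋃ s ∈ (strs l).toFinset, D s) := measure_mono hsub
      _ ≤ ∑ s ∈ (strs l).toFinset, volume (D s) := measure_biUnion_finset_le _ _
      _ ≤ ∑ s ∈ (strs l).toFinset, ENNReal.ofReal ((1 / 4) ^ l) := Finset.sum_le_sum hvol
      _ = ((strs l).toFinset.card : ENNReal) * ENNReal.ofReal ((1 / 4) ^ l) := by
          rw [Finset.sum_const, nsmul_eq_mul]
      _ ≤ ((2 ^ l : ℕ) : ENNReal) * ENNReal.ofReal ((1 / 4) ^ l) := by
          gcongr
          rw [← length_strs l]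
          exact List.toFinset_card_le _
      _ = ENNReal.ofReal ((1 / 2) ^ l) := by
          rw [← ENNReal.ofReal_natCast, ← ENNReal.ofReal_mul (by positivity)]
          congr 1
          push_cast
          rw [← mul_pow]
          norm_num
  have hlim : Filter.Tendsto (fun l : ℕ => ENNReal.ofReal ((1 / 2 : ℝ) ^ l)) Filter.atTop
      (nhds 0) := by
    rw [← ENNReal.ofReal_zero]
    exact ENNReal.tendsto_ofReal (tendsto_pow_atTop_nhds_zero_of_lt_one (by norm_num)
      (by norm_num))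
  refine le_antisymm (ge_of_tendsto hlim ?_) bot_le
  filter_upwards [Filter.eventually_ge_atTop l₀] with l hl using key l hl

theorem exists_avoid {α β : ℝ} (h : α < β) : ∃ r ∈ Set.Ioo α β, ∀ e i, r ∉ CE e i := by
  by_contra hcon
  push Not at hcon
  have hsub : Set.Ioo α β ⊆ ⋃ p : OCode × ℕ, CE p.1 p.2 := by
    intro r hr
    obtain ⟨e, i, hei⟩ := hcon r hr
    exact Set.mem_iUnion.2 ⟨(e, i), hei⟩
  have h0 : volume (⋃ p : OCode × ℕ, CE p.1 p.2) = 0 :=
    measure_iUnion_null fun p => volume_CE p.1 p.2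
  have h1 : volume (Set.Ioo α β) = 0 := measure_mono_null hsub h0
  rw [Real.volume_Ioo, ENNReal.ofReal_eq_zero] at h1
  linarith

theorem computable_of_same {x z : ℝ × ℝ} (h : SameDegree x z) (hx : Computable (cutFn x)) :
    Computable (cutFn z) := by
  obtain ⟨c, hc⟩ := turingReducible_iff.1 h.2
  have hG : Partrec₂ fun (_ : Unit) (n : ℕ) => (Part.some (cutFn x n) : Part ℕ) :=
    (hx.comp Computable.snd).partrec
  have h1 := OCode.eval_partrec hG c
  have h2 : Partrec fun n : ℕ => c.eval (fun n => Part.some (cutFn x n)) n :=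
    h1.comp (Computable.const ()) Computable.id
  rw [hc] at h2
  exact h2

theorem not_same_of_avoid {x : ℝ × ℝ} (hx : x ∈ Square) {i : ℕ} {r : ℝ}
    (hr : r = if i = 0 then x.1 else x.2) (hav : ∀ e i, r ∉ CE e i) {z : ℝ} (hz : z ∈ KK AA) :
    ¬ SameDegree x (z, 0) := by
  classical
  intro hs
  obtain ⟨c, hc⟩ := turingReducible_iff.1 hs.1
  refine hav c i ⟨?_, z, hz, fun n => ?_⟩
  · rw [hr]
    split_ifs
    · exact hx.1
    · exact hx.2
  · have h1 : c.eval (orc (z, 0)) (Nat.pair i n) = Part.some (cutFn x (Nat.pair i n)) :=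
      congrFun hc _
    rw [h1, Part.mem_some_iff]
    unfold cut cutFn
    simp only [Nat.unpair_pair, hr]

/-- The class of the construction: no fixed-point set of a computably continuous self-map of the
square has only points of degrees of members of the class. -/
theorem main : ∃ P : Set (ℝ × ℝ), IsPi01 P ∧ P.Nonempty ∧ (∀ z ∈ P, z.2 = 0) ∧
    ∀ f : ℝ × ℝ → ℝ × ℝ, CompCont f → ∃ x ∈ FixSet f, ∀ z ∈ P, ¬ SameDegree x z := by
  refine ⟨{p : ℝ × ℝ | p.1 ∈ KK AA ∧ p.2 = 0}, isPi01_KK req_AA, ?_, fun z hz => hz.2, ?_⟩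
  · obtain ⟨x, hx⟩ := KK_nonempty AA
    exact ⟨(x, 0), hx, rfl⟩
  intro f hf
  by_cases htd : IsTotallyDisconnected (FixSet f)
  · obtain ⟨x, hx, hcomp⟩ := exists_comp_fix hf htd
    refine ⟨x, hx, ?_⟩
    rintro ⟨z, w⟩ ⟨hz, hw⟩ hs
    simp only at hz hw
    subst hw
    exact KK_noncomp hz (computable_of_same hs hcomp)
  · unfold IsTotallyDisconnected at htd
    push Not at htd
    obtain ⟨t, htf, htc, htn⟩ := htd
    obtain ⟨a, ha, b, hb, hab⟩ := htn
    -- the values of a coordinate fill an interval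
    have key : ∀ (i : ℕ) (π : ℝ × ℝ → ℝ), (∀ x, π x = if i = 0 then x.1 else x.2) →
        Continuous π → ∀ u ∈ t, ∀ v ∈ t, π u < π v →
        ∃ x ∈ FixSet f, ∀ z ∈ {p : ℝ × ℝ | p.1 ∈ KK AA ∧ p.2 = 0}, ¬ SameDegree x z := by
      intro i π hπ hcont u hu v hv huv
      obtain ⟨r, hr, hav⟩ := exists_avoid huv
      have hpre : IsPreconnected (π '' t) := htc.image π hcont.continuousOn
      have hsub := hpre.Icc_subset ⟨u, hu, rfl⟩ ⟨v, hv, rfl⟩
      obtain ⟨x, hx, hxr⟩ := hsub (Set.Ioo_subset_Icc_self hr)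
      refine ⟨x, htf hx, ?_⟩
      rintro ⟨z, w⟩ ⟨hz, hw⟩
      simp only at hz hw
      subst hw
      exact not_same_of_avoid (i := i) (htf hx).1 (hxr ▸ hπ x) hav hz
    by_cases h1 : a.1 = b.1
    · have h2 : a.2 ≠ b.2 := fun h2 => hab (Prod.ext h1 h2)
      rcases lt_or_gt_of_ne h2 with h2 | h2
      · exact key 1 Prod.snd (fun x => by simp) continuous_snd a ha b hb h2
      · exact key 1 Prod.snd (fun x => by simp) continuous_snd b hb a ha h2
    · rcases lt_or_gt_of_ne h1 with h1 | h1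
      · exact key 0 Prod.fst (fun x => by simp) continuous_fst a ha b hb h1
      · exact key 0 Prod.fst (fun x => by simp) continuous_fst b hb a ha h1

end Pool.Agent.H75.Fix
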