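import Mathlib

/-! Parity of colourings of grid regions. -/

namespace Pool.Agent.H75.Fix

open Finset

/-- sum over the cells of `S` of an edge function, over the four edges of the cell -/
def par (S : Finset (ℕ × ℕ)) (H V : ℕ → ℕ → ZMod 2) : ZMod 2 :=
  ∑ p ∈ S, (H p.1 p.2 + H p.1 (p.2 + 1) + V p.1 p.2 + V (p.1 + 1) p.2)

/-- the predicates `EH`, `EV` hold for the horizontal, vertical edges that belong to exactly one
cell of `S` -/
def Bd (S : Finset (ℕ × ℕ)) (EH EV : ℕ → ℕ → Prop) : Prop :=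
  ∀ p ∈ S, ((p.1, p.2 + 1) ∉ S → EH p.1 (p.2 + 1)) ∧
    ((∀ j, p.2 = j + 1 → (p.1, j) ∉ S) → EH p.1 p.2) ∧
    ((p.1 + 1, p.2) ∉ S → EV (p.1 + 1) p.2) ∧
    ((∀ i, p.1 = i + 1 → (i, p.2) ∉ S) → EV p.1 p.2)

theorem Bd.mono {S : Finset (ℕ × ℕ)} {EH EV EH' EV' : ℕ → ℕ → Prop} (h : Bd S EH EV)
    (h1 : ∀ i j, EH i j → EH' i j) (h2 : ∀ i j, EV i j → EV' i j) : Bd S EH' EV' :=
  fun p hp => ⟨fun a => h1 _ _ ((h p hp).1 a), fun a => h1 _ _ ((h p hp).2.1 a),
    fun a => h2 _ _ ((h p hp).2.2.1 a), fun a => h2 _ _ ((h p hp).2.2.2 a)⟩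

theorem zmod_two_add_self (x : ZMod 2) : x + x = 0 := CharTwo.add_self_eq_zero x

theorem par_eq_zero {S : Finset (ℕ × ℕ)} {H V : ℕ → ℕ → ZMod 2}
    (h : Bd S (fun i j => H i j = 0) (fun i j => V i j = 0)) : par S H V = 0 := by
  classical
  have e1 : ∑ p ∈ S, H p.1 p.2 = ∑ p ∈ S, H p.1 (p.2 + 1) := by
    have l : ∑ p ∈ S, H p.1 p.2
        = ∑ p ∈ S.filter (fun p => ∃ j, p.2 = j + 1 ∧ (p.1, j) ∈ S), H p.1 p.2 := by
      rw [Finset.sum_filter]
      refine Finset.sum_congr rfl fun p hp => ?_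
      split_ifs with hc
      · rfl
      · push Not at hc
        exact (h p hp).2.1 hc
    have r : ∑ p ∈ S, H p.1 (p.2 + 1)
        = ∑ p ∈ S.filter (fun p => (p.1, p.2 + 1) ∈ S), H p.1 (p.2 + 1) := by
      rw [Finset.sum_filter]
      refine Finset.sum_congr rfl fun p hp => ?_
      split_ifs with hc
      · rfl
      · exact (h p hp).1 hc
    rw [l, r]
    refine Finset.sum_nbij' (fun p => (p.1, p.2 - 1)) (fun p => (p.1, p.2 + 1)) ?_ ?_ ?_ ?_ ?_
    · rintro ⟨i, j⟩ hp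
      simp only [Finset.mem_filter] at hp ⊢
      obtain ⟨hp, j', rfl, h'⟩ := hp
      simpa using ⟨h', hp⟩
    · rintro ⟨i, j⟩ hp
      simp only [Finset.mem_filter] at hp ⊢
      exact ⟨hp.2, j, rfl, hp.1⟩
    · rintro ⟨i, j⟩ hp
      simp only [Finset.mem_filter] at hp
      obtain ⟨hp, j', rfl, h'⟩ := hp
      simp
    · rintro ⟨i, j⟩ hp
      simp
    · rintro ⟨i, j⟩ hp
      simp only [Finset.mem_filter] at hp
      obtain ⟨hp, j', rfl, h'⟩ := hp
      simp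
  have e2 : ∑ p ∈ S, V p.1 p.2 = ∑ p ∈ S, V (p.1 + 1) p.2 := by
    have l : ∑ p ∈ S, V p.1 p.2
        = ∑ p ∈ S.filter (fun p => ∃ i, p.1 = i + 1 ∧ (i, p.2) ∈ S), V p.1 p.2 := by
      rw [Finset.sum_filter]
      refine Finset.sum_congr rfl fun p hp => ?_
      split_ifs with hc
      · rfl
      · push Not at hc
        exact (h p hp).2.2.2 hc
    have r : ∑ p ∈ S, V (p.1 + 1) p.2
        = ∑ p ∈ S.filter (fun p => (p.1 + 1, p.2) ∈ S), V (p.1 + 1) p.2 := by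
      rw [Finset.sum_filter]
      refine Finset.sum_congr rfl fun p hp => ?_
      split_ifs with hc
      · rfl
      · exact (h p hp).2.2.1 hc
    rw [l, r]
    refine Finset.sum_nbij' (fun p => (p.1 - 1, p.2)) (fun p => (p.1 + 1, p.2)) ?_ ?_ ?_ ?_ ?_
    · rintro ⟨i, j⟩ hp
      simp only [Finset.mem_filter] at hp ⊢
      obtain ⟨hp, j', rfl, h'⟩ := hp
      simpa using ⟨h', hp⟩
    · rintro ⟨i, j⟩ hp
      simp only [Finset.mem_filter] at hp ⊢
      exact ⟨hp.2, i, rfl, hp.1⟩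
    · rintro ⟨i, j⟩ hp
      simp only [Finset.mem_filter] at hp
      obtain ⟨hp, j', rfl, h'⟩ := hp
      simp
    · rintro ⟨i, j⟩ hp
      simp
    · rintro ⟨i, j⟩ hp
      simp only [Finset.mem_filter] at hp
      obtain ⟨hp, j', rfl, h'⟩ := hp
      simp
  unfold par
  rw [Finset.sum_add_distrib, Finset.sum_add_distrib, Finset.sum_add_distrib, e1, e2, add_assoc,
    zmod_two_add_self, zmod_two_add_self, add_zero]

theorem par_add (S : Finset (ℕ × ℕ)) (H V H' V' : ℕ → ℕ → ZMod 2) :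
    par S (fun i j => H i j + H' i j) (fun i j => V i j + V' i j) = par S H V + par S H' V' := by
  unfold par
  rw [← Finset.sum_add_distrib]
  refine Finset.sum_congr rfl fun p _ => ?_
  ring

/-- the edges whose end points have the colours `0` and `1` count `1` -/
def chi (a b : ℕ) : ZMod 2 := if (a = 0 ∧ b = 1) ∨ (a = 1 ∧ b = 0) then 1 else 0

theorem chi3_fin : ∀ k a b c : Fin 3, a ≠ k → b ≠ k → c ≠ k →
    chi a.1 b.1 + (chi a.1 c.1 + chi c.1 b.1) = 0 := by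
  unfold chi
  decide

theorem chi4_fin : ∀ k a b c d : Fin 3, a ≠ k → b ≠ k → c ≠ k → d ≠ k →
    chi a.1 b.1 + chi c.1 d.1 + chi a.1 c.1 + chi b.1 d.1 = 0 := by
  unfold chi
  decide

theorem chi3 {k a b c : ℕ} (hk : k < 3) (ha : a < 3) (hb : b < 3) (hc : c < 3)
    (h1 : a ≠ k) (h2 : b ≠ k) (h3 : c ≠ k) : chi a b + (chi a c + chi c b) = 0 :=
  chi3_fin ⟨k, hk⟩ ⟨a, ha⟩ ⟨b, hb⟩ ⟨c, hc⟩ (by simpa using h1) (by simpa using h2)
    (by simpa using h3)

theorem chi4 {k a b c d : ℕ} (hk : k < 3) (ha : a < 3) (hb : b < 3) (hc : c < 3) (hd : d < 3)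
    (h1 : a ≠ k) (h2 : b ≠ k) (h3 : c ≠ k) (h4 : d ≠ k) :
    chi a b + chi c d + chi a c + chi b d = 0 :=
  chi4_fin ⟨k, hk⟩ ⟨a, ha⟩ ⟨b, hb⟩ ⟨c, hc⟩ ⟨d, hd⟩ (by simpa using h1) (by simpa using h2)
    (by simpa using h3) (by simpa using h4)

/-- horizontal edge function of a colouring -/
def Hc (c : ℕ × ℕ → ℕ) (i j : ℕ) : ZMod 2 := chi (c (i, j)) (c (i + 1, j))

/-- vertical edge function of a colouring -/
def Vc (c : ℕ × ℕ → ℕ) (i j : ℕ) : ZMod 2 := chi (c (i, j)) (c (i, j + 1))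

/-- the region `S` at the next level of the grid -/
def ref (S : Finset (ℕ × ℕ)) : Finset (ℕ × ℕ) :=
  S.biUnion fun p => {(2 * p.1, 2 * p.2), (2 * p.1 + 1, 2 * p.2), (2 * p.1, 2 * p.2 + 1),
    (2 * p.1 + 1, 2 * p.2 + 1)}

theorem mem_ref {S : Finset (ℕ × ℕ)} {q : ℕ × ℕ} : q ∈ ref S ↔ (q.1 / 2, q.2 / 2) ∈ S := by
  obtain ⟨i, j⟩ := q
  simp only [ref, Finset.mem_biUnion, Finset.mem_insert, Finset.mem_singleton, Prod.mk.injEq]
  constructor
  · rintro ⟨⟨a, b⟩, hp, h⟩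
    have h1 : i / 2 = a := by simp only at h; omega
    have h2 : j / 2 = b := by simp only at h; omega
    rw [h1, h2]
    exact hp
  · intro h
    refine ⟨_, h, ?_⟩
    simp only
    omega

theorem par_ref (S : Finset (ℕ × ℕ)) (H V : ℕ → ℕ → ZMod 2) :
    par (ref S) H V = par S (fun i j => H (2 * i) (2 * j) + H (2 * i + 1) (2 * j))
      (fun i j => V (2 * i) (2 * j) + V (2 * i) (2 * j + 1)) := by
  unfold par ref
  rw [Finset.sum_biUnion]
  · refine Finset.sum_congr rfl fun p _ => ?_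
    rw [Finset.sum_insert, Finset.sum_insert, Finset.sum_insert, Finset.sum_singleton]
    · have e1 : 2 * (p.2 + 1) = 2 * p.2 + 1 + 1 := by ring
      have e2 : 2 * (p.1 + 1) = 2 * p.1 + 1 + 1 := by ring
      simp only [e1, e2]
      linear_combination zmod_two_add_self (H (2 * p.1) (2 * p.2 + 1))
        + zmod_two_add_self (H (2 * p.1 + 1) (2 * p.2 + 1))
        + zmod_two_add_self (V (2 * p.1 + 1) (2 * p.2))
        + zmod_two_add_self (V (2 * p.1 + 1) (2 * p.2 + 1))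
    · simp
    · simp
    · simp
  · intro p _ q _ hpq
    rw [Function.onFun, Finset.disjoint_left]
    intro x hx hx'
    simp only [Finset.mem_insert, Finset.mem_singleton] at hx hx'
    apply hpq
    obtain ⟨a, b⟩ := p
    obtain ⟨c, d⟩ := q
    obtain ⟨i, j⟩ := x
    simp only [Prod.mk.injEq] at hx hx' ⊢
    omega

end Pool.Agent.H75.Fix
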