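import Pool.Agent.H75.GridSys

/-! Splitting a certified region of odd index. -/

namespace Pool.Agent.H75.Fix

open Finset

variable {N P : ℕ → Bx → Prop} {l : ℕ → ℝ × ℝ → ℝ}

theorem hE_sub_cell (m i j : ℕ) : SubB (hE m i j) (cellB m i j) :=
  ⟨le_rfl, le_rfl, le_rfl, cor_mono (Nat.le_succ _)⟩

theorem hE_sub_cell' (m i j : ℕ) : SubB (hE m i (j + 1)) (cellB m i j) :=
  ⟨le_rfl, le_rfl, cor_mono (Nat.le_succ _), le_rfl⟩

theorem vE_sub_cell (m i j : ℕ) : SubB (vE m i j) (cellB m i j) :=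
  ⟨le_rfl, cor_mono (Nat.le_succ _), le_rfl, le_rfl⟩

theorem vE_sub_cell' (m i j : ℕ) : SubB (vE m (i + 1) j) (cellB m i j) :=
  ⟨cor_mono (Nat.le_succ _), le_rfl, le_rfl, le_rfl⟩

theorem Sys.split (h : Sys N P l) {m : ℕ} {S : Finset (ℕ × ℕ)} {c : ℕ × ℕ → ℕ}
    (hc : Cert N P m S c) (hodd : par S (Hc c) (Vc c) = 1) {ι : Type*} [Fintype ι]
    [DecidableEq ι] (cl : ℕ × ℕ → Option ι)
    (hgood : ∀ p ∈ S, cl p = none → ∃ k < 3, N k (cellB m p.1 p.2))
    (hadj : ∀ p ∈ S, ∀ q ∈ S, (q = (p.1, p.2 + 1) ∨ q = (p.1 + 1, p.2)) →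
      ∀ v w, cl p = some v → cl q = some w → v = w) :
    ∃ v, ∃ c', Cert N P m (S.filter fun p => cl p = some v) c' ∧
      par (S.filter fun p => cl p = some v) (Hc c') (Vc c') = 1 := by
  classical
  set c' := recol P m c (fun _ => True) with hc'
  have hval : ∀ p : ℕ × ℕ, ¬ Zr l (pt m p.1 p.2) → Val P m c' p := fun p hp => h.val_recol hp
  have hkeep : ∀ p : ℕ × ℕ, Val P m c p → c' p = c p := fun p hp =>
    recol_of_ok trivial hp
  have hgh : ∀ i j, ∀ k < 3, N k (hE m i j) → EG N P m c' (hE m i j) (i, j) (i + 1, j) :=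
    fun i j k hk hN => ⟨⟨k, hk, hN⟩, hval _ (h.nz_of_N hk hN (mem_hE_left _ _ _)),
      hval _ (h.nz_of_N hk hN (mem_hE_right _ _ _))⟩
  have hgv : ∀ i j, ∀ k < 3, N k (vE m i j) → EG N P m c' (vE m i j) (i, j) (i, j + 1) :=
    fun i j k hk hN => ⟨⟨k, hk, hN⟩, hval _ (h.nz_of_N hk hN (mem_vE_left _ _ _)),
      hval _ (h.nz_of_N hk hN (mem_vE_right _ _ _))⟩
  -- parity of `S` with the new colouring
  have hodd' : par S (Hc c') (Vc c') = 1 := by
    have key : par S (fun i j => Hc c i j + Hc c' i j) (fun i j => Vc c i j + Vc c' i j) = 0 := by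
      refine par_eq_zero (hc.mono (fun i j hg => ?_) fun i j hg => ?_)
      · have e1 := hkeep _ hg.2.1
        have e2 := hkeep _ hg.2.2
        unfold Hc
        rw [e1, e2]
        exact zmod_two_add_self _
      · have e1 := hkeep _ hg.2.1
        have e2 := hkeep _ hg.2.2
        unfold Vc
        rw [e1, e2]
        exact zmod_two_add_self _
    rw [par_add] at key
    rw [← CharTwo.add_eq_zero.1 key, hodd]
  -- some class is odd
  have hfib : ∑ o : Option ι, par (S.filter fun p => cl p = o) (Hc c') (Vc c') = 1 := by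
    rw [← hodd']
    unfold par
    exact Finset.sum_fiberwise S cl _
  have hnone : par (S.filter fun p => cl p = none) (Hc c') (Vc c') = 0 := by
    unfold par
    refine Finset.sum_eq_zero fun p hp => ?_
    rw [Finset.mem_filter] at hp
    obtain ⟨k, hk, hN⟩ := hgood p hp.1 hp.2
    have m00 := mem_cellB m p.1 p.2 0 0 (by norm_num) (by norm_num)
    have m10 := mem_cellB m p.1 p.2 1 0 (by norm_num) (by norm_num)
    have m01 := mem_cellB m p.1 p.2 0 1 (by norm_num) (by norm_num)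
    have m11 := mem_cellB m p.1 p.2 1 1 (by norm_num) (by norm_num)
    simp only [add_zero] at m00 m10 m01 m11
    have v00 := hval (p.1, p.2) (h.nz_of_N hk hN m00)
    have v10 := hval (p.1 + 1, p.2) (h.nz_of_N hk hN m10)
    have v01 := hval (p.1, p.2 + 1) (h.nz_of_N hk hN m01)
    have v11 := hval (p.1 + 1, p.2 + 1) (h.nz_of_N hk hN m11)
    exact chi4 hk v00.1 v10.1 v01.1 v11.1 (h.ne_of_N v00 hk hN m00) (h.ne_of_N v10 hk hN m10)
      (h.ne_of_N v01 hk hN m01) (h.ne_of_N v11 hk hN m11)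
  have hex : ∃ v : ι, par (S.filter fun p => cl p = some v) (Hc c') (Vc c') ≠ 0 := by
    by_contra hcon
    push Not at hcon
    rw [Fintype.sum_option, hnone, zero_add, Finset.sum_eq_zero fun v _ => hcon v] at hfib
    exact zero_ne_one hfib
  obtain ⟨v, hv⟩ := hex
  have hv1 : par (S.filter fun p => cl p = some v) (Hc c') (Vc c') = 1 := by
    have : ∀ x : ZMod 2, x ≠ 0 → x = 1 := by decide
    exact this _ hv
  refine ⟨v, c', ?_, hv1⟩
  -- a cell of `S` which is not of class `v` and is adjacent to a cell of class `v` is good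
  intro p hp
  rw [Finset.mem_filter] at hp
  obtain ⟨hpS, hpv⟩ := hp
  have hS := hc p hpS
  refine ⟨fun hn => ?_, fun hn => ?_, fun hn => ?_, fun hn => ?_⟩
  · by_cases hq : (p.1, p.2 + 1) ∈ S
    · have hcl : cl (p.1, p.2 + 1) = none := by
        by_contra hcl
        obtain ⟨w, hw⟩ := Option.ne_none_iff_exists'.1 hcl
        have := hadj p hpS _ hq (Or.inl rfl) v w hpv hw
        subst this
        exact hn (Finset.mem_filter.2 ⟨hq, hw⟩)
      obtain ⟨k, hk, hN⟩ := hgood _ hq hcl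
      exact hgh _ _ k hk (h.mN k hk _ _ (hE_sub_cell _ _ _) hN)
    · obtain ⟨⟨k, hk, hN⟩, -, -⟩ := hS.1 hq
      exact hgh _ _ k hk hN
  · by_cases hq : ∀ j, p.2 = j + 1 → (p.1, j) ∉ S
    · obtain ⟨⟨k, hk, hN⟩, -, -⟩ := hS.2.1 hq
      exact hgh _ _ k hk hN
    · push Not at hq
      obtain ⟨j, hj, hq⟩ := hq
      have hcl : cl (p.1, j) = none := by
        by_contra hcl
        obtain ⟨w, hw⟩ := Option.ne_none_iff_exists'.1 hcl
        have := hadj _ hq p hpS (Or.inl (by ext <;> simp [hj])) w v hw hpv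
        subst this
        exact hn j hj (Finset.mem_filter.2 ⟨hq, hw⟩)
      obtain ⟨k, hk, hN⟩ := hgood _ hq hcl
      rw [hj]
      exact hgh _ _ k hk (h.mN k hk _ _ (hE_sub_cell' _ _ _) hN)
  · by_cases hq : (p.1 + 1, p.2) ∈ S
    · have hcl : cl (p.1 + 1, p.2) = none := by
        by_contra hcl
        obtain ⟨w, hw⟩ := Option.ne_none_iff_exists'.1 hcl
        have := hadj p hpS _ hq (Or.inr rfl) v w hpv hw
        subst this
        exact hn (Finset.mem_filter.2 ⟨hq, hw⟩)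
      obtain ⟨k, hk, hN⟩ := hgood _ hq hcl
      exact hgv _ _ k hk (h.mN k hk _ _ (vE_sub_cell _ _ _) hN)
    · obtain ⟨⟨k, hk, hN⟩, -, -⟩ := hS.2.2.1 hq
      exact hgv _ _ k hk hN
  · by_cases hq : ∀ i, p.1 = i + 1 → (i, p.2) ∉ S
    · obtain ⟨⟨k, hk, hN⟩, -, -⟩ := hS.2.2.2 hq
      exact hgv _ _ k hk hN
    · push Not at hq
      obtain ⟨i, hi, hq⟩ := hq
      have hcl : cl (i, p.2) = none := by
        by_contra hcl
        obtain ⟨w, hw⟩ := Option.ne_none_iff_exists'.1 hcl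
        have := hadj _ hq p hpS (Or.inr (by ext <;> simp [hi])) w v hw hpv
        subst this
        exact hn i hi (Finset.mem_filter.2 ⟨hq, hw⟩)
      obtain ⟨k, hk, hN⟩ := hgood _ hq hcl
      rw [hi]
      exact hgv _ _ k hk (h.mN k hk _ _ (vE_sub_cell' _ _ _) hN)

/-- iterated refinement -/
theorem Sys.refineN (h : Sys N P l) {m : ℕ} {S : Finset (ℕ × ℕ)} {c : ℕ × ℕ → ℕ}
    (hc : Cert N P m S c) (hodd : par S (Hc c) (Vc c) = 1) (r : ℕ) :
    ∃ S' c', Cert N P (m + r) S' c' ∧ par S' (Hc c') (Vc c') = 1 ∧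
      ∀ p ∈ S', (p.1 / 2 ^ r, p.2 / 2 ^ r) ∈ S := by
  induction r with
  | zero => exact ⟨S, c, hc, hodd, fun p hp => by simpa using hp⟩
  | succ r ih =>
    obtain ⟨S', c', h1, h2, h3⟩ := ih
    obtain ⟨c'', h4, h5⟩ := h.refine h1
    refine ⟨ref S', c'', h4, h5.trans h2, fun p hp => ?_⟩
    rw [mem_ref] at hp
    have := h3 _ hp
    simp only [Nat.div_div_eq_div_mul] at this
    rw [pow_succ, mul_comm]
    exact this

/-- cells away from the zeros are certified at fine levels -/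
theorem Sys.fine (h : Sys N P l) (M η : ℝ) (hη : 0 < η) :
    ∃ m₀ : ℕ, ∀ m ≥ m₀, ∀ i j : ℕ, cor m i ≤ M → cor m j ≤ M →
      (∀ z, Zr l z → η ≤ dist z (pt m i j)) → ∃ k < 3, N k (cellB m i j) := by
  classical
  set D : Set (ℝ × ℝ) := (Set.Icc (-1) M ×ˢ Set.Icc (-1) M) ∩ {x | ∀ z, Zr l z → η ≤ dist z x}
    with hD
  have hDc : IsCompact D := by
    refine IsCompact.inter_right (isCompact_Icc.prod isCompact_Icc) ?_
    have : {x : ℝ × ℝ | ∀ z, Zr l z → η ≤ dist z x} = ⋂ z, ⋂ (_ : Zr l z), {x | η ≤ dist z x} := by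
      ext x
      simp
    rw [this]
    exact isClosed_iInter fun z => isClosed_iInter fun _ =>
      isClosed_le continuous_const (continuous_const.dist continuous_id)
  have hloc : ∀ x : ℝ × ℝ, ∃ U : Set (ℝ × ℝ), IsOpen U ∧ (¬ Zr l x → x ∈ U) ∧
      (∃ y ε, U = Metric.ball y ε ∧ ∃ k < 3, ∀ b, Near b y ε → N k b) := by
    intro x
    by_cases hx : Zr l x
    · refine ⟨∅, isOpen_empty, fun hh => absurd hx hh, x, 0, by simp, 0, by norm_num, ?_⟩
      intro b hb
      exact absurd hb.1 (not_lt.2 (abs_nonneg _))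
    · obtain ⟨k, hk, hneg⟩ := h.neg hx
      obtain ⟨ε, hε, H⟩ := h.c1 k hk x hneg
      exact ⟨Metric.ball x ε, Metric.isOpen_ball, fun _ => Metric.mem_ball_self hε, x, ε, rfl, k,
        hk, H⟩
  choose U hU hxU hU' using hloc
  have hcov : D ⊆ ⋃ x, U x := by
    intro x hx
    refine Set.mem_iUnion.2 ⟨x, hxU x fun hz => ?_⟩
    have := hx.2 x hz
    rw [dist_self] at this
    linarith
  obtain ⟨δ, hδ, hleb⟩ := lebesgue_number_lemma_of_metric hDc hU hcov
  obtain ⟨m₀, hm₀⟩ := exists_pow_lt_of_lt_one hδ (by norm_num : (1 / 2 : ℝ) < 1)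
  refine ⟨m₀, fun m hm i j hi hj hz => ?_⟩
  have hge : ∀ i : ℕ, -1 ≤ cor m i := by
    intro i
    unfold cor
    have : (0 : ℝ) ≤ (i : ℝ) / 2 ^ m := by positivity
    linarith
  have hpD : pt m i j ∈ D := ⟨⟨⟨hge i, hi⟩, ⟨hge j, hj⟩⟩, hz⟩
  obtain ⟨x, hx⟩ := hleb _ hpD
  obtain ⟨y, ε, hUy, k, hk, H⟩ := hU' x
  refine ⟨k, hk, H _ ?_⟩
  rw [hUy] at hx
  have hlt : (1 : ℝ) / 2 ^ m < δ := by
    have : (1 / 2 : ℝ) ^ m ≤ (1 / 2) ^ m₀ := pow_le_pow_of_le_one (by norm_num) (by norm_num) hm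
    rw [one_div_pow] at this
    exact lt_of_le_of_lt this hm₀
  have hcorner : ∀ a b : ℕ, a ≤ 1 → b ≤ 1 → pt m (i + a) (j + b) ∈ Metric.ball y ε := by
    intro a b ha hb
    apply hx
    rw [Metric.mem_ball, pt, pt, Prod.dist_eq, max_lt_iff]
    constructor
    · interval_cases a
      · simpa using hδ
      · simp only [cor_succ, Real.dist_eq]
        rw [add_sub_cancel_left, abs_of_pos (by positivity)]
        exact hlt
    · interval_cases b
      · simpa using hδ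
      · simp only [cor_succ, Real.dist_eq]
        rw [add_sub_cancel_left, abs_of_pos (by positivity)]
        exact hlt
  have c00 := hcorner 0 0 (by norm_num) (by norm_num)
  have c11 := hcorner 1 1 (by norm_num) (by norm_num)
  rw [Metric.mem_ball, pt, Prod.dist_eq, max_lt_iff, Real.dist_eq, Real.dist_eq] at c00 c11
  exact ⟨c00.1, c11.1, c00.2, c11.2⟩

end Pool.Agent.H75.Fix
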