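import Pool.Agent.H75.Grid

/-! Certified regions of odd index. -/

namespace Pool.Agent.H75.Fix

open Finset

/-- coded dyadic box `(m, i₁, i₂, j₁, j₂)` -/
abbrev Bx := ℕ × ℕ × ℕ × ℕ × ℕ

/-- real dyadic coordinate `-1 + i / 2 ^ m` -/
noncomputable def cor (m i : ℕ) : ℝ := -1 + (i : ℝ) / 2 ^ m

noncomputable def pt (m i j : ℕ) : ℝ × ℝ := (cor m i, cor m j)

def bset (b : Bx) : Set (ℝ × ℝ) :=
  Set.Icc (cor b.1 b.2.1) (cor b.1 b.2.2.1) ×ˢ Set.Icc (cor b.1 b.2.2.2.1) (cor b.1 b.2.2.2.2)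

def Near (b : Bx) (x : ℝ × ℝ) (ε : ℝ) : Prop :=
  |cor b.1 b.2.1 - x.1| < ε ∧ |cor b.1 b.2.2.1 - x.1| < ε ∧
    |cor b.1 b.2.2.2.1 - x.2| < ε ∧ |cor b.1 b.2.2.2.2 - x.2| < ε

def SubB (b' b : Bx) : Prop :=
  cor b.1 b.2.1 ≤ cor b'.1 b'.2.1 ∧ cor b'.1 b'.2.2.1 ≤ cor b.1 b.2.2.1 ∧
    cor b.1 b.2.2.2.1 ≤ cor b'.1 b'.2.2.2.1 ∧ cor b'.1 b'.2.2.2.2 ≤ cor b.1 b.2.2.2.2

def hE (m i j : ℕ) : Bx := (m, i, i + 1, j, j)
def vE (m i j : ℕ) : Bx := (m, i, i, j, j + 1)
def vx (m i j : ℕ) : Bx := (m, i, i, j, j)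
def cellB (m i j : ℕ) : Bx := (m, i, i + 1, j, j + 1)

theorem cor_mono {m i j : ℕ} (h : i ≤ j) : cor m i ≤ cor m j := by
  unfold cor
  have : (i : ℝ) ≤ j := by exact_mod_cast h
  gcongr

theorem cor_succ (m i : ℕ) : cor m (i + 1) = cor m i + 1 / 2 ^ m := by
  unfold cor
  push_cast
  ring

theorem cor_double (m i : ℕ) : cor (m + 1) (2 * i) = cor m i := by
  unfold cor
  push_cast
  rw [pow_succ]
  field_simp

/-- A system of certificates: `N i b` certifies that `ℓ i < 0` on the box `b`, `P i b` that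
`ℓ i > 0` on `b`. -/
structure Sys (N P : ℕ → Bx → Prop) (l : ℕ → ℝ × ℝ → ℝ) : Prop where
  sumz : ∀ x, l 0 x + l 1 x + l 2 x = 0
  s1 : ∀ i < 3, ∀ b, N i b → ∀ x ∈ bset b, l i x < 0
  s2 : ∀ i < 3, ∀ b, P i b → ∀ x ∈ bset b, 0 < l i x
  c1 : ∀ i < 3, ∀ x, l i x < 0 → ∃ ε > 0, ∀ b, Near b x ε → N i b
  c2 : ∀ i < 3, ∀ x, 0 < l i x → ∃ ε > 0, ∀ b, Near b x ε → P i b
  mN : ∀ i < 3, ∀ b b', SubB b' b → N i b → N i b'
  mP : ∀ i < 3, ∀ b b', SubB b' b → P i b → P i b'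
  bd0 : ∀ x : ℝ × ℝ, x.1 = -1 → 0 < l 0 x
  bd1 : ∀ x : ℝ × ℝ, x.2 = -1 → 0 < l 1 x
  bd2 : ∀ x : ℝ × ℝ, -1 ≤ x.1 → -1 ≤ x.2 → (x.1 = 7 ∨ x.2 = 7) → 0 < l 2 x

/-- `x` is a zero of the system -/
def Zr (l : ℕ → ℝ × ℝ → ℝ) (x : ℝ × ℝ) : Prop := l 0 x = 0 ∧ l 1 x = 0

variable {N P : ℕ → Bx → Prop} {l : ℕ → ℝ × ℝ → ℝ}

theorem Sys.neg (h : Sys N P l) {x : ℝ × ℝ} (hx : ¬ Zr l x) : ∃ i < 3, l i x < 0 := by
  by_contra hc
  push Not at hc
  have h0 := hc 0 (by norm_num)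
  have h1 := hc 1 (by norm_num)
  have h2 := hc 2 (by norm_num)
  have := h.sumz x
  exact hx ⟨by linarith, by linarith⟩

theorem Sys.pos (h : Sys N P l) {x : ℝ × ℝ} (hx : ¬ Zr l x) : ∃ i < 3, 0 < l i x := by
  by_contra hc
  push Not at hc
  have h0 := hc 0 (by norm_num)
  have h1 := hc 1 (by norm_num)
  have h2 := hc 2 (by norm_num)
  have := h.sumz x
  exact hx ⟨by linarith, by linarith⟩

theorem Sys.nz_of_N (h : Sys N P l) {b : Bx} {k : ℕ} (hk : k < 3) (hN : N k b) {x : ℝ × ℝ}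
    (hx : x ∈ bset b) : ¬ Zr l x := by
  rintro ⟨h0, h1⟩
  have h2 := h.sumz x
  have := h.s1 k hk b hN x hx
  interval_cases k <;> linarith

/-- colour `c` is certified at vertex `p` -/
def Val (P : ℕ → Bx → Prop) (m : ℕ) (c : ℕ × ℕ → ℕ) (p : ℕ × ℕ) : Prop :=
  c p < 3 ∧ P (c p) (vx m p.1 p.2)

/-- good edge -/
def EG (N P : ℕ → Bx → Prop) (m : ℕ) (c : ℕ × ℕ → ℕ) (e : Bx) (p q : ℕ × ℕ) : Prop :=
  (∃ k < 3, N k e) ∧ Val P m c p ∧ Val P m c q

/-- certified region -/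
def Cert (N P : ℕ → Bx → Prop) (m : ℕ) (S : Finset (ℕ × ℕ)) (c : ℕ × ℕ → ℕ) : Prop :=
  Bd S (fun i j => EG N P m c (hE m i j) (i, j) (i + 1, j))
    (fun i j => EG N P m c (vE m i j) (i, j) (i, j + 1))

theorem near_vx (m i j : ℕ) {ε : ℝ} (hε : 0 < ε) : Near (vx m i j) (pt m i j) ε := by
  simp [Near, vx, pt, hε]

theorem pt_mem_vx (m i j : ℕ) : pt m i j ∈ bset (vx m i j) := by
  simp [bset, vx, pt]

theorem Sys.exists_P (h : Sys N P l) {m i j : ℕ} (hx : ¬ Zr l (pt m i j)) :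
    ∃ k < 3, P k (vx m i j) := by
  obtain ⟨k, hk, hp⟩ := h.pos hx
  obtain ⟨ε, hε, H⟩ := h.c2 k hk _ hp
  exact ⟨k, hk, H _ (near_vx m i j hε)⟩

theorem Sys.ne_of_N (h : Sys N P l) {m : ℕ} {c : ℕ × ℕ → ℕ} {p : ℕ × ℕ} (hv : Val P m c p)
    {b : Bx} {k : ℕ} (hk : k < 3) (hN : N k b) (hb : pt m p.1 p.2 ∈ bset b) : c p ≠ k := by
  intro hck
  have h1 := h.s2 _ hv.1 _ hv.2 _ (pt_mem_vx m p.1 p.2)
  have h2 := h.s1 k hk b hN _ hb
  rw [hck] at h1
  linarith

theorem mem_hE_left (m i j : ℕ) : pt m i j ∈ bset (hE m i j) := by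
  simp only [bset, hE, pt, Set.mem_prod, Set.mem_Icc]
  exact ⟨⟨le_rfl, cor_mono (Nat.le_succ _)⟩, le_rfl, le_rfl⟩

theorem mem_hE_right (m i j : ℕ) : pt m (i + 1) j ∈ bset (hE m i j) := by
  simp only [bset, hE, pt, Set.mem_prod, Set.mem_Icc]
  exact ⟨⟨cor_mono (Nat.le_succ _), le_rfl⟩, le_rfl, le_rfl⟩

theorem mem_vE_left (m i j : ℕ) : pt m i j ∈ bset (vE m i j) := by
  simp only [bset, vE, pt, Set.mem_prod, Set.mem_Icc]
  exact ⟨⟨le_rfl, le_rfl⟩, le_rfl, cor_mono (Nat.le_succ _)⟩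

theorem mem_vE_right (m i j : ℕ) : pt m i (j + 1) ∈ bset (vE m i j) := by
  simp only [bset, vE, pt, Set.mem_prod, Set.mem_Icc]
  exact ⟨⟨le_rfl, le_rfl⟩, cor_mono (Nat.le_succ _), le_rfl⟩

theorem mem_cellB (m i j a b : ℕ) (ha : a ≤ 1) (hb : b ≤ 1) :
    pt m (i + a) (j + b) ∈ bset (cellB m i j) := by
  simp only [bset, cellB, pt, Set.mem_prod, Set.mem_Icc]
  exact ⟨⟨cor_mono (by omega), cor_mono (by omega)⟩, cor_mono (by omega), cor_mono (by omega)⟩

open Classical in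
/-- recolouring of the vertices of level `m`: keep certified colours, choose certified colours
elsewhere if possible. `c₀` gives the old colours, `ok` the vertices where they are to be kept. -/
noncomputable def recol (P : ℕ → Bx → Prop) (m : ℕ) (c₀ : ℕ × ℕ → ℕ) (ok : ℕ × ℕ → Prop)
    (p : ℕ × ℕ) : ℕ :=
  if ok p ∧ Val P m c₀ p then c₀ p
  else if h : ∃ k < 3, P k (vx m p.1 p.2) then h.choose else c₀ p

theorem recol_of_ok {m : ℕ} {c₀ : ℕ × ℕ → ℕ} {ok : ℕ × ℕ → Prop} {p : ℕ × ℕ}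
    (h1 : ok p) (h2 : Val P m c₀ p) : recol P m c₀ ok p = c₀ p := by
  unfold recol
  rw [if_pos ⟨h1, h2⟩]

theorem Sys.val_recol (h : Sys N P l) {m : ℕ} {c₀ : ℕ × ℕ → ℕ} {ok : ℕ × ℕ → Prop} {p : ℕ × ℕ}
    (hx : ¬ Zr l (pt m p.1 p.2)) : Val P m (recol P m c₀ ok) p := by
  have hex := h.exists_P hx
  by_cases h1 : ok p ∧ Val P m c₀ p
  · have h3 := h1.2
    have e := recol_of_ok h1.1 h1.2
    unfold Val at h3 ⊢
    rw [e]
    exact h3
  · have e : recol P m c₀ ok p = hex.choose := by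
      unfold recol
      rw [if_neg h1, dif_pos hex]
    unfold Val
    rw [e]
    exact hex.choose_spec

/-- Refinement of a certified region. -/
theorem Sys.refine (h : Sys N P l) {m : ℕ} {S : Finset (ℕ × ℕ)} {c : ℕ × ℕ → ℕ}
    (hc : Cert N P m S c) :
    ∃ c', Cert N P (m + 1) (ref S) c' ∧ par (ref S) (Hc c') (Vc c') = par S (Hc c) (Vc c) := by
  classical
  set c₀ : ℕ × ℕ → ℕ := fun p => c (p.1 / 2, p.2 / 2) with hc₀
  set ok : ℕ × ℕ → Prop := fun p => p.1 % 2 = 0 ∧ p.2 % 2 = 0 with hok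
  set c' := recol P (m + 1) c₀ ok with hc'
  -- old vertices keep their certified colours
  have hvx : ∀ i j : ℕ, SubB (vx (m + 1) (2 * i) (2 * j)) (vx m i j) := by
    intro i j
    simp only [SubB, vx, cor_double]
    exact ⟨le_rfl, le_rfl, le_rfl, le_rfl⟩
  have old : ∀ i j : ℕ, Val P m c (i, j) → c' (2 * i, 2 * j) = c (i, j) := by
    intro i j hv
    have e : c₀ (2 * i, 2 * j) = c (i, j) := by simp [hc₀]
    have : Val P (m + 1) c₀ (2 * i, 2 * j) := by
      unfold Val at hv ⊢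
      rw [e]
      exact ⟨hv.1, h.mP _ hv.1 _ _ (hvx i j) hv.2⟩
    rw [hc', recol_of_ok (by simp [hok]) this, e]
  have hval : ∀ p : ℕ × ℕ, ¬ Zr l (pt (m + 1) p.1 p.2) → Val P (m + 1) c' p := fun p hp =>
    h.val_recol hp
  have hsub1 : ∀ i j : ℕ, SubB (hE (m + 1) (2 * i) (2 * j)) (hE m i j) := by
    intro i j
    simp only [SubB, hE, cor_double]
    refine ⟨le_rfl, ?_, le_rfl, le_rfl⟩
    rw [← cor_double m (i + 1)]
    exact cor_mono (by omega)
  have hsub2 : ∀ i j : ℕ, SubB (hE (m + 1) (2 * i + 1) (2 * j)) (hE m i j) := by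
    intro i j
    simp only [SubB, hE, cor_double]
    refine ⟨?_, ?_, le_rfl, le_rfl⟩
    · rw [← cor_double m i]
      exact cor_mono (by omega)
    · rw [← cor_double m (i + 1)]
      exact cor_mono (by omega)
  have vsub1 : ∀ i j : ℕ, SubB (vE (m + 1) (2 * i) (2 * j)) (vE m i j) := by
    intro i j
    simp only [SubB, vE, cor_double]
    refine ⟨le_rfl, le_rfl, le_rfl, ?_⟩
    rw [← cor_double m (j + 1)]
    exact cor_mono (by omega)
  have vsub2 : ∀ i j : ℕ, SubB (vE (m + 1) (2 * i) (2 * j + 1)) (vE m i j) := by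
    intro i j
    simp only [SubB, vE, cor_double]
    refine ⟨le_rfl, le_rfl, ?_, ?_⟩
    · rw [← cor_double m j]
      exact cor_mono (by omega)
    · rw [← cor_double m (j + 1)]
      exact cor_mono (by omega)
  -- subedges of good edges are good
  have hgood : ∀ i j : ℕ, EG N P m c (hE m i j) (i, j) (i + 1, j) →
      EG N P (m + 1) c' (hE (m + 1) (2 * i) (2 * j)) (2 * i, 2 * j) (2 * i + 1, 2 * j) ∧
      EG N P (m + 1) c' (hE (m + 1) (2 * i + 1) (2 * j)) (2 * i + 1, 2 * j)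
        (2 * i + 1 + 1, 2 * j) := by
    rintro i j ⟨⟨k, hk, hN⟩, -, -⟩
    have n1 := h.mN k hk _ _ (hsub1 i j) hN
    have n2 := h.mN k hk _ _ (hsub2 i j) hN
    refine ⟨⟨⟨k, hk, n1⟩, hval _ (h.nz_of_N hk n1 (mem_hE_left _ _ _)),
      hval _ (h.nz_of_N hk n1 (mem_hE_right _ _ _))⟩,
      ⟨⟨k, hk, n2⟩, hval _ (h.nz_of_N hk n2 (mem_hE_left _ _ _)),
      hval _ (h.nz_of_N hk n2 (mem_hE_right _ _ _))⟩⟩
  have vgood : ∀ i j : ℕ, EG N P m c (vE m i j) (i, j) (i, j + 1) →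
      EG N P (m + 1) c' (vE (m + 1) (2 * i) (2 * j)) (2 * i, 2 * j) (2 * i, 2 * j + 1) ∧
      EG N P (m + 1) c' (vE (m + 1) (2 * i) (2 * j + 1)) (2 * i, 2 * j + 1)
        (2 * i, 2 * j + 1 + 1) := by
    rintro i j ⟨⟨k, hk, hN⟩, -, -⟩
    have n1 := h.mN k hk _ _ (vsub1 i j) hN
    have n2 := h.mN k hk _ _ (vsub2 i j) hN
    refine ⟨⟨⟨k, hk, n1⟩, hval _ (h.nz_of_N hk n1 (mem_vE_left _ _ _)),
      hval _ (h.nz_of_N hk n1 (mem_vE_right _ _ _))⟩,
      ⟨⟨k, hk, n2⟩, hval _ (h.nz_of_N hk n2 (mem_vE_left _ _ _)),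
      hval _ (h.nz_of_N hk n2 (mem_vE_right _ _ _))⟩⟩
  refine ⟨c', ?_, ?_⟩
  · -- certificate
    rintro ⟨i, j⟩ hp
    rw [mem_ref] at hp
    simp only at hp
    have hS := hc _ hp
    simp only at hS
    rcases Nat.even_or_odd' i with ⟨a, rfl | rfl⟩ <;> rcases Nat.even_or_odd' j with ⟨b, rfl | rfl⟩
    · -- i = 2a, j = 2b
      have ea : 2 * a / 2 = a := by omega
      have eb : 2 * b / 2 = b := by omega
      rw [ea, eb] at hS hp
      refine ⟨fun hn => ?_, fun hn => ?_, fun hn => ?_, fun hn => ?_⟩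
      · exfalso
        rw [mem_ref] at hn
        apply hn
        have : (2 * b + 1) / 2 = b := by omega
        simpa [ea, this] using hp
      · refine (hgood a b (hS.2.1 fun b' hb' hmem => ?_)).1
        refine hn (2 * b' + 1) (by simp only; omega) ?_
        rw [mem_ref]
        have : (2 * b' + 1) / 2 = b' := by omega
        simpa [ea, this] using hmem
      · exfalso
        rw [mem_ref] at hn
        apply hn
        have : (2 * a + 1) / 2 = a := by omega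
        simpa [eb, this] using hp
      · refine (vgood a b (hS.2.2.2 fun a' ha' hmem => ?_)).1
        refine hn (2 * a' + 1) (by simp only; omega) ?_
        rw [mem_ref]
        have : (2 * a' + 1) / 2 = a' := by omega
        simpa [eb, this] using hmem
    · -- i = 2a, j = 2b+1
      have ea : 2 * a / 2 = a := by omega
      have eb : (2 * b + 1) / 2 = b := by omega
      have eb2 : (2 * b) / 2 = b := by omega
      rw [ea, eb] at hS hp
      refine ⟨fun hn => ?_, fun hn => ?_, fun hn => ?_, fun hn => ?_⟩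
      · have e : 2 * b + 1 + 1 = 2 * (b + 1) := by ring
        simp only [e] at hn ⊢
        rw [mem_ref] at hn
        have e2 : 2 * (b + 1) / 2 = b + 1 := by omega
        simp only [ea, e2] at hn
        exact (hgood a (b + 1) (hS.1 hn)).1
      · exfalso
        refine hn (2 * b) (by simp only) ?_
        rw [mem_ref]
        simpa [ea, eb2] using hp
      · exfalso
        rw [mem_ref] at hn
        apply hn
        have : (2 * a + 1) / 2 = a := by omega
        simpa [eb, this] using hp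
      · refine (vgood a b (hS.2.2.2 fun a' ha' hmem => ?_)).2
        refine hn (2 * a' + 1) (by simp only; omega) ?_
        rw [mem_ref]
        have : (2 * a' + 1) / 2 = a' := by omega
        simpa [eb, this] using hmem
    · -- i = 2a+1, j = 2b
      have ea : (2 * a + 1) / 2 = a := by omega
      have ea2 : (2 * a) / 2 = a := by omega
      have eb : 2 * b / 2 = b := by omega
      rw [ea, eb] at hS hp
      refine ⟨fun hn => ?_, fun hn => ?_, fun hn => ?_, fun hn => ?_⟩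
      · exfalso
        rw [mem_ref] at hn
        apply hn
        have : (2 * b + 1) / 2 = b := by omega
        simpa [ea, this] using hp
      · refine (hgood a b (hS.2.1 fun b' hb' hmem => ?_)).2
        refine hn (2 * b' + 1) (by simp only; omega) ?_
        rw [mem_ref]
        have : (2 * b' + 1) / 2 = b' := by omega
        simpa [ea, this] using hmem
      · have e : 2 * a + 1 + 1 = 2 * (a + 1) := by ring
        simp only [e] at hn ⊢
        rw [mem_ref] at hn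
        have e2 : 2 * (a + 1) / 2 = a + 1 := by omega
        simp only [eb, e2] at hn
        exact (vgood (a + 1) b (hS.2.2.1 hn)).1
      · exfalso
        refine hn (2 * a) (by simp only) ?_
        rw [mem_ref]
        simpa [eb, ea2] using hp
    · -- i = 2a+1, j = 2b+1
      have ea : (2 * a + 1) / 2 = a := by omega
      have ea2 : (2 * a) / 2 = a := by omega
      have eb : (2 * b + 1) / 2 = b := by omega
      have eb2 : (2 * b) / 2 = b := by omega
      rw [ea, eb] at hS hp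
      refine ⟨fun hn => ?_, fun hn => ?_, fun hn => ?_, fun hn => ?_⟩
      · have e : 2 * b + 1 + 1 = 2 * (b + 1) := by ring
        simp only [e] at hn ⊢
        rw [mem_ref] at hn
        have e2 : 2 * (b + 1) / 2 = b + 1 := by omega
        simp only [ea, e2] at hn
        exact (hgood a (b + 1) (hS.1 hn)).2
      · exfalso
        refine hn (2 * b) (by simp only) ?_
        rw [mem_ref]
        simpa [ea, eb2] using hp
      · have e : 2 * a + 1 + 1 = 2 * (a + 1) := by ring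
        simp only [e] at hn ⊢
        rw [mem_ref] at hn
        have e2 : 2 * (a + 1) / 2 = a + 1 := by omega
        simp only [eb, e2] at hn
        exact (vgood (a + 1) b (hS.2.2.1 hn)).2
      · exfalso
        refine hn (2 * a) (by simp only) ?_
        rw [mem_ref]
        simpa [eb, ea2] using hp
  · -- parity
    rw [par_ref]
    have key : par S (fun i j => Hc c i j + (Hc c' (2 * i) (2 * j) + Hc c' (2 * i + 1) (2 * j)))
        (fun i j => Vc c i j + (Vc c' (2 * i) (2 * j) + Vc c' (2 * i) (2 * j + 1))) = 0 := by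
      refine par_eq_zero (hc.mono (fun i j hg => ?_) fun i j hg => ?_)
      · obtain ⟨⟨k, hk, hN⟩, v1, v2⟩ := hg
        have n1 := h.mN k hk _ _ (hsub1 i j) hN
        have vm := hval (2 * i + 1, 2 * j) (h.nz_of_N hk n1 (mem_hE_right _ _ _))
        have e1 : Hc c' (2 * i) (2 * j) = chi (c (i, j)) (c' (2 * i + 1, 2 * j)) := by
          unfold Hc
          rw [old i j v1]
        have e2 : Hc c' (2 * i + 1) (2 * j) = chi (c' (2 * i + 1, 2 * j)) (c (i + 1, j)) := by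
          unfold Hc
          have : 2 * i + 1 + 1 = 2 * (i + 1) := by ring
          rw [this, old (i + 1) j v2]
        rw [e1, e2]
        exact chi3 hk v1.1 v2.1 vm.1 (h.ne_of_N v1 hk hN (mem_hE_left _ _ _))
          (h.ne_of_N v2 hk hN (mem_hE_right _ _ _))
          (h.ne_of_N vm hk n1 (mem_hE_right _ _ _))
      · obtain ⟨⟨k, hk, hN⟩, v1, v2⟩ := hg
        have n1 := h.mN k hk _ _ (vsub1 i j) hN
        have vm := hval (2 * i, 2 * j + 1) (h.nz_of_N hk n1 (mem_vE_right _ _ _))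
        have e1 : Vc c' (2 * i) (2 * j) = chi (c (i, j)) (c' (2 * i, 2 * j + 1)) := by
          unfold Vc
          rw [old i j v1]
        have e2 : Vc c' (2 * i) (2 * j + 1) = chi (c' (2 * i, 2 * j + 1)) (c (i, j + 1)) := by
          unfold Vc
          have : 2 * j + 1 + 1 = 2 * (j + 1) := by ring
          rw [this, old i (j + 1) v2]
        rw [e1, e2]
        exact chi3 hk v1.1 v2.1 vm.1 (h.ne_of_N v1 hk hN (mem_vE_left _ _ _))
          (h.ne_of_N v2 hk hN (mem_vE_right _ _ _))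
          (h.ne_of_N vm hk n1 (mem_vE_right _ _ _))
    rw [par_add] at key
    have := CharTwo.add_eq_zero.1 key
    exact this.symm

end Pool.Agent.H75.Fix
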