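import Pool.Agent.H75.Cantor

/-! The effectively closed class given by the construction: it is a nonempty class whose members
have no computable member and compute very few reals. -/

namespace Pool.Agent.H75.Fix

open Primrec Encodable

/-- all strings of length `t` -/
def strs : ℕ → List (List Bool) :=
  Nat.rec [[]] fun _ L => L.flatMap fun s => [false :: s, true :: s]

theorem strs_succ (t : ℕ) : strs (t + 1) = (strs t).flatMap fun s => [false :: s, true :: s] := rfl

theorem mem_strs {t : ℕ} {s : List Bool} : s ∈ strs t ↔ s.length = t := by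
  induction t generalizing s with
  | zero =>
    show s ∈ [[]] ↔ _
    simp
  | succ t ih =>
    rw [strs_succ]
    simp only [List.mem_flatMap, ih]
    constructor
    · rintro ⟨s', h, h'⟩
      simp at h'
      rcases h' with rfl | rfl <;> simp [h]
    · intro h
      cases s with
      | nil => simp at h
      | cons a s =>
        refine ⟨s, by simpa using h, ?_⟩
        cases a <;> simp

theorem length_strs (t : ℕ) : (strs t).length = 2 ^ t := by
  induction t with
  | zero => rfl
  | succ t ih =>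
    rw [strs_succ, List.length_flatMap]
    simp [ih, pow_succ]

theorem primrec_strs : Primrec strs := by
  refine Primrec.nat_rec₁ (α := List (List Bool)) (f := fun _ L =>
    L.flatMap fun s => [false :: s, true :: s]) [[]] ?_
  refine Primrec.list_flatMap (f := fun x : ℕ × List (List Bool) => x.2)
    (g := fun _ s => [false :: s, true :: s]) snd ?_
  have h : Primrec fun y : (ℕ × List (List Bool)) × List Bool => y.2 := snd
  exact list_cons.comp (list_cons.comp (Primrec.const false) h)
    (list_cons.comp (list_cons.comp (Primrec.const true) h) (Primrec.const []))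

section

variable (A : ℕ → ℕ → List Bool → ℕ → Prop)

/-- the class of reals -/
def KK : Set ℝ := {x | ∀ t, ∃ s : List Bool, s.length = t ∧ x ∈ II (TT A t s)}

/-- approximation to the class -/
def CC (t : ℕ) : Set ℝ := ⋃ s ∈ {s : List Bool | s.length = t}, II (TT A t s)

theorem mem_CC {t : ℕ} {x : ℝ} : x ∈ CC A t ↔ ∃ s : List Bool, s.length = t ∧ x ∈ II (TT A t s) := by
  simp [CC]

theorem isCompact_CC (t : ℕ) : IsCompact (CC A t) :=
  (List.finite_length_eq Bool t).isCompact_biUnion fun _ _ => isCompact_Icc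

theorem CC_anti (t : ℕ) : CC A (t + 1) ⊆ CC A t := by
  intro x hx
  rw [mem_CC] at hx ⊢
  obtain ⟨s, hs, hx⟩ := hx
  obtain ⟨s', hs', hle⟩ := TT_succ_le (A := A) t s
  refine ⟨s'.take t, by simp; omega, ?_⟩
  exact II_anti (((isTree_TT A t).mono (List.take_prefix _ _)).trans hle) hx

theorem KK_nonempty : (KK A).Nonempty := by
  have h := IsCompact.nonempty_iInter_of_sequence_nonempty_isCompact_isClosed (CC A) (CC_anti A)
    (fun t => ?_) (isCompact_CC A 0) fun t => (isCompact_CC A t).isClosed
  · obtain ⟨x, hx⟩ := h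
    refine ⟨x, fun t => ?_⟩
    exact (mem_CC A).1 (Set.mem_iInter.1 hx t)
  · obtain ⟨x, hx⟩ := II_nonempty (TT A t (List.replicate t false))
    exact ⟨x, (mem_CC A).2 ⟨_, by simp, hx⟩⟩

variable {A}

theorem KK_limit {T : List Bool → List Bool} {b : List Bool → ℕ}
    (h : ∀ s t, b s ≤ t → TT A t s = T s) {x : ℝ} (hx : x ∈ KK A) (k : ℕ) :
    ∃ s : List Bool, s.length = k ∧ x ∈ II (T s) := by
  obtain ⟨B, hB⟩ := ((List.finite_length_eq Bool k).image b).bddAbove
  obtain ⟨s, hs, hxs⟩ := hx (max B k)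
  have hk : (s.take k).length = k := by
    simp [hs]
  refine ⟨s.take k, hk, ?_⟩
  rw [← h (s.take k) (max B k) (le_trans (hB ⟨_, hk, rfl⟩) (le_max_left _ _))]
  exact II_anti ((isTree_TT A _).mono (List.take_prefix _ _)) hxs

/-- good boxes: boxes seen to be disjoint from the class -/
def Good (A : ℕ → ℕ → List Bool → ℕ → Prop) (x : ℕ × ℕ) : Prop :=
  0 ≤ ratOf x.1.unpair.2.unpair.1 ∨ ratOf x.1.unpair.2.unpair.2 ≤ 0 ∨
    ∀ s ∈ strs x.2, ratOf x.1.unpair.1.unpair.2 ≤ lo (TT A x.2 s) ∨
      hi (TT A x.2 s) ≤ ratOf x.1.unpair.1.unpair.1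

theorem primrec_good (hA : Req A) : PrimrecPred (Good A) := by
  have h1 : Primrec fun x : ℕ × ℕ => x.1.unpair.1 := fst.comp (unpair.comp fst)
  have h2 : Primrec fun x : ℕ × ℕ => x.1.unpair.2 := snd.comp (unpair.comp fst)
  have ha := PR.ratOf (fst.comp (unpair.comp h1))
  have hb := PR.ratOf (snd.comp (unpair.comp h1))
  have hc := PR.ratOf (fst.comp (unpair.comp h2))
  have hd := PR.ratOf (snd.comp (unpair.comp h2))
  have h3 : PrimrecRel fun (s : List Bool) (x : ℕ × ℕ) =>
      ratOf x.1.unpair.1.unpair.2 ≤ lo (TT A x.2 s) ∨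
      hi (TT A x.2 s) ≤ ratOf x.1.unpair.1.unpair.1 := by
    have hT : Primrec fun y : List Bool × (ℕ × ℕ) => TT A y.2.2 y.1 :=
      (primrec_TT hA).comp (snd.comp snd) fst
    have ha' := PR.ratOf ((fst.comp (unpair.comp h1)).comp
      (snd : Primrec fun y : List Bool × (ℕ × ℕ) => y.2))
    have hb' := PR.ratOf ((snd.comp (unpair.comp h1)).comp
      (snd : Primrec fun y : List Bool × (ℕ × ℕ) => y.2))
    exact (hb'.le (PR.lo hT)).or ((PR.hi hT).le ha')
  have h4 : PrimrecPred fun x : ℕ × ℕ => ∀ s ∈ strs x.2,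
      ratOf x.1.unpair.1.unpair.2 ≤ lo (TT A x.2 s) ∨
      hi (TT A x.2 s) ≤ ratOf x.1.unpair.1.unpair.1 :=
    PrimrecRel.comp (f := fun x : ℕ × ℕ => strs x.2) (g := fun x : ℕ × ℕ => x)
      h3.forall_mem_list (primrec_strs.comp snd) Primrec.id
  exact ((PR.const 0).le hc).or ((hd.le (PR.const 0)).or h4)

theorem box_zero : box 0 = ∅ := by
  unfold box
  simp

theorem isPi01_KK (hA : Req A) : IsPi01 {p : ℝ × ℝ | p.1 ∈ KK A ∧ p.2 = 0} := by
  classical
  refine ⟨?_, fun n => if Good A n.unpair then n.unpair.1 else 0, ?_, ?_⟩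
  · rintro ⟨x, y⟩ ⟨hx, hy⟩
    obtain ⟨s, -, hs⟩ := hx 0
    simp only at hy
    subst hy
    exact ⟨II_subset _ hs, by simp⟩
  · exact (Primrec.ite ((primrec_good hA).comp unpair) (fst.comp unpair)
      (Primrec.const 0)).to_comp
  · ext ⟨x, y⟩
    simp only [Set.mem_sdiff, Set.mem_iUnion, Set.mem_inter_iff, Set.mem_ofPred_eq]
    constructor
    · rintro ⟨hsq, hn⟩
      by_cases hy : y = 0
      · subst hy
        have hx : x ∉ KK A := fun hx => hn ⟨hx, rfl⟩
        have : ∃ t, x ∉ CC A t := by
          by_contra hcon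
          push Not at hcon
          exact hx fun t => (mem_CC A).1 (hcon t)
        obtain ⟨t, ht⟩ := this
        obtain ⟨ε, hε, hb⟩ := Metric.isOpen_iff.1 (isCompact_CC A t).isClosed.isOpen_compl x ht
        obtain ⟨a, ha1, ha2⟩ := exists_rat_btwn (show x - ε < x by linarith)
        obtain ⟨b, hb1, hb2⟩ := exists_rat_btwn (show x < x + ε by linarith)
        obtain ⟨ca, rfl⟩ := exists_ratOf a
        obtain ⟨cb, rfl⟩ := exists_ratOf b
        obtain ⟨cc, hcc⟩ := exists_ratOf (-1)
        obtain ⟨cd, hcd⟩ := exists_ratOf 1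
        refine ⟨Nat.pair (Nat.pair (Nat.pair ca cb) (Nat.pair cc cd)) t, hsq, ?_⟩
        have hgood : Good A (Nat.pair (Nat.pair ca cb) (Nat.pair cc cd), t) := by
          right; right
          intro s hs
          simp only [Nat.unpair_pair]
          by_contra hcon
          push Not at hcon
          obtain ⟨h1, h2⟩ := hcon
          have h3 : (lo (TT A t s) : ℝ) < ratOf cb := by exact_mod_cast h1
          have h4 : (ratOf ca : ℝ) < hi (TT A t s) := by exact_mod_cast h2
          have h5 : (lo (TT A t s) : ℝ) ≤ hi (TT A t s) := by exact_mod_cast (lo_lt_hi _).le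
          have hmem : ∀ z ∈ II (TT A t s), ¬ |z - x| < ε := by
            intro z hz hd
            exact hb (show z ∈ Metric.ball x ε by rwa [Metric.mem_ball, Real.dist_eq])
              ((mem_CC A).2 ⟨s, mem_strs.1 hs, hz⟩)
          rcases lt_or_ge x (lo (TT A t s)) with h6 | h6
          · refine hmem (lo (TT A t s)) ⟨le_rfl, h5⟩ ?_
            rw [abs_of_pos (by linarith)]
            linarith
          · rcases lt_or_ge (hi (TT A t s) : ℝ) x with h7 | h7
            · refine hmem (hi (TT A t s)) ⟨h5, le_rfl⟩ ?_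
              rw [abs_of_neg (by linarith)]
              linarith
            · refine hmem x ⟨h6, h7⟩ ?_
              simpa using hε
        simp only [Nat.unpair_pair, hgood, if_true]
        unfold box
        simp only [Nat.unpair_pair]
        refine ⟨⟨ha2, hb1⟩, ?_⟩
        rw [hcc, hcd]
        simp
      · have hy1 : 0 < y := lt_of_le_of_ne hsq.2.1 (Ne.symm hy)
        obtain ⟨ca, hca⟩ := exists_ratOf (-1)
        obtain ⟨cb, hcb⟩ := exists_ratOf 2
        obtain ⟨cc, hcc⟩ := exists_ratOf 0
        refine ⟨Nat.pair (Nat.pair (Nat.pair ca cb) (Nat.pair cc cb)) 0, hsq, ?_⟩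
        have hgood : Good A (Nat.pair (Nat.pair ca cb) (Nat.pair cc cb), 0) := by
          left
          simp only [Nat.unpair_pair]
          rw [hcc]
        simp only [Nat.unpair_pair, hgood, if_true]
        unfold box
        simp only [Nat.unpair_pair]
        rw [hca, hcb, hcc]
        have h1 := hsq.1
        have h2 := hsq.2
        simp only [Set.mem_Icc] at h1 h2
        refine ⟨⟨?_, ?_⟩, ?_, ?_⟩ <;> push_cast <;> linarith
    · rintro ⟨n, hsq, hbox⟩
      refine ⟨hsq, fun ⟨hx, hy⟩ => ?_⟩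
      subst hy
      by_cases hg : Good A n.unpair
      · rw [if_pos hg] at hbox
        unfold box at hbox
        obtain ⟨⟨h1, h2⟩, h3, h4⟩ := hbox
        rcases hg with hg | hg | hg
        · have : (0 : ℝ) ≤ ratOf n.unpair.1.unpair.2.unpair.1 := by exact_mod_cast hg
          exact absurd h3 (not_lt.2 this)
        · have : (ratOf n.unpair.1.unpair.2.unpair.2 : ℝ) ≤ 0 := by exact_mod_cast hg
          exact absurd h4 (not_lt.2 this)
        · obtain ⟨s, hs, hxs⟩ := hx n.unpair.2
          rcases hg s (mem_strs.2 hs) with h5 | h5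
          · have h6 : (ratOf n.unpair.1.unpair.1.unpair.2 : ℝ) ≤ lo (TT A n.unpair.2 s) := by
              exact_mod_cast h5
            exact absurd (h6.trans hxs.1) (not_le.2 h2)
          · have h6 : (hi (TT A n.unpair.2 s) : ℝ) ≤ ratOf n.unpair.1.unpair.1.unpair.1 := by
              exact_mod_cast h5
            exact absurd (hxs.2.trans h6) (not_le.2 h1)
      · rw [if_neg hg, box_zero] at hbox
        exact hbox

end

theorem exists_disagree {x : ℝ} {s : List Bool} (hx : x ∉ II s) :
    ∃ n m, infoO s n = some m ∧ m ≠ cutFn (x, 0) n := by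
  classical
  have h0 := lo_lt_hi s
  unfold II at hx
  rw [Set.mem_Icc, not_and_or, not_le, not_le] at hx
  rcases hx with hx | hx
  · obtain ⟨q, hq1, hq2⟩ := exists_rat_btwn hx
    obtain ⟨c, rfl⟩ := exists_ratOf q
    have h1 : ratOf c < lo s := by exact_mod_cast hq2
    refine ⟨Nat.pair 0 c, 1, ?_, ?_⟩
    · simp [infoO, h1]
    · simp [cutFn, not_lt.2 hq1.le]
  · obtain ⟨c, hc⟩ := exists_ratOf (hi s)
    refine ⟨Nat.pair 0 c, 0, ?_, ?_⟩
    · simp [infoO, hc, not_lt.2 h0.le]
    · simp [cutFn, hc, hx]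

variable {T : List Bool → List Bool} {b : List Bool → ℕ}

theorem KK_noncomp {x : ℝ} (hx : x ∈ KK AA) : ¬ Computable (cutFn (x, 0)) := by
  classical
  obtain ⟨T, b, h, h'⟩ := exists_limit req_AA
  intro hcomp
  obtain ⟨c, hc⟩ := Nat.Partrec.Code.exists_code.1 (Partrec.nat_iff.1 hcomp.partrec)
  have hT := isTree_limit h
  set e := Nat.pair 0 (encode c) with he
  obtain ⟨s, hs, hxs⟩ := KK_limit h hx e
  have hAA : ∀ l τ t, AA l e τ t ↔ AN c τ t := by
    intro l τ t
    unfold AA
    simp [he]
  have hcn : ∀ n m t, m ∈ c.evaln t n → m = cutFn (x, 0) n := by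
    intro n m t hm
    have := Nat.Partrec.Code.evaln_sound hm
    rw [hc] at this
    simpa using this
  rcases limit_met req_AA h h' (v := s) (e := e) hs.ge with ⟨t, ht⟩ | hno
  · rw [hAA] at ht
    obtain ⟨n, -, h1, h2, h3⟩ := ht
    obtain ⟨m, hm⟩ := Option.ne_none_iff_exists'.1 h1
    obtain ⟨m', hm'⟩ := Option.ne_none_iff_exists'.1 h2
    rw [hm, hm', hcn n m t hm, infoO_sound hxs hm'] at h3
    exact h3 rfl
  · have : ∃ i : Bool, x ∉ II (T (s ++ [i])) := by
      by_contra hcon
      push Not at hcon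
      have := hT.eq_of_mem (by simp) (hcon false) (hcon true)
      simp at this
    obtain ⟨i, hi⟩ := this
    obtain ⟨n, m, hm, hne⟩ := exists_disagree hi
    have hmem : cutFn (x, 0) n ∈ c.eval n := by
      rw [hc]
      simp
    obtain ⟨t, ht⟩ := Nat.Partrec.Code.evaln_complete.1 hmem
    refine hno [i] (max t (n + 1)) ((hAA _ _ _).2 ⟨n, by simp, ?_⟩)
    have ht' := Nat.Partrec.Code.evaln_mono (le_max_left t (n + 1)) ht
    rw [Option.mem_def.1 ht', hm]
    simp [Ne.symm hne]

theorem KK_irr {x : ℝ} (hx : x ∈ KK AA) (q : ℚ) : (q : ℝ) ≠ x := by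
  classical
  rintro rfl
  refine KK_noncomp hx ?_
  have h : Primrec fun n : ℕ => if n.unpair.1 = 0 then (if ratOf n.unpair.2 < q then 1 else 0)
      else (if ratOf n.unpair.2 < 0 then 1 else 0) := by
    have h2 : Primrec fun n : ℕ => n.unpair.2 := snd.comp unpair
    exact Primrec.ite (Primrec.eq.comp (fst.comp unpair) (Primrec.const 0))
      (Primrec.ite ((PR.ratOf h2).lt (PR.const q)) (Primrec.const 1) (Primrec.const 0))
      (Primrec.ite ((PR.ratOf h2).lt (PR.const 0)) (Primrec.const 1) (Primrec.const 0))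
  refine h.to_comp.of_eq fun n => ?_
  unfold cutFn
  by_cases h0 : n.unpair.1 = 0
  · simp [h0]
  · simp only [h0, if_false]
    have h6 : ((ratOf n.unpair.2 : ℝ) < 0) ↔ ratOf n.unpair.2 < 0 := by
      exact_mod_cast Iff.rfl
    simp [h6]

/-- the oracle given by a point -/
noncomputable def orc (p : ℝ × ℝ) : ℕ →. ℕ := fun n => Part.some (cutFn p n)

theorem answers (h : ∀ s t, b s ≤ t → TT AA t s = T s)
    (h' : ∀ s t, b s ≤ t → ∀ v, v <+: s → ¬ Act AA t v) (e : OCode) (i : ℕ) :
    ∃ l₀, ∀ x ∈ KK AA, ∀ g : ℕ → ℕ, (∀ n, g n ∈ e.eval (orc (x, 0)) (Nat.pair i n)) →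
      ∀ s : List Bool, l₀ ≤ s.length → x ∈ II (T s) → ∀ j < 4 ^ s.length + 1,
        g (qc s.length j) ∈ e.eval (info (T s)) (Nat.pair i (qc s.length j)) := by
  classical
  have hT := isTree_limit h
  have hpart : Partrec fun y : List Bool × ℕ => e.eval (info y.1) (Nat.pair i y.2) :=
    (OCode.eval_partrec partrec_info e).comp Computable.fst
      (Primrec₂.natPair.to_comp.comp (Computable.const i) Computable.snd)
  obtain ⟨c, hc⟩ := Nat.Partrec.Code.exists_code.1 hpart
  have hc' : ∀ (τ : List Bool) (n : ℕ), c.eval (encode (τ, n)) = e.eval (info τ) (Nat.pair i n) := by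
    intro τ n
    rw [hc]
    simp [encodek, Part.map_id']
  refine ⟨Nat.pair 1 (encode c), fun x hx g hg s hs hxs => ?_⟩
  have hAA : ∀ l τ t, AA l (Nat.pair 1 (encode c)) τ t ↔ AR l c τ t := by
    intro l τ t
    unfold AA
    simp
  rcases limit_met req_AA h h' (v := s) hs with ⟨t, ht⟩ | hno
  · intro j hj
    rw [hAA] at ht
    obtain ⟨k, hk, h1⟩ := ht j hj
    obtain ⟨m, hm⟩ := Option.ne_none_iff_exists'.1 h1
    have h2 := Nat.Partrec.Code.evaln_sound (Option.mem_def.2 hm)
    rw [hc'] at h2
    have h3 := OCode.eval_mono (info_mono (List.take_prefix k (T s))) e _ _ h2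
    have h4 := OCode.eval_mono (info_sound hxs) e _ _ h3
    have h5 := Part.mem_unique h4 (hg (qc s.length j))
    rw [← h5]
    exact h3
  · exfalso
    -- the path of `x`
    choose S hS hxS using fun k => KK_limit h hx k
    have hext : ∀ k k', k ≤ k' → S k <+: S k' := by
      intro k k' hkk'
      have h1 : x ∈ II (T ((S k').take k)) := II_anti (hT.mono (List.take_prefix _ _)) (hxS k')
      have h2 : S k = (S k').take k := by
        refine hT.eq_of_mem ?_ (hxS k) h1
        simp [hS, hkk']
      rw [h2]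
      exact List.take_prefix _ _
    have hSs : S s.length = s := hT.eq_of_mem (hS _) (hxS _) hxs
    have hGm : ∀ k n m, m ∈ info (T (S k)) n → m ∈ info (T (S (k + 1))) n := fun k =>
      info_mono (hT.mono (hext k (k + 1) (Nat.le_succ k)))
    have hGm' : ∀ k k', k ≤ k' → ∀ n m, m ∈ info (T (S k)) n → m ∈ info (T (S k')) n :=
      fun k k' hkk' => info_mono (hT.mono (hext k k' hkk'))
    have hgl : ∀ n m, m ∈ orc (x, 0) n → ∃ k, m ∈ info (T (S k)) n := by
      intro n m hm
      have hm' : m = cutFn (x, 0) n := by simpa [orc] using hm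
      subst hm'
      exact info_exhaust (KK_irr hx) (S := fun k => T (S k))
        (fun k => (hS k).ge.trans (hT.length _)) hxS n
    have huse := OCode.eval_use hGm hgl e
    have hall : ∀ J : ℕ, ∃ K, s.length ≤ K ∧ ∃ t, ∀ j < J,
        c.evaln t (encode (T (S K), qc s.length j)) ≠ none := by
      -- first find `K`
      intro J
      have h1 : ∃ K, s.length ≤ K ∧ ∀ j < J,
          g (qc s.length j) ∈ e.eval (info (T (S K))) (Nat.pair i (qc s.length j)) := by
        induction J with
        | zero => exact ⟨s.length, le_rfl, fun j hj => absurd hj (Nat.not_lt_zero _)⟩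
        | succ J ih =>
          obtain ⟨K, hK, hK'⟩ := ih
          obtain ⟨k, hk⟩ := huse _ _ (hg (qc s.length J))
          refine ⟨max K k, hK.trans (le_max_left _ _), fun j hj => ?_⟩
          rcases Nat.lt_succ_iff_lt_or_eq.1 hj with hj | rfl
          · exact OCode.eval_mono (hGm' _ _ (le_max_left K k)) e _ _ (hK' j hj)
          · exact OCode.eval_mono (hGm' _ _ (le_max_right K k)) e _ _ hk
      obtain ⟨K, hK, hK'⟩ := h1
      refine ⟨K, hK, ?_⟩
      clear hK
      induction J with
      | zero => exact ⟨0, fun j hj => absurd hj (Nat.not_lt_zero _)⟩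
      | succ J ih =>
        obtain ⟨t, ht⟩ := ih fun j hj => hK' j (hj.trans (Nat.lt_succ_self J))
        have h2 := hK' J (Nat.lt_succ_self J)
        rw [← hc'] at h2
        obtain ⟨t', ht'⟩ := Nat.Partrec.Code.evaln_complete.1 h2
        refine ⟨max t t', fun j hj => ?_⟩
        rcases Nat.lt_succ_iff_lt_or_eq.1 hj with hj | rfl
        · exact (evaln_ne_none_mono (le_max_left _ _) (ht j hj)).2
        · refine (evaln_ne_none_mono (le_max_right _ _) ?_).2
          rw [Option.mem_def.1 ht']
          simp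
    obtain ⟨K, hK, t, ht⟩ := hall (4 ^ s.length + 1)
    obtain ⟨u, hu⟩ := hext _ _ hK
    rw [hSs] at hu
    refine hno u t ((hAA _ _ _).2 fun j hj => ⟨(T (s ++ u)).length, Nat.lt_succ_self _, ?_⟩)
    rw [List.take_length, hu]
    exact ht j hj

end Pool.Agent.H75.Fix
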