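import Pool.Agent.H75.Oracle

/-! Recursively enumerable predicates, in the form `∃ n, R a n` with `R` primitive recursive. -/

namespace Pool.Agent.H75.Fix

open Encodable

/-- `p` is of the form `∃ n, R a n` with `R` primitive recursive. -/
def Sig {α : Type*} [Primcodable α] (p : α → Prop) : Prop :=
  ∃ R : α → ℕ → Prop, PrimrecRel R ∧ ∀ a, p a ↔ ∃ n, R a n

variable {α β γ : Type*} [Primcodable α] [Primcodable β] [Primcodable γ]

theorem Sig.of_prim {p : α → Prop} (h : PrimrecPred p) : Sig p :=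
  ⟨fun a _ => p a, h.comp Primrec.fst, fun a => by simp⟩

theorem Sig.of_eq {p q : α → Prop} (hp : Sig p) (h : ∀ a, p a ↔ q a) : Sig q := by
  obtain ⟨R, hR, h'⟩ := hp
  exact ⟨R, hR, fun a => (h a).symm.trans (h' a)⟩

theorem Sig.comp {p : β → Prop} (hp : Sig p) {f : α → β} (hf : Primrec f) :
    Sig fun a => p (f a) := by
  obtain ⟨R, hR, h⟩ := hp
  exact ⟨fun a n => R (f a) n, hR.comp (hf.comp Primrec.fst) Primrec.snd, fun a => h _⟩

theorem Sig.and {p q : α → Prop} (hp : Sig p) (hq : Sig q) : Sig fun a => p a ∧ q a := by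
  obtain ⟨R, hR, h⟩ := hp
  obtain ⟨S, hS, h'⟩ := hq
  refine ⟨fun a n => R a n.unpair.1 ∧ S a n.unpair.2, ?_, fun a => ?_⟩
  · exact (hR.comp Primrec.fst (Primrec.fst.comp (Primrec.unpair.comp Primrec.snd))).and
      (hS.comp Primrec.fst (Primrec.snd.comp (Primrec.unpair.comp Primrec.snd)))
  · beta_reduce
    rw [h, h']
    constructor
    · rintro ⟨⟨n, hn⟩, ⟨m, hm⟩⟩
      exact ⟨Nat.pair n m, by simpa using ⟨hn, hm⟩⟩
    · rintro ⟨n, hn, hm⟩
      exact ⟨⟨_, hn⟩, ⟨_, hm⟩⟩

theorem Sig.or {p q : α → Prop} (hp : Sig p) (hq : Sig q) : Sig fun a => p a ∨ q a := by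
  obtain ⟨R, hR, h⟩ := hp
  obtain ⟨S, hS, h'⟩ := hq
  refine ⟨fun a n => R a n ∨ S a n, hR.or hS, fun a => ?_⟩
  beta_reduce
  rw [h, h']
  constructor
  · rintro (⟨n, hn⟩ | ⟨m, hm⟩)
    · exact ⟨n, Or.inl hn⟩
    · exact ⟨m, Or.inr hm⟩
  · rintro ⟨n, hn | hm⟩
    · exact Or.inl ⟨n, hn⟩
    · exact Or.inr ⟨n, hm⟩

theorem Sig.ex {p : α → β → Prop} (hp : Sig fun x : α × β => p x.1 x.2) :
    Sig fun a => ∃ b, p a b := by
  classical
  obtain ⟨R, hR, h⟩ := hp
  refine ⟨fun a n => ∃ b ∈ (decode (α := β) n.unpair.1).toList, R (a, b) n.unpair.2, ?_,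
    fun a => ?_⟩
  · have h1 : PrimrecRel fun (b : β) (x : α × ℕ) => R (x.1, b) x.2.unpair.2 :=
      hR.comp (Primrec.pair (Primrec.fst.comp Primrec.snd) Primrec.fst)
        (Primrec.snd.comp (Primrec.unpair.comp (Primrec.snd.comp Primrec.snd)))
    exact h1.exists_mem_list.comp
      (Primrec.optionToList.comp (Primrec.decode.comp (Primrec.fst.comp (Primrec.unpair.comp
        Primrec.snd)))) Primrec.id
  · constructor
    · rintro ⟨b, hb⟩
      obtain ⟨n, hn⟩ := (h (a, b)).1 hb
      exact ⟨Nat.pair (encode b) n, b, by simp [encodek], by simpa using hn⟩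
    · rintro ⟨n, b, _, hb⟩
      exact ⟨b, (h (a, b)).2 ⟨_, hb⟩⟩

theorem Sig.all {p : α → β → Prop} (hp : Sig fun x : α × β => p x.1 x.2) {L : α → List β}
    (hL : Primrec L) : Sig fun a => ∀ b ∈ L a, p a b := by
  obtain ⟨R, hR, h⟩ := hp
  refine ⟨fun a N => ∀ b ∈ L a, ∃ n < N, R (a, b) n, ?_, fun a => ?_⟩
  · have h0 : PrimrecRel fun (n : ℕ) (x : β × (α × ℕ)) => R (x.2.1, x.1) n :=
      hR.comp (Primrec.pair (Primrec.fst.comp (Primrec.snd.comp Primrec.snd))
        (Primrec.fst.comp Primrec.snd)) Primrec.fst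
    have h1 : PrimrecRel fun (b : β) (x : α × ℕ) => ∃ n < x.2, R (x.1, b) n := by
      have := PrimrecRel.comp (f := fun y : β × (α × ℕ) => List.range y.2.2)
        (g := fun y : β × (α × ℕ) => y) h0.exists_mem_list
        (Primrec.list_range.comp (Primrec.snd.comp Primrec.snd)) Primrec.id
      refine this.of_eq fun y => ?_
      simp only [List.mem_range]
    exact h1.forall_mem_list.comp (hL.comp Primrec.fst) Primrec.id
  · constructor
    · intro H
      have : ∀ l : List β, (∀ b ∈ l, p a b) → ∃ N, ∀ b ∈ l, ∃ n < N, R (a, b) n := by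
        intro l
        induction l with
        | nil => intro _; exact ⟨0, fun b hb => absurd hb List.not_mem_nil⟩
        | cons c l ih =>
          intro hl
          obtain ⟨N, hN⟩ := ih fun b hb => hl b (List.mem_cons_of_mem _ hb)
          obtain ⟨n, hn⟩ := (h (a, c)).1 (hl c List.mem_cons_self)
          refine ⟨max N (n + 1), fun b hb => ?_⟩
          rcases List.mem_cons.1 hb with rfl | hb
          · exact ⟨n, lt_of_lt_of_le (Nat.lt_succ_self n) (le_max_right _ _), hn⟩
          · obtain ⟨k, hk, hk'⟩ := hN b hb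
            exact ⟨k, lt_of_lt_of_le hk (le_max_left _ _), hk'⟩
      exact this _ H
    · rintro ⟨N, hN⟩ b hb
      obtain ⟨n, _, hn⟩ := hN b hb
      exact (h (a, b)).2 ⟨n, hn⟩

theorem Sig.of_partrec {f : α →. ℕ} (hf : Partrec f) : Sig fun x : α × ℕ => x.2 ∈ f x.1 := by
  classical
  obtain ⟨c, hc⟩ := Nat.Partrec.Code.exists_code.1 hf
  refine ⟨fun x n => c.evaln n (encode x.1) = some x.2, ?_, fun x => ?_⟩
  · exact Primrec.eq.comp (Nat.Partrec.Code.primrec_evaln.comp
      (Primrec.pair (Primrec.pair Primrec.snd (Primrec.const c))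
        (Primrec.encode.comp (Primrec.fst.comp Primrec.fst))))
      (Primrec.option_some.comp (Primrec.snd.comp Primrec.fst))
  · have h1 : c.eval (encode x.1) = f x.1 := by
      rw [hc]
      simp [encodek, Part.map_id']
    beta_reduce
    rw [← h1, Nat.Partrec.Code.evaln_complete]
    rfl

/-- Uniformization of a recursively enumerable relation by a partial recursive function. -/
theorem Sig.uniformize {p : α → β → Prop} (hp : Sig fun x : α × β => p x.1 x.2) :
    ∃ F : α →. β, Partrec F ∧ (∀ a, (∃ b, p a b) → (F a).Dom) ∧ ∀ a b, b ∈ F a → p a b := by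
  classical
  obtain ⟨R, hR, h⟩ := hp
  let g : α → ℕ → Option β := fun a n =>
    (decode (α := β) n.unpair.1).bind fun b => if R (a, b) n.unpair.2 then some b else none
  have hg : Computable₂ g := by
    refine Primrec.to_comp ?_
    refine Primrec.option_bind (Primrec.decode.comp (Primrec.fst.comp (Primrec.unpair.comp
      Primrec.snd))) ?_
    refine Primrec.ite ?_ (Primrec.option_some.comp Primrec.snd) (Primrec.const none)
    exact hR.comp (Primrec.pair (Primrec.fst.comp Primrec.fst) Primrec.snd)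
      (Primrec.snd.comp (Primrec.unpair.comp (Primrec.snd.comp Primrec.fst)))
  have hsound : ∀ a b n, g a n = some b → p a b := by
    intro a b n hn
    simp only [g, Option.bind_eq_some_iff] at hn
    obtain ⟨b', _, hb'⟩ := hn
    split_ifs at hb' with hc
    cases hb'
    exact (h (a, b)).2 ⟨_, hc⟩
  refine ⟨fun a => Nat.rfindOpt (g a), Partrec.rfindOpt hg, fun a hb => ?_, fun a b hb => ?_⟩
  · obtain ⟨b, hb⟩ := hb
    obtain ⟨n, hn⟩ := (h (a, b)).1 hb
    rw [Nat.rfindOpt_dom]
    refine ⟨Nat.pair (encode b) n, b, ?_⟩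
    simp only [g, Nat.unpair_pair, encodek, Option.bind_some]
    simp [hn]
  · obtain ⟨n, hn⟩ := Nat.rfindOpt_spec hb
    exact hsound a b n hn

/-- Computable dependent choice for a recursively enumerable relation. -/
theorem Sig.choose_seq {R : ℕ → α → α → Prop}
    (hR : Sig fun x : (ℕ × α) × α => R x.1.1 x.1.2 x.2) {I : ℕ → α → Prop} {a₀ : α} (h0 : I 0 a₀)
    (hstep : ∀ k a, I k a → ∃ b, R k a b) (hpres : ∀ k a b, I k a → R k a b → I (k + 1) b) :
    ∃ s : ℕ → α, Computable s ∧ s 0 = a₀ ∧ (∀ k, I k (s k)) ∧ ∀ k, R k (s k) (s (k + 1)) := by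
  classical
  obtain ⟨F, hF, hdom, hsound⟩ := Sig.uniformize (p := fun (x : ℕ × α) b => R x.1 x.2 b) hR
  let S : ℕ →. α := fun n => Nat.rec (Part.some a₀) (fun y IH => IH.bind fun i => F (y, i)) n
  have hS : Partrec S := by
    refine (Partrec.nat_rec (f := fun n : ℕ => n) (g := fun _ => Part.some a₀)
      (h := fun _ (q : ℕ × α) => F q) Computable.id (Computable.const a₀).partrec ?_)
    exact hF.comp Computable.snd
  have hS0 : S 0 = Part.some a₀ := rfl
  have hS1 : ∀ n, S (n + 1) = (S n).bind fun i => F (n, i) := fun n => rfl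
  have key : ∀ n, ∃ a, a ∈ S n ∧ I n a := by
    intro n
    induction n with
    | zero => exact ⟨a₀, by rw [hS0]; exact Part.mem_some _, h0⟩
    | succ n ih =>
      obtain ⟨a, ha, hI⟩ := ih
      have hd := hdom (n, a) (hstep n a hI)
      refine ⟨(F (n, a)).get hd, ?_, hpres n a _ hI (hsound (n, a) _ (Part.get_mem hd))⟩
      rw [hS1]
      exact Part.mem_bind_iff.2 ⟨a, ha, Part.get_mem hd⟩
  choose s hs hI using key
  have hsS : ∀ n, S n = Part.some (s n) := fun n => Part.eq_some_iff.2 (hs n)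
  refine ⟨s, ?_, ?_, hI, fun k => ?_⟩
  · exact hS.of_eq_tot hs
  · have := hs 0
    rw [hS0] at this
    exact Part.mem_some_iff.1 this
  · have := hs (k + 1)
    rw [hS1, hsS, Part.bind_some] at this
    exact hsound (k, s k) _ this

end Pool.Agent.H75.Fix
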