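import Mathlib

/-! A finite-injury construction of a tree map on binary strings. -/

namespace Pool.Agent.H75.Fix

open Primrec Encodable

/-- tree maps on binary strings -/
def IsTree (T : List Bool → List Bool) : Prop := ∀ s i, T s ++ [i] <+: T (s ++ [i])

theorem IsTree.mono {T : List Bool → List Bool} (h : IsTree T) {s s' : List Bool} (hs : s <+: s') :
    T s <+: T s' := by
  obtain ⟨u, rfl⟩ := hs
  induction u using List.reverseRecOn with
  | nil => simp
  | append_singleton u i ih =>
    rw [← List.append_assoc]
    exact ih.trans ((List.prefix_append _ _).trans (h _ _))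

theorem IsTree.length {T : List Bool → List Bool} (h : IsTree T) (s : List Bool) :
    s.length ≤ (T s).length := by
  induction s using List.reverseRecOn with
  | nil => simp
  | append_singleton s i ih =>
    have := (h s i).length_le
    simp at this ⊢
    omega

theorem IsTree.comp {T T' : List Bool → List Bool} (h : IsTree T) (h' : IsTree T') :
    IsTree fun s => T (T' s) :=
  fun s i => (h _ _).trans (h.mono (h' s i))

theorem IsTree.split {T : List Bool → List Bool} (h : IsTree T) :
    ∀ {s s' : List Bool}, s.length = s'.length → s ≠ s' →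
      ∃ r i, r ++ [i] <+: T s ∧ r ++ [!i] <+: T s' := by
  intro s
  induction s using List.reverseRecOn with
  | nil =>
    intro s' hl hne
    exact absurd (List.length_eq_zero_iff.1 hl.symm).symm hne
  | append_singleton s i ih =>
    intro s'
    induction s' using List.reverseRecOn with
    | nil => intro hl; simp at hl
    | append_singleton s' j _ =>
      intro hl hne
      simp only [List.length_append, List.length_cons, List.length_nil, zero_add,
        Nat.add_right_cancel_iff] at hl
      by_cases hs : s = s'
      · subst hs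
        have hij : j = !i := by
          cases i <;> cases j <;> simp_all
        subst hij
        exact ⟨T s, i, h _ _, h _ _⟩
      · obtain ⟨r, k, h1, h2⟩ := ih hl hs
        exact ⟨r, k, h1.trans (h.mono (List.prefix_append _ _)),
          h2.trans (h.mono (List.prefix_append _ _))⟩

/-- pruning the tree at the node `p.1` by the string `p.2` -/
def prune (p : List Bool × List Bool) (s : List Bool) : List Bool :=
  if s.take p.1.length = p.1 then p.1 ++ p.2 ++ s.drop p.1.length else s

theorem prune_append (v u s : List Bool) : prune (v, u) (v ++ s) = v ++ u ++ s := by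
  simp [prune]

theorem prune_of_not {p : List Bool × List Bool} {s : List Bool} (h : ¬ p.1 <+: s) :
    prune p s = s := by
  unfold prune
  rw [if_neg]
  intro h'
  exact h (h' ▸ List.take_prefix _ _)

theorem isTree_prune (p : List Bool × List Bool) : IsTree (prune p) := by
  intro s i
  by_cases h : p.1 <+: s
  · obtain ⟨s', rfl⟩ := h
    obtain ⟨v, u⟩ := p
    rw [List.append_assoc v s' [i], prune_append, prune_append]
    simp
  · rw [prune_of_not h]
    by_cases h' : p.1 <+: s ++ [i]
    · have hp : p.1 = s ++ [i] := by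
        rcases List.prefix_concat_iff.1 h' with h' | h'
        · exact h'
        · exact absurd h' h
      obtain ⟨v, u⟩ := p
      simp only at hp
      subst hp
      have := prune_append (s ++ [i]) u []
      rw [List.append_nil, List.append_nil] at this
      rw [this]
      exact List.prefix_append _ _
    · rw [prune_of_not h']

/-- the tree map obtained by a list of prunings -/
def TL (L : List (List Bool × List Bool)) (s : List Bool) : List Bool :=
  L.foldl (fun s p => prune p s) s

theorem TL_cons (p : List Bool × List Bool) (L : List (List Bool × List Bool)) (s : List Bool) :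
    TL (p :: L) s = TL L (prune p s) := rfl

theorem isTree_TL (L : List (List Bool × List Bool)) : IsTree (TL L) := by
  induction L with
  | nil => exact fun s i => List.prefix_rfl
  | cons p L ih => exact ih.comp (isTree_prune p)

theorem primrec_prune : Primrec₂ prune := by
  have h1 : Primrec fun x : (List Bool × List Bool) × List Bool => x.1.1 := fst.comp fst
  have h2 : Primrec fun x : (List Bool × List Bool) × List Bool => x.1.2 := snd.comp fst
  have h3 : Primrec fun x : (List Bool × List Bool) × List Bool => x.2 := snd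
  have hl := list_length.comp h1
  exact Primrec.ite (Primrec.eq.comp (list_take.comp hl h3) h1)
    (list_append.comp (list_append.comp h1 h2) (list_drop.comp hl h3)) h3

theorem primrec_TL : Primrec₂ TL :=
  Primrec.list_foldl (f := fun x : List (List Bool × List Bool) × List Bool => x.1)
    (g := fun x => x.2) (h := fun _ y => prune y.2 y.1) fst snd
    (primrec_prune.comp (snd.comp snd) (fst.comp snd))

/-- requirements: `A l e τ t` says that the requirement with number `e`, for nodes at level `l`,
is seen at stage `t` to be met by the string `τ`. -/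
structure Req (A : ℕ → ℕ → List Bool → ℕ → Prop) : Prop where
  prim : PrimrecPred fun x : (ℕ × ℕ) × (List Bool × ℕ) => A x.1.1 x.1.2 x.2.1 x.2.2
  mono : ∀ l e s t t', t ≤ t' → A l e s t → A l e s t'
  up : ∀ l e s s' t, s <+: s' → A l e s t → A l e s' t

/-- decoding of a stage -/
def dec (t : ℕ) : (List Bool × List Bool) × (ℕ × ℕ) :=
  ((decode t : Option ((List Bool × List Bool) × (ℕ × ℕ)))).getD (([], []), (0, 0))

theorem primrec_dec : Primrec dec :=
  Primrec.option_getD.comp Primrec.decode (Primrec.const _)

theorem exists_dec (s u : List Bool) (e r : ℕ) : ∃ t, r ≤ t ∧ dec t = ((s, u), (e, r)) := by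
  refine ⟨encode (((s, u), (e, r)) : (List Bool × List Bool) × (ℕ × ℕ)), ?_, by simp [dec]⟩
  rw [Encodable.encode_prod_val, Encodable.encode_prod_val (a := e)]
  exact (Nat.right_le_pair _ _).trans (Nat.right_le_pair _ _)

section Construction

variable (A : ℕ → ℕ → List Bool → ℕ → Prop)

/-- the condition for acting at stage `t` -/
def Cnd (t : ℕ) (L : List (List Bool × List Bool)) : Prop :=
  (dec t).2.1 ≤ (dec t).1.1.length ∧
  ¬ A (dec t).1.1.length (dec t).2.1 (TL L (dec t).1.1) t ∧
  A (dec t).1.1.length (dec t).2.1 (TL L ((dec t).1.1 ++ (dec t).1.2)) t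

open Classical in
/-- the prunings performed before stage `t` -/
noncomputable def stL (t : ℕ) : List (List Bool × List Bool) :=
  Nat.rec [] (fun t L => if Cnd A t L then (dec t).1 :: L else L) t

theorem stL_succ_pos {t : ℕ} (h : Cnd A t (stL A t)) : stL A (t + 1) = (dec t).1 :: stL A t := by
  classical
  exact if_pos h

theorem stL_succ_neg {t : ℕ} (h : ¬ Cnd A t (stL A t)) : stL A (t + 1) = stL A t := by
  classical
  exact if_neg h

/-- the tree map at stage `t` -/
noncomputable def TT (t : ℕ) (s : List Bool) : List Bool := TL (stL A t) s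

theorem isTree_TT (t : ℕ) : IsTree (TT A t) := isTree_TL _

/-- the construction acts at stage `t` at the node `v` -/
def Act (t : ℕ) (v : List Bool) : Prop := Cnd A t (stL A t) ∧ (dec t).1.1 = v

theorem TT_succ_of_not {t : ℕ} {s : List Bool} (h : ∀ v, v <+: s → ¬ Act A t v) :
    TT A (t + 1) s = TT A t s := by
  unfold TT
  by_cases hc : Cnd A t (stL A t)
  · rw [stL_succ_pos A hc, TL_cons, prune_of_not]
    intro hp
    exact h _ hp ⟨hc, rfl⟩
  · rw [stL_succ_neg A hc]

theorem TT_succ_of_act {t : ℕ} {v : List Bool} (h : Act A t v) :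
    TT A (t + 1) v = TT A t (v ++ (dec t).1.2) := by
  obtain ⟨hc, rfl⟩ := h
  unfold TT
  rw [stL_succ_pos A hc, TL_cons]
  congr 1
  have := prune_append (dec t).1.1 (dec t).1.2 []
  rw [List.append_nil, List.append_nil] at this
  exact this

variable {A}

theorem le_TT_succ {t : ℕ} {s : List Bool} (h : ∀ v, v <+: s → v ≠ s → ¬ Act A t v) :
    TT A t s <+: TT A (t + 1) s := by
  by_cases hs : Act A t s
  · rw [TT_succ_of_act A hs]
    exact (isTree_TT A t).mono (List.prefix_append _ _)
  · rw [TT_succ_of_not A]
    intro v hv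
    by_cases hvs : v = s
    · rw [hvs]; exact hs
    · exact h v hv hvs

theorem settle_aux (hA : Req A) {s : List Bool} {t₀ : ℕ}
    (h : ∀ t, t₀ ≤ t → ∀ v, v <+: s → v ≠ s → ¬ Act A t v) :
    ∃ t₁, t₀ ≤ t₁ ∧ ∀ t, t₁ ≤ t → ¬ Act A t s := by
  classical
  by_contra hcon
  push Not at hcon
  set F : ℕ → Finset ℕ := fun t =>
    (Finset.range (s.length + 1)).filter fun e => A s.length e (TT A t s) t with hF
  have hstep : ∀ t, t₀ ≤ t → F t ⊆ F (t + 1) := by
    intro t ht e he
    simp only [hF, Finset.mem_filter] at he ⊢
    exact ⟨he.1, hA.up _ _ _ _ _ (le_TT_succ (h t ht)) (hA.mono _ _ _ _ _ (Nat.le_succ t) he.2)⟩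
  have hmono : ∀ t t', t₀ ≤ t → t ≤ t' → F t ⊆ F t' := by
    intro t t' ht htt'
    induction htt' with
    | refl => exact Finset.Subset.refl _
    | step hle ih => exact ih.trans (hstep _ (ht.trans hle))
  have key : ∀ n : ℕ, ∃ t, t₀ ≤ t ∧ n ≤ (F t).card := by
    intro n
    induction n with
    | zero => exact ⟨t₀, le_rfl, Nat.zero_le _⟩
    | succ n ih =>
      obtain ⟨t, ht, hn⟩ := ih
      obtain ⟨t', ht', hact⟩ := hcon t ht
      refine ⟨t' + 1, by omega, ?_⟩
      have h1 := hmono t t' ht ht'
      have h2 := hstep t' (ht.trans ht')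
      have hact' := hact
      obtain ⟨⟨hc1, hc2, hc3⟩, hv⟩ := hact
      rw [hv] at hc1 hc2 hc3
      have h3 : (dec t').2.1 ∉ F t' := by
        simp only [hF, Finset.mem_filter, not_and]
        exact fun _ => hc2
      have h4 : (dec t').2.1 ∈ F (t' + 1) := by
        simp only [hF, Finset.mem_filter, Finset.mem_range]
        refine ⟨by omega, ?_⟩
        rw [TT_succ_of_act A hact']
        exact hA.mono _ _ _ _ _ (Nat.le_succ t') hc3
      have h5 : F t' ⊂ F (t' + 1) := (Finset.ssubset_iff_of_subset h2).2 ⟨_, h4, h3⟩
      have h6 := Finset.card_lt_card h5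
      have h7 := Finset.card_le_card h1
      omega
  obtain ⟨t, _, ht⟩ := key (s.length + 2)
  have : (F t).card ≤ s.length + 1 := by
    refine (Finset.card_filter_le _ _).trans ?_
    simp
  omega

theorem exists_settle (hA : Req A) (s : List Bool) :
    ∃ t₀, ∀ t, t₀ ≤ t → ∀ v, v <+: s → ¬ Act A t v := by
  induction s using List.reverseRecOn with
  | nil =>
    obtain ⟨t₁, -, h⟩ := settle_aux hA (s := []) (t₀ := 0) fun t _ v hv hne =>
      absurd (List.prefix_nil.1 hv) hne
    refine ⟨t₁, fun t ht v hv => ?_⟩
    rw [List.prefix_nil.1 hv]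
    exact h t ht
  | append_singleton s i ih =>
    obtain ⟨t₀, h₀⟩ := ih
    obtain ⟨t₁, h1, h⟩ := settle_aux hA (s := s ++ [i]) (t₀ := t₀) fun t ht v hv hne => by
      rcases List.prefix_concat_iff.1 hv with hv | hv
      · exact absurd hv hne
      · exact h₀ t ht v hv
    refine ⟨t₁, fun t ht v hv => ?_⟩
    rcases List.prefix_concat_iff.1 hv with hv | hv
    · rw [hv]
      exact h t ht
    · exact h₀ t (h1.trans ht) v hv

theorem exists_limit (hA : Req A) : ∃ (T : List Bool → List Bool) (b : List Bool → ℕ),
    (∀ s t, b s ≤ t → TT A t s = T s) ∧ (∀ s t, b s ≤ t → ∀ v, v <+: s → ¬ Act A t v) := by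
  choose b hb using exists_settle hA
  refine ⟨fun s => TT A (b s) s, b, fun s t ht => ?_, hb⟩
  induction ht with
  | refl => rfl
  | step hle ih => rw [TT_succ_of_not A (hb s _ hle), ih]

theorem isTree_limit {T : List Bool → List Bool} {b : List Bool → ℕ}
    (h : ∀ s t, b s ≤ t → TT A t s = T s) : IsTree T := by
  intro s i
  rw [← h s (max (b s) (b (s ++ [i]))) (le_max_left _ _),
    ← h (s ++ [i]) (max (b s) (b (s ++ [i]))) (le_max_right _ _)]
  exact isTree_TT A _ s i

theorem limit_met (hA : Req A) {T : List Bool → List Bool} {b : List Bool → ℕ}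
    (h : ∀ s t, b s ≤ t → TT A t s = T s) (h' : ∀ s t, b s ≤ t → ∀ v, v <+: s → ¬ Act A t v)
    {v : List Bool} {e : ℕ} (he : e ≤ v.length) :
    (∃ t, A v.length e (T v) t) ∨ ∀ u t, ¬ A v.length e (T (v ++ u)) t := by
  by_contra hcon
  push Not at hcon
  obtain ⟨h1, u, t, h2⟩ := hcon
  obtain ⟨t', ht', hdec⟩ := exists_dec v u e (max t (max (b v) (b (v ++ u))))
  have hv : b v ≤ t' := le_trans (by simp) ht'
  have hvu : b (v ++ u) ≤ t' := le_trans (by simp) ht'
  have htt : t ≤ t' := le_trans (by simp) ht'
  refine h' v t' hv v List.prefix_rfl ⟨?_, by rw [hdec]⟩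
  unfold Cnd
  rw [hdec]
  refine ⟨he, ?_, ?_⟩
  · show ¬ A v.length e (TT A t' v) t'
    rw [h v t' hv]
    exact h1 t'
  · show A v.length e (TT A t' (v ++ u)) t'
    rw [h (v ++ u) t' hvu]
    exact hA.mono _ _ _ _ _ htt h2

theorem primrec_cnd (hA : Req A) :
    PrimrecPred fun x : ℕ × List (List Bool × List Bool) => Cnd A x.1 x.2 := by
  have hd : Primrec fun x : ℕ × List (List Bool × List Bool) => dec x.1 := primrec_dec.comp fst
  have hv : Primrec fun x : ℕ × List (List Bool × List Bool) => (dec x.1).1.1 :=
    fst.comp (fst.comp hd)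
  have hu : Primrec fun x : ℕ × List (List Bool × List Bool) => (dec x.1).1.2 :=
    snd.comp (fst.comp hd)
  have he : Primrec fun x : ℕ × List (List Bool × List Bool) => (dec x.1).2.1 :=
    fst.comp (snd.comp hd)
  have hl := list_length.comp hv
  unfold Cnd
  refine (nat_le.comp he hl).and (PrimrecPred.and ?_ ?_)
  · exact (hA.prim.comp ((hl.pair he).pair ((primrec_TL.comp snd hv).pair fst))).not
  · exact hA.prim.comp ((hl.pair he).pair
      ((primrec_TL.comp snd (list_append.comp hv hu)).pair fst))

theorem primrec_stL (hA : Req A) : Primrec (stL A) := by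
  classical
  refine Primrec.nat_rec₁ (α := List (List Bool × List Bool)) (f := fun t L =>
    if Cnd A t L then (dec t).1 :: L else L) [] ?_
  exact Primrec.ite (primrec_cnd hA) (list_cons.comp (fst.comp (primrec_dec.comp fst)) snd) snd

theorem primrec_TT (hA : Req A) : Primrec₂ (TT A) :=
  primrec_TL.comp ((primrec_stL hA).comp fst) snd

theorem TT_succ_le (t : ℕ) (s : List Bool) : ∃ s', s'.length = s.length ∧ TT A t s' <+:
    TT A (t + 1) s := by
  by_cases hc : Cnd A t (stL A t)
  · have h1 : TT A (t + 1) s = TT A t (prune (dec t).1 s) := by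
      unfold TT
      rw [stL_succ_pos A hc, TL_cons]
    have h2 := (isTree_prune (dec t).1).length s
    refine ⟨(prune (dec t).1 s).take s.length, by simpa using h2, ?_⟩
    rw [h1]
    exact (isTree_TT A t).mono (List.take_prefix _ _)
  · exact ⟨s, rfl, by unfold TT; rw [stL_succ_neg A hc]⟩

end Construction

end Pool.Agent.H75.Fix
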